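import Mathlib

/-! # CNV: almost concave functions, crossing times (Mathlib only)

PROOF of `almost_concave`. Let `M' > M` (then `M' → M`), `L s = ((b - s) * φ a + (s - a) * φ b) / (b - a)` and
`w s = φ s - L s + M' / 2 * (s - a) * (b - s)`, `w a = w b = 0`, `w` continuous on `[a,b]`. If `w` takes a
negative value its minimum over `[a,b]` is attained at `s ∈ (a,b)`, and `w (s+h) + w (s-h) - 2 w s ≥ 0` for
small `h > 0`. The second difference of `L` is `0`, that of `(s - a) * (b - s)` is `-2 h²`; so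
`0 ≤ (M + ε) h² - M' h² < 0` for `ε = (M' - M) / 2`. Contradiction. So `w ≥ 0` for all `M' > M`
(`le_of_forall_pos_le_add` or `ge_of_tendsto`).

PROOF of `crossing`. `b = sInf {t ∈ [0,m] | A + 1 ≤ g t}` (closed nonempty set: `IsClosed.csInf_mem`, or
`IsCompact.exists_isLeast`), so `g < A + 1` on `[0,b)`, `g b = A + 1`... (`g b ≤ A + 1` by continuity; `0 < b`).
`a` = greatest element of the compact set `{t ∈ [0,b] | g t ≤ A}` (contains `0`). On `(a,b]`: `A < g`. `g a ≤ A`,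
in fact `A ≤ g a` by continuity from the right. So `A ≤ g ≤ A + 1` on `[a,b]` and
`1 ≤ g b - g a ≤ b - a` (`hL`). -/

set_option autoImplicit false

namespace KI

open Set Filter Topology

theorem almost_concave {φ : ℝ → ℝ} {a b M : ℝ} (hab : a < b) (hφ : ContinuousOn φ (Icc a b))
    (h2 : ∀ s ∈ Ioo a b, ∀ ε > 0, ∀ᶠ h in 𝓝[>] (0 : ℝ),
      φ (s + h) + φ (s - h) - 2 * φ s ≤ (M + ε) * h ^ 2) {s : ℝ} (hs : s ∈ Icc a b) :
    ((b - s) * φ a + (s - a) * φ b) / (b - a) - M / 2 * (s - a) * (b - s) ≤ φ s := by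
  have key : ∀ M' > M, ∀ s ∈ Icc a b,
      0 ≤ φ s - ((b - s) * φ a + (s - a) * φ b) / (b - a) + M' / 2 * ((s - a) * (b - s)) := by
    intro M' hM' s₀ hs₀
    by_contra hneg
    push Not at hneg
    have hba : b - a ≠ 0 := by linarith
    have hwc : ContinuousOn (fun s => φ s - ((b - s) * φ a + (s - a) * φ b) / (b - a)
        + M' / 2 * ((s - a) * (b - s))) (Icc a b) := by
      apply ContinuousOn.add
      · apply ContinuousOn.sub hφ
        apply Continuous.continuousOn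
        fun_prop
      · apply Continuous.continuousOn
        fun_prop
    obtain ⟨s₁, hs₁, hmin⟩ := isCompact_Icc.exists_isMinOn (nonempty_Icc.mpr hab.le) hwc
    have hmin' : ∀ t ∈ Icc a b, φ s₁ - ((b - s₁) * φ a + (s₁ - a) * φ b) / (b - a)
        + M' / 2 * ((s₁ - a) * (b - s₁)) ≤ φ t - ((b - t) * φ a + (t - a) * φ b) / (b - a)
        + M' / 2 * ((t - a) * (b - t)) := fun t ht => hmin ht
    have hlt : φ s₁ - ((b - s₁) * φ a + (s₁ - a) * φ b) / (b - a)
        + M' / 2 * ((s₁ - a) * (b - s₁)) < 0 := lt_of_le_of_lt (hmin' s₀ hs₀) hneg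
    have hne_a : s₁ ≠ a := by
      rintro rfl
      have e : φ s₁ - ((b - s₁) * φ s₁ + (s₁ - s₁) * φ b) / (b - s₁)
        + M' / 2 * ((s₁ - s₁) * (b - s₁)) = 0 := by
        field_simp
        ring
      linarith
    have hne_b : s₁ ≠ b := by
      rintro rfl
      have e : φ s₁ - ((s₁ - s₁) * φ a + (s₁ - a) * φ s₁) / (s₁ - a)
        + M' / 2 * ((s₁ - a) * (s₁ - s₁)) = 0 := by
        field_simp
        ring
      linarith
    have h1 : a < s₁ := lt_of_le_of_ne hs₁.1 (Ne.symm hne_a)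
    have h3 : s₁ < b := lt_of_le_of_ne hs₁.2 hne_b
    have ev1 := h2 s₁ ⟨h1, h3⟩ ((M' - M) / 2) (by linarith)
    have hmn : 0 < min (s₁ - a) (b - s₁) := lt_min (by linarith) (by linarith)
    have ev2 : ∀ᶠ h in 𝓝[>] (0 : ℝ), h < min (s₁ - a) (b - s₁) :=
      nhdsWithin_le_nhds (Iio_mem_nhds hmn)
    have ev3 : ∀ᶠ h in 𝓝[>] (0 : ℝ), 0 < h := self_mem_nhdsWithin
    obtain ⟨h, hh1, hh2, hh3⟩ := (ev1.and (ev2.and ev3)).exists
    have hh4 : h < s₁ - a := lt_of_lt_of_le hh2 (min_le_left _ _)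
    have hh5 : h < b - s₁ := lt_of_lt_of_le hh2 (min_le_right _ _)
    have m1 := hmin' (s₁ + h) ⟨by linarith, by linarith⟩
    have m2 := hmin' (s₁ - h) ⟨by linarith, by linarith⟩
    have e1 : ((b - (s₁ + h)) * φ a + (s₁ + h - a) * φ b) / (b - a)
        + ((b - (s₁ - h)) * φ a + (s₁ - h - a) * φ b) / (b - a)
        = 2 * (((b - s₁) * φ a + (s₁ - a) * φ b) / (b - a)) := by
      field_simp
      ring
    have e2 : M' / 2 * ((s₁ + h - a) * (b - (s₁ + h))) + M' / 2 * ((s₁ - h - a) * (b - (s₁ - h)))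
        = 2 * (M' / 2 * ((s₁ - a) * (b - s₁))) - M' * h ^ 2 := by ring
    have h6 : 0 < h ^ 2 := by positivity
    nlinarith
  have hK : 0 ≤ (s - a) * (b - s) := mul_nonneg (by linarith [hs.1]) (by linarith [hs.2])
  apply le_of_forall_pos_le_add
  intro ε hε
  have h3 := key (M + 2 * ε / ((s - a) * (b - s) + 1)) (by
    have : 0 < 2 * ε / ((s - a) * (b - s) + 1) := by positivity
    linarith) s hs
  have h4 : 2 * ε / ((s - a) * (b - s) + 1) / 2 * ((s - a) * (b - s)) ≤ ε := by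
    rw [div_div, div_mul_eq_mul_div, div_le_iff₀ (by positivity)]
    nlinarith
  have h5 : (M + 2 * ε / ((s - a) * (b - s) + 1)) / 2 * ((s - a) * (b - s))
      = M / 2 * (s - a) * (b - s) + 2 * ε / ((s - a) * (b - s) + 1) / 2 * ((s - a) * (b - s)) := by
    ring
  rw [h5] at h3
  linarith

theorem crossing {g : ℝ → ℝ} {m A : ℝ} (hm : 0 ≤ m)
    (hL : ∀ s ∈ Icc (0 : ℝ) m, ∀ t ∈ Icc (0 : ℝ) m, |g s - g t| ≤ |s - t|)
    (h0 : g 0 ≤ A) (h1 : A + 1 ≤ g m) :
    ∃ a b, 0 ≤ a ∧ a + 1 ≤ b ∧ b ≤ m ∧ ∀ t ∈ Icc a b, A ≤ g t ∧ g t ≤ A + 1 := by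
  have hg : ContinuousOn g (Icc 0 m) := by
    have : LipschitzOnWith 1 g (Icc 0 m) := by
      apply LipschitzOnWith.of_dist_le_mul
      intro x hx y hy
      rw [Real.dist_eq, Real.dist_eq]
      simpa using hL x hx y hy
    exact this.continuousOn
  have hSc : IsCompact (Icc (0 : ℝ) m ∩ g ⁻¹' Ici (A + 1)) :=
    isCompact_Icc.of_isClosed_subset (hg.preimage_isClosed_of_isClosed isClosed_Icc isClosed_Ici)
      inter_subset_left
  obtain ⟨b, hb, hbmin⟩ := hSc.exists_isLeast ⟨m, ⟨hm, le_rfl⟩, h1⟩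
  have hb0 : 0 ≤ b := hb.1.1
  have hbm : b ≤ m := hb.1.2
  have hgb : A + 1 ≤ g b := hb.2
  have hlt : ∀ t, 0 ≤ t → t < b → g t < A + 1 := by
    intro t ht0 htb
    by_contra hcon
    push Not at hcon
    exact absurd (hbmin ⟨⟨ht0, by linarith⟩, hcon⟩) (not_le.mpr htb)
  have hg' : ContinuousOn g (Icc 0 b) := hg.mono (Icc_subset_Icc le_rfl hbm)
  have hTc : IsCompact (Icc (0 : ℝ) b ∩ g ⁻¹' Iic A) :=
    isCompact_Icc.of_isClosed_subset (hg'.preimage_isClosed_of_isClosed isClosed_Icc isClosed_Iic)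
      inter_subset_left
  obtain ⟨a, ha, hamax⟩ := hTc.exists_isGreatest ⟨0, ⟨le_rfl, hb0⟩, h0⟩
  have ha0 : 0 ≤ a := ha.1.1
  have hab : a ≤ b := ha.1.2
  have hga : g a ≤ A := ha.2
  have hne : a ≠ b := by
    rintro rfl
    linarith
  have hab' : a < b := lt_of_le_of_ne hab hne
  have hgt : ∀ t, a < t → t ≤ b → A < g t := by
    intro t hat htb
    by_contra hcon
    push Not at hcon
    exact absurd (hamax ⟨⟨by linarith, htb⟩, hcon⟩) (not_le.mpr hat)
  have hbI : b ∈ Icc (0 : ℝ) m := ⟨hb0, hbm⟩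
  have haI : a ∈ Icc (0 : ℝ) m := ⟨ha0, by linarith⟩
  have hgb' : g b ≤ A + 1 := by
    apply le_of_forall_pos_le_add
    intro ε hε
    have ht1 : a ≤ max a (b - ε) := le_max_left _ _
    have ht2 : max a (b - ε) < b := max_lt hab' (by linarith)
    have ht3 : b - ε ≤ max a (b - ε) := le_max_right _ _
    have h3 := hL b hbI (max a (b - ε)) ⟨by linarith, by linarith⟩
    have h4 := hlt (max a (b - ε)) (by linarith) ht2
    have h5 : |b - max a (b - ε)| ≤ ε := by
      rw [abs_of_pos (by linarith)]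
      linarith
    have h6 := le_abs_self (g b - g (max a (b - ε)))
    linarith
  have hga' : A ≤ g a := by
    apply le_of_forall_pos_le_add
    intro ε hε
    have ht1 : min b (a + ε) ≤ b := min_le_left _ _
    have ht2 : a < min b (a + ε) := lt_min hab' (by linarith)
    have ht3 : min b (a + ε) ≤ a + ε := min_le_right _ _
    have h3 := hL (min b (a + ε)) ⟨by linarith, by linarith⟩ a haI
    have h4 := hgt (min b (a + ε)) ht2 ht1
    have h5 : |min b (a + ε) - a| ≤ ε := by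
      rw [abs_of_pos (by linarith)]
      linarith
    have h6 := le_abs_self (g (min b (a + ε)) - g a)
    linarith
  refine ⟨a, b, ha0, ?_, hbm, ?_⟩
  · have h3 := hL b hbI a haI
    rw [abs_of_pos (by linarith : 0 < b - a)] at h3
    have h4 := le_abs_self (g b - g a)
    linarith
  · intro t ht
    rcases eq_or_lt_of_le ht.1 with h | h
    · rw [← h]
      exact ⟨hga', by linarith⟩
    · rcases eq_or_lt_of_le ht.2 with h' | h'
      · rw [h']
        exact ⟨by linarith, hgb'⟩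
      · exact ⟨(hgt t h ht.2).le, (hlt t (by linarith) h').le⟩

end KI
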