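import Pool.Agent.H49.KI.Defs
import Pool.Agent.H49.KB.SB1
import Pool.Agent.H49.KB.SQ

/-!
# Internal definitions for the intrinsic version of `MP_110de3`

From now on `X` is a metric space (with the length distance of `G`), and a complex manifold.

* `Ctx G`: `G` is a Kähler metric on `X` and `dist` is its length distance.
* `trans e e' = e' ∘ e.symm`: change of charts.
* `Gam G e y a b`: the Chern (= Levi-Civita) Christoffel vector.
* `secN`, `bkN`: numerators of the sectional curvature `R(a,b,b,a)` and of the bisectional curvature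
  `R(a, ā, b, b̄) = - ∂_a ∂̄_a G(b,b) + G(Γ(a,b), Γ(a,b))`.
* `Hol S f`: `f : ℂ → X` is continuous on `S` and holomorphic in the interior of `S`.
* `avg4 u z ρ`: the mean of `u` over the four points `z + i^k ρ`.
* `IsMGeod σ ℓ`: `σ` is a metric geodesic on `[0, ℓ]`.
* `msq G e v y = (G e y v v).re`.
* `vsq G f z`: the squared `G`-norm of the derivative of the disc `f` at `z`.
* `Thick f r Φ`: `Φ` is a holomorphic thickening of the disc `f`.
* `DiscMet B`: a continuous family of Hermitian metrics on `ℂ^n` over the closed disc, `C²` inside,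
  with Griffiths semipositive curvature.
-/

set_option autoImplicit false

namespace KI

open Complex Metric Set Filter Topology Manifold ContDiff
open KB (V DR wirt levi rho Sesq lap lapC dz)

section defs

variable {n : ℕ} {X : Type} [MetricSpace X] [ChartedSpace (V n) X]

/-- `G` is a Kähler metric on `X` and `dist` is its length distance. -/
structure Ctx (G : OpenPartialHomeomorph X (V n) → V n → V n → V n → ℂ) : Prop where
  herm : IsHermMetric G
  kaehler : Kaehler G
  dist_le : ∀ (p q : X) (L : ℝ), Reach G p q L → dist p q ≤ L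
  reach : ∀ (p q : X) (ε : ℝ), 0 < ε → ∃ L < dist p q + ε, Reach G p q L

/-- change of charts -/
noncomputable def trans (e e' : OpenPartialHomeomorph X (V n)) (y : V n) : V n := e' (e.symm y)

open Classical in
/-- the Christoffel vector `Γ(a, b)`: `G(Γ(a,b), w) = ∂_a G(b, w)` for all `w`. -/
noncomputable def Gam (G : OpenPartialHomeomorph X (V n) → V n → V n → V n → ℂ)
    (e : OpenPartialHomeomorph X (V n)) (y a b : V n) : V n :=
  if h : ∃ c, ∀ w, G e y c w = wirt (fun z => G e z b w) y a then h.choose else 0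

/-- the numerator of the sectional curvature -/
noncomputable def secN (G : OpenPartialHomeomorph X (V n) → V n → V n → V n → ℂ)
    (e : OpenPartialHomeomorph X (V n)) (y a b : V n) : ℝ :=
  DR (fun z => DR (fun z' => hR G e z' a b) z b) y a
    - 1 / 2 * DR (fun z => DR (fun z' => hR G e z' b b) z a) y a
    - 1 / 2 * DR (fun z => DR (fun z' => hR G e z' a a) z b) y b
    + hR G e y (Gam G e y a b) (Gam G e y a b) - hR G e y (Gam G e y a a) (Gam G e y b b)

/-- the numerator of the bisectional curvature, `R(a, ā, b, b̄)` -/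
noncomputable def bkN (G : OpenPartialHomeomorph X (V n) → V n → V n → V n → ℂ)
    (e : OpenPartialHomeomorph X (V n)) (y a b : V n) : ℝ :=
  (-levi (fun z => G e z b b) y a + G e y (Gam G e y a b) (Gam G e y a b)).re

variable (n) in
/-- `f` is continuous on `S` and holomorphic in the interior of `S`. -/
structure Hol (S : Set ℂ) (f : ℂ → X) : Prop where
  cont : ContinuousOn f S
  diff : ∀ z ∈ interior S, ∀ e ∈ atlas (V n) X, f z ∈ e.source →
    DifferentiableAt ℂ (fun w => e (f w)) z

/-- mean over four points -/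
noncomputable def avg4 (u : ℂ → ℝ) (z : ℂ) (ρ : ℝ) : ℝ :=
  (u (z + ρ) + u (z + ρ * Complex.I) + u (z - ρ) + u (z - ρ * Complex.I)) / 4

/-- `σ` is a metric geodesic on `[0, ℓ]` -/
def IsMGeod (σ : ℝ → X) (ℓ : ℝ) : Prop :=
  ∀ s ∈ Icc (0 : ℝ) ℓ, ∀ t ∈ Icc (0 : ℝ) ℓ, dist (σ s) (σ t) = |s - t|

/-- squared `G`-norm of the derivative of `f` at `z` (in the chart at `f z`) -/
noncomputable def vsq (G : OpenPartialHomeomorph X (V n) → V n → V n → V n → ℂ) (f : ℂ → X)
    (z : ℂ) : ℝ :=
  (G (chartAt (V n) (f z)) (chartAt (V n) (f z) (f z))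
    (deriv (fun w => chartAt (V n) (f z) (f w)) z)
    (deriv (fun w => chartAt (V n) (f z) (f w)) z)).re

/-- `Φ` is a holomorphic thickening of the disc `f` over the closed unit disc. -/
structure Thick (f : ℂ → X) (r : ℝ) (Φ : ℂ → V n → X) : Prop where
  pos : 0 < r
  zero : ∀ z ∈ closedBall (0 : ℂ) 1, Φ z 0 = f z
  cont : ContinuousOn (fun q : ℂ × V n => Φ q.1 q.2) (closedBall 0 1 ×ˢ ball 0 r)
  holo : ∀ z ∈ ball (0 : ℂ) 1, ∀ y ∈ ball (0 : V n) r, ∀ e ∈ atlas (V n) X, Φ z y ∈ e.source →
    DifferentiableAt ℂ (fun q : ℂ × V n => e (Φ q.1 q.2)) (z, y)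
  holy : ∀ z ∈ closedBall (0 : ℂ) 1, ∀ y ∈ ball (0 : V n) r, ∀ e ∈ atlas (V n) X,
    Φ z y ∈ e.source → DifferentiableAt ℂ (fun y' => e (Φ z y')) y
  inv : ∀ z ∈ closedBall (0 : ℂ) 1, ∀ e ∈ atlas (V n) X, f z ∈ e.source →
    Function.Bijective (fderiv ℂ (fun y' => e (Φ z y')) 0)

/-- the frame of the thickening `Φ` at `z`, in the chart `e` -/
noncomputable def frm (Φ : ℂ → V n → X) (e : OpenPartialHomeomorph X (V n)) (z : ℂ) :
    V n →L[ℂ] V n := fderiv ℂ (fun y' => e (Φ z y')) 0

/-- the metric in the frame of the thickening `Φ` of `f` -/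
noncomputable def Bf (G : OpenPartialHomeomorph X (V n) → V n → V n → V n → ℂ) (f : ℂ → X)
    (Φ : ℂ → V n → X) (z : ℂ) (a b : V n) : ℂ :=
  G (chartAt (V n) (f z)) (chartAt (V n) (f z) (f z)) (frm Φ (chartAt (V n) (f z)) z a)
    (frm Φ (chartAt (V n) (f z)) z b)

end defs

variable {n : ℕ}

/-- A family of Hermitian metrics on `ℂ^n` over the closed disc, `C²` inside the disc, such that for
all `z₀`, `u` there is a holomorphic section with value `u` at `z₀` whose squared norm has
nonpositive Laplacian at `z₀`. -/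
structure DiscMet (B : ℂ → V n → V n → ℂ) : Prop where
  sesq : ∀ z ∈ closedBall (0 : ℂ) 1, Sesq (B z)
  pos : ∀ z ∈ closedBall (0 : ℂ) 1, ∀ a, a ≠ 0 → 0 < (B z a a).re
  cont : ∀ a b, ContinuousOn (fun z => B z a b) (closedBall 0 1)
  c2 : ∀ a b, ContDiffOn ℝ 2 (fun z => B z a b) (ball 0 1)
  curv : ∀ z₀ ∈ ball (0 : ℂ) 1, ∀ u, ∃ d,
    lap (fun z => (B z (u - (z - z₀) • d) (u - (z - z₀) • d)).re) z₀ ≤ 0

end KI
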