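import Pool.Agent.H49.KB.Defs

/-!
# Kähler manifolds, completeness, sectional curvature, Kobayashi pseudodistance

`X` is a complex manifold of dimension `n`: a topological space with an atlas of charts with values
in `V n = ℂ^n` and holomorphic transition maps (`ChartedSpace (V n) X`,
`IsManifold 𝓘(ℂ, V n) ω X`).  A metric is given by its local expressions `G e y a b` in the charts
`e` of the atlas (`y ∈ e.target`, `a, b ∈ ℂ^n`).
-/

set_option autoImplicit false

namespace KI

open Complex Metric Set Filter Topology Manifold ContDiff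
open KB (V DR wirt rho)

variable {n : ℕ} {X : Type} [TopologicalSpace X] [ChartedSpace (V n) X]

/-- `G` is a smooth Hermitian metric on `X`: in every chart `e` of the atlas, `G e y` is a positive
definite Hermitian form on `ℂ^n` for `y ∈ e.target`, smooth in `y`, and the local expressions are
compatible with the changes of charts. -/
structure IsHermMetric (G : OpenPartialHomeomorph X (V n) → V n → V n → V n → ℂ) : Prop where
  add : ∀ e ∈ atlas (V n) X, ∀ y ∈ e.target, ∀ a b c,
    G e y (a + b) c = G e y a c + G e y b c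
  smul : ∀ e ∈ atlas (V n) X, ∀ y ∈ e.target, ∀ (t : ℂ) (a b : V n),
    G e y (t • a) b = t * G e y a b
  symm : ∀ e ∈ atlas (V n) X, ∀ y ∈ e.target, ∀ a b,
    G e y b a = (starRingEnd ℂ) (G e y a b)
  pos : ∀ e ∈ atlas (V n) X, ∀ y ∈ e.target, ∀ a, a ≠ 0 → 0 < (G e y a a).re
  smooth : ∀ e ∈ atlas (V n) X, ∀ a b, ContDiffOn ℝ ∞ (fun y => G e y a b) e.target
  compat : ∀ e ∈ atlas (V n) X, ∀ e' ∈ atlas (V n) X, ∀ x ∈ e.source ∩ e'.source, ∀ a b,
    G e (e x) a b = G e' (e' x) (fderiv ℂ (fun y => e' (e.symm y)) (e x) a)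
      (fderiv ℂ (fun y => e' (e.symm y)) (e x) b)

/-- `G` is Kähler: its fundamental form is closed. -/
def Kaehler (G : OpenPartialHomeomorph X (V n) → V n → V n → V n → ℂ) : Prop :=
  ∀ e ∈ atlas (V n) X, ∀ y ∈ e.target, ∀ a b c,
    wirt (fun z => G e z b c) y a = wirt (fun z => G e z a c) y b

/-! ### Completeness -/

/-- `c` is a `C¹` path on `[0,1]` in the target of the chart `e`. -/
def IsPiece (e : OpenPartialHomeomorph X (V n)) (c : ℝ → V n) : Prop :=
  ContDiffOn ℝ 1 c (Icc 0 1) ∧ ∀ t ∈ Icc (0 : ℝ) 1, c t ∈ e.target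

/-- The length of the path `e.symm ∘ c`. -/
noncomputable def len (G : OpenPartialHomeomorph X (V n) → V n → V n → V n → ℂ)
    (e : OpenPartialHomeomorph X (V n)) (c : ℝ → V n) : ℝ :=
  ∫ t in (0 : ℝ)..1, Real.sqrt (G e (c t) (deriv c t) (deriv c t)).re

/-- There is a piecewise `C¹` path in `X` from `p` to `q` of length `L` (the path is cut into pieces
which are contained in charts of the atlas). -/
def Reach (G : OpenPartialHomeomorph X (V n) → V n → V n → V n → ℂ) (p q : X) (L : ℝ) : Prop :=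
  ∃ (k : ℕ) (x : ℕ → X) (e : ℕ → OpenPartialHomeomorph X (V n)) (c : ℕ → ℝ → V n),
    x 0 = p ∧ x k = q ∧
    (∀ i < k, e i ∈ atlas (V n) X ∧ IsPiece (e i) (c i) ∧ (e i).symm (c i 0) = x i ∧
      (e i).symm (c i 1) = x (i + 1)) ∧
    ∑ i ∈ Finset.range k, len G (e i) (c i) = L

/-- `(X, G)` is complete: every sequence which is Cauchy for the distance
`d(p, q) = inf {L | Reach G p q L}` converges. -/
def Complete (G : OpenPartialHomeomorph X (V n) → V n → V n → V n → ℂ) : Prop :=
  ∀ x : ℕ → X, (∀ ε > 0, ∃ m, ∀ k ≥ m, ∀ l ≥ m, ∃ L < ε, Reach G (x k) (x l) L) →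
    ∃ y, Tendsto x atTop (𝓝 y)

/-! ### Sectional curvature -/

/-- The Riemannian metric `h = Re G` in the chart `e`. -/
noncomputable def hR (G : OpenPartialHomeomorph X (V n) → V n → V n → V n → ℂ)
    (e : OpenPartialHomeomorph X (V n)) (y a b : V n) : ℝ := (G e y a b).re

/-- `c = Γ(a, b)`, the Levi-Civita derivative `∇_a b` of constant vector fields in the chart `e`:
`h(c, w) = ½ (D_a h(b, w) + D_b h(a, w) - D_w h(a, b))` for all `w`. -/
def IsChristoffel (G : OpenPartialHomeomorph X (V n) → V n → V n → V n → ℂ)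
    (e : OpenPartialHomeomorph X (V n)) (y a b c : V n) : Prop :=
  ∀ w, hR G e y c w = 1 / 2 * (DR (fun z => hR G e z b w) y a +
    DR (fun z => hR G e z a w) y b - DR (fun z => hR G e z a b) y w)

/-- `κ = R(a, b, b, a)`, the numerator of the Riemannian sectional curvature of the real plane
spanned by `a` and `b`:
`R(a, b, b, a) = D_a D_b h(a, b) - ½ D_a D_a h(b, b) - ½ D_b D_b h(a, a)
  + h(Γ(a, b), Γ(a, b)) - h(Γ(a, a), Γ(b, b))`. -/
def IsSec (G : OpenPartialHomeomorph X (V n) → V n → V n → V n → ℂ)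
    (e : OpenPartialHomeomorph X (V n)) (y a b : V n) (κ : ℝ) : Prop :=
  ∃ cab caa cbb : V n, IsChristoffel G e y a b cab ∧ IsChristoffel G e y a a caa ∧
    IsChristoffel G e y b b cbb ∧
    κ = DR (fun z => DR (fun z' => hR G e z' a b) z b) y a
      - 1 / 2 * DR (fun z => DR (fun z' => hR G e z' b b) z a) y a
      - 1 / 2 * DR (fun z => DR (fun z' => hR G e z' a a) z b) y b
      + hR G e y cab cab - hR G e y caa cbb

/-- The sectional curvature is nonnegative at all points of `X`. -/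
def SecNonneg (G : OpenPartialHomeomorph X (V n) → V n → V n → V n → ℂ) : Prop :=
  ∀ e ∈ atlas (V n) X, ∀ y ∈ e.target, ∀ (a b : V n) (κ : ℝ), IsSec G e y a b κ → 0 ≤ κ

/-- The sectional curvature (of all real planes) is positive at all points of `S`. -/
def SecPosOn (G : OpenPartialHomeomorph X (V n) → V n → V n → V n → ℂ) (S : Set X) : Prop :=
  ∀ e ∈ atlas (V n) X, ∀ y ∈ e.target, e.symm y ∈ S → ∀ (a b : V n) (κ : ℝ),
    LinearIndependent ℝ ![a, b] → IsSec G e y a b κ → 0 < κ

/-! ### The Kobayashi pseudodistance -/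

variable (n X) in
/-- The lengths of the chains of holomorphic discs in `X` from `p` to `q`. -/
def chainLengths (p q : X) : Set ℝ :=
  {L | ∃ (k : ℕ) (f : ℕ → ℂ → X) (a b : ℕ → ℂ),
    (∀ i ≤ k, MDifferentiableOn 𝓘(ℂ) 𝓘(ℂ, V n) (f i) (ball 0 1) ∧
      a i ∈ ball (0 : ℂ) 1 ∧ b i ∈ ball (0 : ℂ) 1) ∧
    f 0 (a 0) = p ∧ (∀ i < k, f i (b i) = f (i + 1) (a (i + 1))) ∧ f k (b k) = q ∧
    L = ∑ i ∈ Finset.range (k + 1), rho (a i) (b i)}

variable (n X) in
/-- The Kobayashi pseudodistance of `X` (as an extended nonnegative number). -/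
noncomputable def kobayashi (p q : X) : ENNReal :=
  ⨅ L ∈ chainLengths n X p q, ENNReal.ofReal L

end KI
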