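import Pool.Agent.H50.KI.Kb5

/-! # Block J (helper50): the Kobayashi pseudodistance

`KI.Hol.mdifferentiableOn` (Pool/Agent/H50/KI/Mdf.lean), `KI.kobayashi_zero` (Kb5.lean). -/
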