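import Pool.Agent.H49.KI.TopD
import Pool.Agent.H49.KI.TopJ

/-! # Assembly of the intrinsic theorem -/

set_option autoImplicit false

namespace KI

open Complex Metric Set Filter Topology Manifold ContDiff
open KB (V DR wirt levi rho Sesq lap lapC dz)

section metricspace

variable {n : ℕ} {X : Type} [MetricSpace X] [ChartedSpace (V n) X]
  {G : OpenPartialHomeomorph X (V n) → V n → V n → V n → ℂ}

theorem vsq_nonneg [IsManifold 𝓘(ℂ, V n) ω X] (ctx : Ctx G) (f : ℂ → X) (z : ℂ) :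
    0 ≤ vsq G f z := by
  have he := chart_mem_atlas (V n) (f z)
  have hy : chartAt (V n) (f z) (f z) ∈ (chartAt (V n) (f z)).target :=
    (chartAt (V n) (f z)).map_source (mem_chart_source (V n) (f z))
  by_cases h : deriv (fun w => chartAt (V n) (f z) (f w)) z = 0
  · have h0 := ctx.herm.smul _ he _ hy 0 0 0
    unfold vsq
    rw [h]
    simp only [smul_zero, zero_mul] at h0
    rw [h0]
    simp
  · exact (ctx.herm.pos _ he _ hy _ h).le

/-- discs are trapped -/
theorem trap_disc [IsManifold 𝓘(ℂ, V n) ω X] [ProperSpace X] [NoncompactSpace X]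
    (ctx : Ctx G) (hS : SecNonneg G) (hP : ∃ K : Set X, IsCompact K ∧ SecPosOn G Kᶜ)
    (p : X) (R : ℝ) : ∃ R₁ ≥ R, (∃ (ψ : X → ℝ) (k : ℝ), 0 < k ∧ Continuous ψ ∧
        StrictPSH G ψ (closedBall p (R₁ + 1)) k) ∧
      ∀ f : ℂ → X, Hol n (closedBall (0 : ℂ) 1) f →
      (∀ z ∈ sphere (0 : ℂ) 1, dist p (f z) ≤ R) →
      (∀ z ∈ closedBall (0 : ℂ) 1, dist p (f z) ≤ R₁ + 1) →
      ∀ z ∈ closedBall (0 : ℂ) 1, dist p (f z) ≤ R₁ := by
  obtain ⟨R₁, hR₁, T₀, hT₀⟩ := trap_points ctx hS p R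
  obtain ⟨k, hk, T₁, hT₁⟩ := strict_psh ctx hS hP p (R₁ + 1)
  -- there are points at every distance: use the trapping statement itself or noncompactness
  have hfar : ∃ q, max T₀ T₁ ≤ dist p q := by
    by_contra hcon
    push Not at hcon
    have : IsCompact (univ : Set X) := by
      refine (isCompact_closedBall p (max T₀ T₁)).of_isClosed_subset isClosed_univ ?_
      intro x _
      rw [mem_closedBall, dist_comm]
      exact (hcon x).le
    exact noncompact_univ X this
  obtain ⟨q₀, hq₀⟩ := hfar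
  refine ⟨R₁, hR₁, ⟨fun x => -dist x q₀, k, hk, by fun_prop,
    hT₁ q₀ ((le_max_right _ _).trans hq₀)⟩, ?_⟩
  intro f hf hfs hfb z hz
  by_contra hcon
  push Not at hcon
  obtain ⟨q, hq1, hq2⟩ := hT₀ (max T₀ T₁) (le_max_left _ _) (f z) hcon.le (hfb z hz)
  have hψ := hT₁ q (by rw [hq1]; exact le_max_right _ _)
  have hmax := max_principle (u := fun w => -dist (f w) q) (A := -(max T₀ T₁ - R))
    (((continuous_id.dist continuous_const).comp_continuousOn hf.cont).neg) ?_ ?_ z hz
  · linarith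
  · intro w hw ε hε
    have hw' : w ∈ closedBall (0 : ℂ) 1 := ball_subset_closedBall hw
    obtain ⟨r, hr, hrw⟩ := Metric.isOpen_ball.mem_nhds hw |> Metric.mem_nhds_iff.1
    have hfr : Hol n (ball w r) f := by
      refine ⟨hf.cont.mono (hrw.trans ball_subset_closedBall), fun z' hz' e he hz'e => ?_⟩
      refine hf.diff z' ?_ e he hz'e
      rw [interior_closedBall (0 : ℂ) one_ne_zero]
      exact hrw (interior_subset hz')
    have h1 := hψ f w r hr hfr (by rw [mem_closedBall, dist_comm]; exact hfb w hw') ε hε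
    filter_upwards [h1, self_mem_nhdsWithin] with ρ h2 hρ
    refine le_trans ?_ h2
    have h3 := vsq_nonneg ctx f w
    have h4 : 0 ≤ ρ ^ 2 := sq_nonneg ρ
    nlinarith [mul_nonneg hk.le h3]
  · intro w hw
    have h1 := hfs w hw
    have h2 := dist_triangle p (f w) q
    rw [hq1] at h2
    linarith

theorem exists_big_disc [IsManifold 𝓘(ℂ, V n) ω X] [ProperSpace X] [NoncompactSpace X]
    (ctx : Ctx G) (hS : SecNonneg G) (hP : ∃ K : Set X, IsCompact K ∧ SecPosOn G Kᶜ)
    (p : X) (e : OpenPartialHomeomorph X (V n)) (he : e ∈ atlas (V n) X) (hp : p ∈ e.source)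
    (v : V n) (lam : ℝ) (hlam : 0 < lam) : ∃ f : ℂ → X, Hol n (closedBall (0 : ℂ) 1) f ∧
      f 0 = p ∧ deriv (fun z => e (f z)) 0 = (lam : ℂ) • v := by
  obtain ⟨R₁, hR₁, ⟨ψ, k, hk, hψc, hψ⟩, htrap⟩ :=
    trap_disc ctx hS hP p (lam * Real.sqrt (G e (e p) v v).re + 1)
  exact big_disc ctx hS he hp hlam (lt_add_one _) hR₁ htrap hk hψc hψ

end metricspace

theorem main {n : ℕ} (X : Type) [tX : TopologicalSpace X] [T2Space X] [ConnectedSpace X]
    [NoncompactSpace X] [ChartedSpace (V n) X] [IsManifold 𝓘(ℂ, V n) ω X]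
    (G : OpenPartialHomeomorph X (V n) → V n → V n → V n → ℂ) (hG : IsHermMetric G)
    (hK : Kaehler G) (hc : Complete G) (hS : SecNonneg G)
    (hP : ∃ K : Set X, IsCompact K ∧ SecPosOn G Kᶜ) :
    ∀ p q : X, kobayashi n X p q = 0 := by
  obtain ⟨ms, hms, hd1, hd2⟩ := exists_metric (n := n) (X := X) hG
  subst hms
  have ctx : Ctx G := ⟨hG, hK, hd1, hd2⟩
  have hprop : ProperSpace X := proper_of_complete ctx hc
  exact kobayashi_zero fun p e he hp v lam hlam => exists_big_disc ctx hS hP p e he hp v lam hlam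

end KI
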