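import Pool.Agent.H50.KI.Cha
import Pool.Agent.H50.KI.Chb
import Pool.Agent.H50.KI.Chc
import Pool.Agent.H50.KI.Chd
import Pool.Agent.H50.KI.Che
import Pool.Agent.H50.KI.Chf
import Pool.Agent.H50.KI.Chg

/-! # Block CH: charts, the Christoffel vector (files Pool/Agent/H50/KI/Cha.lean .. Chg.lean) -/
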