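import Pool.Agent.H49.KI.RPR
import Pool.Agent.H49.KI.TopCH

/-! # GE1: a metric geodesic is Lipschitz in a chart, with speed at most 1

PROOF. At each `t₀ ∈ [a,b]`, `loc_lower` at `x₀ = σ t₀`: for `t, t'` near `t₀` in `[a,b]` (`σ` and `y = e ∘ σ` are
continuous on `[a,b]`: `σ` is 1-Lipschitz there, `e` is continuous on its source),
`N₀ (y t - y t') ≤ (1+ε) |t - t'|`, `N₀ a = Real.sqrt (G e (e x₀) a a).re ≥ κ ‖a‖` (`rup_norm`). So `y` is locally
Lipschitz on the compact interval, hence Lipschitz: by the Lebesgue number lemma there are `δ, K` with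
`‖y t - y t'‖ ≤ K |t - t'|` if `|t - t'| < δ`, and if `|t - t'| ≥ δ` use the boundedness of `y`.
(speed) `LipschitzOnWith.ae_differentiableWithinAt_real` (or `…ae_differentiableAt_real`): at a point `t` of
differentiability in `(a,b)`, `N_{σ t} ((y (t+h) - y t)/h) ≤ 1 + ε` for small `h`, so `N (y' t) ≤ 1 + ε` for all
`ε`. -/

set_option autoImplicit false

namespace KI

open Complex Metric Set Filter Topology Manifold ContDiff MeasureTheory
open KB (V DR wirt levi rho Sesq lap lapC dz)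

variable {n : ℕ} {X : Type} [MetricSpace X] [ChartedSpace (V n) X]
  {G : OpenPartialHomeomorph X (V n) → V n → V n → V n → ℂ}

theorem GE1_near [IsManifold 𝓘(ℂ, V n) ω X] (ctx : Ctx G) {σ : ℝ → X} {ℓ : ℝ}
    (hσ : IsMGeod σ ℓ) {a b : ℝ} (ha : 0 ≤ a) (hb : b ≤ ℓ)
    {e : OpenPartialHomeomorph X (V n)} (he : e ∈ atlas (V n) X)
    (hmem : ∀ t ∈ Icc a b, σ t ∈ e.source) {t₀ : ℝ} (ht₀ : t₀ ∈ Icc a b) {ε : ℝ} (hε : 0 < ε) :
    ∃ U ∈ 𝓝[Icc a b] t₀, ∀ s ∈ U, ∀ t ∈ U,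
      Real.sqrt (G e (e (σ t₀)) (e (σ t) - e (σ s)) (e (σ t) - e (σ s))).re ≤
        (1 + ε) * |s - t| := by
  obtain ⟨ρ, hρ, hsub, h⟩ := loc_lower ctx he (hmem t₀ ht₀) hε
  have hsubI : Icc a b ⊆ Icc 0 ℓ := Icc_subset_Icc ha hb
  have hσc : ContinuousOn σ (Icc a b) := by
    have hl : LipschitzOnWith 1 σ (Icc a b) := by
      refine LipschitzOnWith.of_dist_le_mul fun s hs t ht => ?_
      rw [hσ s (hsubI hs) t (hsubI ht), Real.dist_eq]
      simp
    exact hl.continuousOn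
  have hy : ContinuousOn (fun t => e (σ t)) (Icc a b) :=
    e.continuousOn.comp hσc fun t ht => hmem t ht
  refine ⟨{t | t ∈ Icc a b ∧ e (σ t) ∈ ball (e (σ t₀)) ρ}, ?_, ?_⟩
  · exact inter_mem self_mem_nhdsWithin ((hy t₀ ht₀).preimage_mem_nhdsWithin (ball_mem_nhds _ hρ))
  · rintro s ⟨hs, hs'⟩ t ⟨ht, ht'⟩
    have h1 := h _ hs' _ ht'
    rw [e.left_inv (hmem s hs), e.left_inv (hmem t ht), hσ s (hsubI hs) t (hsubI ht)] at h1
    exact h1

theorem mg_lip [IsManifold 𝓘(ℂ, V n) ω X] (ctx : Ctx G) {σ : ℝ → X} {ℓ : ℝ}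
    (hσ : IsMGeod σ ℓ) {a b : ℝ} (ha : 0 ≤ a) (hab : a < b) (hb : b ≤ ℓ)
    {e : OpenPartialHomeomorph X (V n)} (he : e ∈ atlas (V n) X)
    (hmem : ∀ t ∈ Icc a b, σ t ∈ e.source) :
    ∃ K, LipschitzOnWith K (fun t => e (σ t)) (Icc a b) := by
  refine LocallyLipschitzOn.exists_lipschitzOnWith_of_compact isCompact_Icc ?_
  intro t₀ ht₀
  obtain ⟨U, hU, h⟩ := GE1_near ctx hσ ha hb he hmem ht₀ (ε := 1) one_pos
  obtain ⟨ρ, hρ, -, κ, hκ, C, -, hn⟩ := rup_norm ctx.herm he (hmem t₀ ht₀) (ε := 1) one_pos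
  have hK : 0 ≤ 2 / κ := by positivity
  refine ⟨⟨2 / κ, hK⟩, U, hU, LipschitzOnWith.of_dist_le_mul fun s hs t ht => ?_⟩
  have h1 := h t ht s hs
  have h2 := (hn _ (mem_closedBall_self hρ.le) (e (σ s) - e (σ t))).1
  have h3 : κ * ‖e (σ s) - e (σ t)‖ ≤ 2 * |t - s| := by
    refine h2.trans (h1.trans (le_of_eq ?_))
    ring
  change dist (e (σ s)) (e (σ t)) ≤ 2 / κ * dist s t
  rw [dist_eq_norm, Real.dist_eq, abs_sub_comm s t, div_mul_eq_mul_div, le_div_iff₀ hκ]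
  linarith

theorem mg_speed [IsManifold 𝓘(ℂ, V n) ω X] (ctx : Ctx G) {σ : ℝ → X} {ℓ : ℝ}
    (hσ : IsMGeod σ ℓ) {a b : ℝ} (ha : 0 ≤ a) (hab : a < b) (hb : b ≤ ℓ)
    {e : OpenPartialHomeomorph X (V n)} (he : e ∈ atlas (V n) X)
    (hmem : ∀ t ∈ Icc a b, σ t ∈ e.source) :
    ∀ᵐ t ∂volume, t ∈ Ioo a b → DifferentiableAt ℝ (fun t => e (σ t)) t ∧
      (G e (e (σ t)) (deriv (fun t => e (σ t)) t) (deriv (fun t => e (σ t)) t)).re ≤ 1 := by
  obtain ⟨K, hK⟩ := mg_lip ctx hσ ha hab hb he hmem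
  filter_upwards [hK.ae_differentiableWithinAt_of_mem_real] with t ht htI
  have htI' : t ∈ Icc a b := Ioo_subset_Icc_self htI
  have hnhds : Icc a b ∈ 𝓝 t := Icc_mem_nhds htI.1 htI.2
  have hd : DifferentiableAt ℝ (fun t => e (σ t)) t := (ht htI').differentiableAt hnhds
  refine ⟨hd, ?_⟩
  set v : V n := deriv (fun t => e (σ t)) t with hv
  have hx : σ t ∈ e.source := hmem t htI'
  have hS : Sesq (G e (e (σ t))) := herm_sesq ctx.herm he (e.map_source hx)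
  have hQc : Continuous fun w : V n => (G e (e (σ t)) w w).re := by
    have h1 : ContinuousOn (fun w : V n => G e (e (σ t)) w w) univ :=
      KB.Sesq.continuousOn (X := V n) (A := fun _ => G e (e (σ t))) (fun _ _ => hS)
        (fun _ _ => continuousOn_const) continuousOn_id continuousOn_id
    exact Complex.continuous_re.comp (continuousOn_univ.1 h1)
  have hslope := (hasDerivAt_iff_tendsto_slope.1 hd.hasDerivAt)
  have key : ∀ ε : ℝ, 0 < ε → (G e (e (σ t)) v v).re ≤ (1 + ε) ^ 2 := by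
    intro ε hε
    obtain ⟨U, hU, h⟩ := GE1_near ctx hσ ha hb he hmem htI' hε
    have hU' : U ∈ 𝓝 t := by
      rwa [nhdsWithin_eq_nhds.2 hnhds] at hU
    have htU : t ∈ U := mem_of_mem_nhds hU'
    have h2 : Tendsto (fun s => (G e (e (σ t)) (slope (fun t => e (σ t)) t s)
        (slope (fun t => e (σ t)) t s)).re) (𝓝[≠] t) (𝓝 (G e (e (σ t)) v v).re) :=
      (hQc.tendsto v).comp hslope
    refine le_of_tendsto h2 ?_
    filter_upwards [nhdsWithin_le_nhds hU', self_mem_nhdsWithin] with s hs hst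
    have hst' : s ≠ t := hst
    have h3 := h t htU s hs
    have h4 : (0 : ℝ) ≤ (1 + ε) * |t - s| := by positivity
    rw [Real.sqrt_le_left h4] at h3
    have h5 : slope (fun t => e (σ t)) t s = ((((s - t)⁻¹ : ℝ)) : ℂ) • (e (σ s) - e (σ t)) := by
      rw [slope_def_module, Complex.coe_smul]
    rw [h5, hS.smul_diag]
    have h6 : ‖((((s - t)⁻¹ : ℝ)) : ℂ)‖ ^ 2 = ((s - t) ^ 2)⁻¹ := by
      rw [Complex.norm_real, Real.norm_eq_abs, sq_abs, inv_pow]
    have h7 : 0 < (s - t) ^ 2 := by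
      have : s - t ≠ 0 := sub_ne_zero.2 hst'
      positivity
    rw [h6, inv_mul_le_iff₀ h7]
    refine h3.trans (le_of_eq ?_)
    rw [mul_pow, sq_abs]
    ring
  by_contra hcon
  push Not at hcon
  set Q : ℝ := (G e (e (σ t)) v v).re with hQ
  have h1 : 0 < min 1 ((Q - 1) / 4) := lt_min one_pos (by linarith)
  have h2 := key _ h1
  have h3 : min 1 ((Q - 1) / 4) ≤ 1 := min_le_left _ _
  have h4 : min 1 ((Q - 1) / 4) ≤ (Q - 1) / 4 := min_le_right _ _
  nlinarith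

end KI
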