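import Pool.Agent.H49.KI.RPR
import Pool.Agent.H49.KI.TopCH

/-! # GE2: length and energy of Lipschitz curves in a chart

PROOF. Let `w` be `K`-Lipschitz on `[a,b]` with values in `e.target`, `F t = (G e (w t) (w' t) (w' t)).re`
(`w' = deriv w`, exists a.e. in `(a,b)`; `F` is bounded, a.e. strongly measurable: `deriv w` is measurable,
`KB.Sesq.expand`/`mform`). Fix `ε > 0`. For a fine partition `t_i` of `[a,b]` (uniform, `N` pieces; compactness of
`w([a,b])`, `loc_upper` at the point `e.symm (w t_i)` with a uniform radius by the Lebesgue number lemma, and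
`rup_norm`: `N_{w t_i} ≤ (1+ε) N_{w t}` for `t ∈ [t_i, t_{i+1}]`):
`dist (e.symm (w t_i)) (e.symm (w t_{i+1})) ≤ (1+ε) N_{w t_i} (w t_{i+1} - w t_i)
= (1+ε) N_{w t_i} (∫ w') ≤ (1+ε) ∫ N_{w t_i} (w') ≤ (1+ε)^2 ∫_{t_i}^{t_{i+1}} Real.sqrt F`
(`w t_{i+1} - w t_i = ∫ w'` for Lipschitz functions: `AbsolutelyContinuousOnInterval.integral_deriv_eq_sub`
coordinatewise or after pairing with `G(·, b)`). Sum: `dist ≤ (1+ε)^2 ∫_a^b Real.sqrt F`, let `ε → 0`, and the
Cauchy-Schwarz inequality `(∫ Real.sqrt F)^2 ≤ (b-a) ∫ F`. -/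

set_option autoImplicit false

namespace KI

open Complex Metric Set Filter Topology Manifold ContDiff MeasureTheory
open KB (V DR wirt levi rho Sesq lap lapC dz)

variable {n : ℕ} {X : Type} [MetricSpace X] [ChartedSpace (V n) X]
  {G : OpenPartialHomeomorph X (V n) → V n → V n → V n → ℂ}

theorem GE2_cont (hG : IsHermMetric G) {e : OpenPartialHomeomorph X (V n)}
    (he : e ∈ atlas (V n) X) {y : V n} (hy : y ∈ e.target) :
    Continuous (fun v : V n => (G e y v v).re) := by
  rw [← continuousOn_univ]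
  refine Complex.continuous_re.comp_continuousOn ?_
  exact KB.Sesq.continuousOn (S := (univ : Set (V n))) (A := fun _ => G e y)
    (fun _ _ => G_sesq hG he hy) (fun a b => continuousOn_const) continuousOn_id continuousOn_id

theorem GE2_nonneg (hG : IsHermMetric G) {e : OpenPartialHomeomorph X (V n)}
    (he : e ∈ atlas (V n) X) {y : V n} (hy : y ∈ e.target) (v : V n) :
    0 ≤ (G e y v v).re := by
  by_cases hv : v = 0
  · rw [hv, (G_sesq hG he hy).zero_left]
    simp
  · exact (hG.pos e he y hy v hv).le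

theorem GE2_lip [IsManifold 𝓘(ℂ, V n) ω X] (ctx : Ctx G)
    {e : OpenPartialHomeomorph X (V n)} (he : e ∈ atlas (V n) X) {w : ℝ → V n} {a b : ℝ}
    {K : NNReal} (hw : LipschitzOnWith K w (Icc a b))
    (hwt : ∀ t ∈ Icc a b, w t ∈ e.target) :
    ∃ K' : NNReal, LipschitzOnWith K' (fun t => e.symm (w t)) (Icc a b) := by
  apply LocallyLipschitzOn.exists_lipschitzOnWith_of_compact isCompact_Icc
  intro t₀ ht₀
  have hx₀ : e.symm (w t₀) ∈ e.source := e.map_target (hwt t₀ ht₀)
  have hex : e (e.symm (w t₀)) = w t₀ := e.right_inv (hwt t₀ ht₀)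
  obtain ⟨ρ, hρ, hρ1, hρ2⟩ := loc_upper ctx he hx₀ (ε := 1) one_pos
  obtain ⟨ρ', hρ', -, κ, -, C, hC, hC'⟩ := rup_norm ctx.herm he hx₀ (ε := 1) one_pos
  rw [hex] at hρ1 hρ2 hC'
  have hCb : ∀ v : V n, Real.sqrt (G e (w t₀) v v).re ≤ C * ‖v‖ := fun v =>
    (hC' (w t₀) (mem_closedBall_self hρ'.le) v).2.1
  refine ⟨(2 * (C * K)).toNNReal, {t | t ∈ Icc a b ∧ w t ∈ ball (w t₀) ρ}, ?_, ?_⟩
  · have h1 : w ⁻¹' (ball (w t₀) ρ) ∈ 𝓝[Icc a b] t₀ :=
      (hw.continuousOn t₀ ht₀) (ball_mem_nhds _ hρ)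
    filter_upwards [self_mem_nhdsWithin, h1] with t ht1 ht2
    exact ⟨ht1, ht2⟩
  · apply LipschitzOnWith.of_dist_le_mul
    rintro s ⟨hs1, hs2⟩ t ⟨ht1, ht2⟩
    have h1 := hρ2 (w s) hs2 (w t) ht2
    have h2 := hCb (w t - w s)
    have h3 : ‖w t - w s‖ ≤ K * dist s t := by
      have := hw.dist_le_mul t ht1 s hs1
      rwa [dist_eq_norm, dist_comm] at this
    have hCK : 0 ≤ 2 * (C * (K : ℝ)) := by positivity
    rw [Real.coe_toNNReal _ hCK]
    calc dist (e.symm (w s)) (e.symm (w t)) ≤ (1 + 1) * Real.sqrt (G e (w t₀) (w t - w s) (w t - w s)).re := h1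
      _ ≤ (1 + 1) * (C * (K * dist s t)) := by
          refine mul_le_mul_of_nonneg_left (h2.trans ?_) (by norm_num)
          exact mul_le_mul_of_nonneg_left h3 hC.le
      _ = 2 * (C * K) * dist s t := by ring

theorem GE2_smul (hG : IsHermMetric G) {e : OpenPartialHomeomorph X (V n)}
    (he : e ∈ atlas (V n) X) {y : V n} (hy : y ∈ e.target) (r : ℝ) (v : V n) :
    Real.sqrt (G e y (r • v) (r • v)).re = |r| * Real.sqrt (G e y v v).re := by
  have e1 : (r • v : V n) = (r : ℂ) • v := (Complex.coe_smul r v).symm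
  rw [e1, (G_sesq hG he hy).smul_diag, Complex.norm_real, Real.norm_eq_abs, sq_abs,
    Real.sqrt_mul (sq_nonneg r), Real.sqrt_sq_eq_abs]

theorem GE2_der [IsManifold 𝓘(ℂ, V n) ω X] (ctx : Ctx G)
    {e : OpenPartialHomeomorph X (V n)} (he : e ∈ atlas (V n) X) {w : ℝ → V n} {t : ℝ}
    (hwt : w t ∈ e.target) (hwd : DifferentiableAt ℝ w t) (p : X)
    (hD : DifferentiableAt ℝ (fun s => dist p (e.symm (w s))) t) :
    deriv (fun s => dist p (e.symm (w s))) t ≤
      Real.sqrt (G e (w t) (deriv w t) (deriv w t)).re := by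
  obtain ⟨D, hDdef⟩ : ∃ D : ℝ → ℝ, D = fun s => dist p (e.symm (w s)) := ⟨_, rfl⟩
  obtain ⟨N, hN⟩ : ∃ N : ℝ, N = Real.sqrt (G e (w t) (deriv w t) (deriv w t)).re := ⟨_, rfl⟩
  rw [← hDdef] at hD ⊢
  rw [← hN]
  have hN0 : 0 ≤ N := by rw [hN]; exact Real.sqrt_nonneg _
  have hx₀ : e.symm (w t) ∈ e.source := e.map_target hwt
  have hex : e (e.symm (w t)) = w t := e.right_inv hwt
  have key : ∀ ε : ℝ, 0 < ε → deriv D t ≤ (1 + ε) * N := by
    intro ε hε
    obtain ⟨ρ, hρ, hρ1, hρ2⟩ := loc_upper ctx he hx₀ hε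
    rw [hex] at hρ1 hρ2
    have l1 : Tendsto (slope D t) (𝓝[≠] t) (𝓝 (deriv D t)) := hD.hasDerivAt.tendsto_slope
    have l2 : Tendsto (slope w t) (𝓝[≠] t) (𝓝 (deriv w t)) := hwd.hasDerivAt.tendsto_slope
    have l3 : Tendsto (fun s => (1 + ε) * Real.sqrt (G e (w t) (slope w t s) (slope w t s)).re)
        (𝓝[≠] t) (𝓝 ((1 + ε) * N)) := by
      rw [hN]
      refine Tendsto.const_mul _ ?_
      refine (Real.continuous_sqrt.tendsto _).comp ?_
      exact ((GE2_cont ctx.herm he hwt).tendsto (deriv w t)).comp l2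
    refine le_of_tendsto_of_tendsto l1 l3 ?_
    have h1 : ∀ᶠ s in 𝓝[≠] t, w s ∈ ball (w t) ρ :=
      mem_nhdsWithin_of_mem_nhds (hwd.continuousAt (ball_mem_nhds _ hρ))
    filter_upwards [h1, self_mem_nhdsWithin] with s hs hst
    have hst' : s ≠ t := hst
    have h2 := hρ2 (w t) (mem_ball_self hρ) (w s) hs
    have h3 : |D s - D t| ≤ dist (e.symm (w t)) (e.symm (w s)) := by
      rw [hDdef]
      simp only
      rw [dist_comm p (e.symm (w s)), dist_comm p (e.symm (w t)), dist_comm (e.symm (w t)) (e.symm (w s))]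
      exact abs_dist_sub_le (e.symm (w s)) (e.symm (w t)) p
    rw [slope_def_field, slope_def_module, GE2_smul ctx.herm he hwt, abs_inv]
    have h4 : 0 < |s - t| := abs_pos.2 (sub_ne_zero.2 hst')
    calc (D s - D t) / (s - t) ≤ |(D s - D t) / (s - t)| := le_abs_self _
      _ = |D s - D t| / |s - t| := abs_div _ _
      _ ≤ ((1 + ε) * Real.sqrt (G e (w t) (w s - w t) (w s - w t)).re) / |s - t| :=
          div_le_div_of_nonneg_right (h3.trans h2) h4.le
      _ = (1 + ε) * (|s - t|⁻¹ * Real.sqrt (G e (w t) (w s - w t) (w s - w t)).re) := by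
          field_simp
  apply le_of_forall_pos_le_add
  intro δ hδ
  have h1 := key (δ / (N + 1)) (by positivity)
  refine h1.trans ?_
  have h2 : δ / (N + 1) * N ≤ δ := by
    rw [div_mul_eq_mul_div, div_le_iff₀ (by linarith)]
    nlinarith
  linarith

theorem GE2_int (hG : IsHermMetric G) {e : OpenPartialHomeomorph X (V n)}
    (he : e ∈ atlas (V n) X) {w : ℝ → V n} {a b : ℝ} (hab : a < b) {K : NNReal}
    (hw : LipschitzOnWith K w (Icc a b)) (hwt : ∀ t ∈ Icc a b, w t ∈ e.target) :
    IntervalIntegrable (fun t => (G e (w t) (deriv w t) (deriv w t)).re) volume a b := by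
  rw [intervalIntegrable_iff_integrableOn_Ioo_of_le hab.le]
  have hτ : ∀ i j : Fin n, ContinuousOn (fun t => G e (w t) (KB.bv i) (KB.bv j)) (Icc a b) := by
    intro i j
    exact (hG.smooth e he _ _).continuousOn.comp hw.continuousOn hwt
  have hprod : ContinuousOn (fun q : ℝ × V n => (G e (w q.1) q.2 q.2).re)
      (Icc a b ×ˢ closedBall (0 : V n) K) := by
    refine Complex.continuous_re.comp_continuousOn ?_
    refine KB.Sesq.continuousOn (A := fun q : ℝ × V n => G e (w q.1)) ?_ ?_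
      continuousOn_snd continuousOn_snd
    · intro q hq
      exact G_sesq hG he (hwt q.1 hq.1)
    · intro c d
      have h1 : ContinuousOn (fun t => G e (w t) c d) (Icc a b) :=
        (hG.smooth e he _ _).continuousOn.comp hw.continuousOn hwt
      exact h1.comp continuousOn_fst (fun q hq => hq.1)
  obtain ⟨B, hB⟩ := (isCompact_Icc.prod (isCompact_closedBall (0 : V n) K)).exists_bound_of_continuousOn
    hprod
  have hmeas : AEStronglyMeasurable (fun t => (G e (w t) (deriv w t) (deriv w t)).re)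
      (volume.restrict (Ioo a b)) := by
    have h1 : AEStronglyMeasurable (fun t => (KB.mform (fun i j => G e (w t) (KB.bv i) (KB.bv j))
        (deriv w t) (deriv w t)).re) (volume.restrict (Ioo a b)) := by
      refine Complex.continuous_re.comp_aestronglyMeasurable ?_
      unfold KB.mform
      refine Finset.aestronglyMeasurable_fun_sum _ fun i _ =>
        Finset.aestronglyMeasurable_fun_sum _ fun j _ => ?_
      have hd : AEStronglyMeasurable (deriv w) (volume.restrict (Ioo a b)) :=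
        aestronglyMeasurable_deriv w _
      refine (AEStronglyMeasurable.mul ?_ ?_).mul ?_
      · exact ((hτ i j).mono Ioo_subset_Icc_self).aestronglyMeasurable measurableSet_Ioo
      · exact (EuclideanSpace.proj i : V n →L[ℂ] ℂ).continuous.comp_aestronglyMeasurable hd
      · exact Complex.continuous_conj.comp_aestronglyMeasurable
          ((EuclideanSpace.proj j : V n →L[ℂ] ℂ).continuous.comp_aestronglyMeasurable hd)
    refine h1.congr ?_
    filter_upwards [ae_restrict_mem measurableSet_Ioo] with t ht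
    rw [(G_sesq hG he (hwt t (Ioo_subset_Icc_self ht))).expand (deriv w t) (deriv w t)]
  refine Integrable.of_bound hmeas B ?_
  filter_upwards [ae_restrict_mem measurableSet_Ioo] with t ht
  refine hB (t, deriv w t) ⟨Ioo_subset_Icc_self ht, ?_⟩
  rw [mem_closedBall_zero_iff]
  exact norm_deriv_le_of_lipschitzOn (Icc_mem_nhds ht.1 ht.2) hw

theorem energy_lip [IsManifold 𝓘(ℂ, V n) ω X] (ctx : Ctx G)
    {e : OpenPartialHomeomorph X (V n)} (he : e ∈ atlas (V n) X) {w : ℝ → V n} {a b : ℝ}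
    (hab : a < b) {K : NNReal} (hw : LipschitzOnWith K w (Icc a b))
    (hwt : ∀ t ∈ Icc a b, w t ∈ e.target) :
    dist (e.symm (w a)) (e.symm (w b)) ^ 2 ≤
      (b - a) * ∫ t in a..b, (G e (w t) (deriv w t) (deriv w t)).re := by
  obtain ⟨F, hF⟩ : ∃ F : ℝ → ℝ, F = fun t => (G e (w t) (deriv w t) (deriv w t)).re := ⟨_, rfl⟩
  obtain ⟨D, hD⟩ : ∃ D : ℝ → ℝ, D = fun s => dist (e.symm (w a)) (e.symm (w s)) := ⟨_, rfl⟩
  have hFi : IntervalIntegrable F volume a b := by
    rw [hF]
    exact GE2_int ctx.herm he hab hw hwt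
  have hF0 : ∀ t ∈ Icc a b, 0 ≤ F t := by
    intro t ht
    rw [hF]
    exact GE2_nonneg ctx.herm he (hwt t ht) _
  have hI0 : 0 ≤ ∫ t in a..b, F t := intervalIntegral.integral_nonneg hab.le hF0
  obtain ⟨K', hK'⟩ := GE2_lip ctx he hw hwt
  have hDl : LipschitzOnWith K' D (uIcc a b) := by
    rw [uIcc_of_le hab.le]
    apply LipschitzOnWith.of_dist_le_mul
    intro s hs t ht
    have h1 := hK'.dist_le_mul s hs t ht
    refine le_trans ?_ h1
    rw [hD, Real.dist_eq]
    simp only
    rw [dist_comm (e.symm (w a)) (e.symm (w s)), dist_comm (e.symm (w a)) (e.symm (w t))]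
    exact abs_dist_sub_le _ _ _
  have hAC := hDl.absolutelyContinuousOnInterval
  have hDb : ∫ t in a..b, deriv D t = D b - D a := hAC.integral_deriv_eq_sub
  have hDa : D a = 0 := by
    rw [hD]
    exact dist_self _
  rw [hDa, sub_zero] at hDb
  have hae : ∀ᵐ t ∂volume, t ∈ Icc a b → deriv D t ≤ Real.sqrt (F t) := by
    have h1 := hAC.ae_differentiableAt
    have h2 : ∀ᵐ t ∂(volume : Measure ℝ), t ∈ Icc a b → DifferentiableWithinAt ℝ w (Icc a b) t :=
      hw.ae_differentiableWithinAt_of_mem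
    have h3 : ∀ᵐ t : ℝ ∂volume, t ≠ a := by
      rw [ae_iff]
      simp
    have h4 : ∀ᵐ t : ℝ ∂volume, t ≠ b := by
      rw [ae_iff]
      simp
    filter_upwards [h1, h2, h3, h4] with t g1 g2 g3 g4 ht
    have ht' : t ∈ Ioo a b := ⟨lt_of_le_of_ne ht.1 (Ne.symm g3), lt_of_le_of_ne ht.2 g4⟩
    have g5 : DifferentiableAt ℝ D t := g1 (by rw [uIcc_of_le hab.le]; exact ht)
    have g6 : DifferentiableAt ℝ w t := (g2 ht).differentiableAt (Icc_mem_nhds ht'.1 ht'.2)
    rw [hF, hD]
    rw [hD] at g5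
    exact GE2_der ctx he (hwt t ht) g6 _ g5
  have hbound : ∀ c : ℝ, 0 < c → D b ≤ ((∫ t in a..b, F t) / c + c * (b - a)) / 2 := by
    intro c hc
    have h1 : ∫ t in a..b, deriv D t ≤ ∫ t in a..b, (1 / (2 * c) * F t + c / 2) := by
      refine intervalIntegral.integral_mono_ae_restrict hab.le hAC.intervalIntegrable_deriv
        ((hFi.const_mul _).add intervalIntegrable_const) ?_
      rw [Filter.EventuallyLE, ae_restrict_iff' measurableSet_Icc]
      filter_upwards [hae] with t ht1 ht2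
      refine (ht1 ht2).trans ?_
      have h2 := Real.sq_sqrt (hF0 t ht2)
      have h3 : 0 ≤ (Real.sqrt (F t) - c) ^ 2 := sq_nonneg _
      have h4 : 1 / (2 * c) * F t + c / 2 = (F t + c ^ 2) / (2 * c) := by
        field_simp
      rw [h4, le_div_iff₀ (by linarith)]
      nlinarith
    rw [hDb, intervalIntegral.integral_add (hFi.const_mul _) intervalIntegrable_const,
      intervalIntegral.integral_const_mul, intervalIntegral.integral_const, smul_eq_mul] at h1
    refine h1.trans (le_of_eq ?_)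
    field_simp
  have hDb0 : 0 ≤ D b := by
    rw [hD]
    exact dist_nonneg
  have hgoal : D b ^ 2 ≤ (b - a) * ∫ t in a..b, F t := by
    rcases eq_or_lt_of_le hDb0 with h0 | hpos
    · rw [← h0]
      have : 0 ≤ (b - a) * ∫ t in a..b, F t := mul_nonneg (by linarith) hI0
      simpa using this
    · have hba : 0 < b - a := by linarith
      have h1 := hbound (D b / (b - a)) (by positivity)
      obtain ⟨I, hI⟩ : ∃ I : ℝ, I = ∫ t in a..b, F t := ⟨_, rfl⟩
      rw [← hI] at h1 ⊢
      have h2 : I / (D b / (b - a)) = I * (b - a) / D b := by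
        field_simp
      have h3 : D b / (b - a) * (b - a) = D b := by
        field_simp
      rw [h2, h3] at h1
      have h4 : D b ≤ I * (b - a) / D b := by linarith
      rw [le_div_iff₀ hpos] at h4
      nlinarith
  rw [hD, hF] at hgoal
  exact hgoal

end KI
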