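import Pool.Agent.H49.KI.GE1
import Pool.Agent.H49.KI.GE2

/-! # GE3: the weak geodesic equation

PROOF. `y = e ∘ σ`, `φ` smooth with support in `(a,b)` (values in `V n`). For `|h|` small `w_h = y + h φ` has values
in `e.target` on `[a,b]` (compactness), is Lipschitz and agrees with `y` at `a, b`, so by `energy_lip`
`(b-a)^2 = dist(σ a, σ b)^2 ≤ (b-a) E(h)`, `E(h) = ∫_a^b (G e (y + hφ) (y' + hφ') (y' + hφ')).re`, i.e.
`E(h) ≥ b - a`, while `E(0) ≤ b - a` by `mg_speed`. So `E` has a local minimum at `0`, `E(0) = b - a` (hence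
`(G e y y' y').re = 1` a.e.: `energy_one`). `E` is differentiable at `0`
(`hasDerivAt_integral_of_dominated_loc_of_deriv_le`, everything bounded) with derivative
`∫ [D_φ h(y', y') + 2 h(y', φ')] = 2 ∫ (G e y (φ' + Γ(y', φ)) y').re` (`G_deriv`:
`D_φ h(c, c) = 2 h(Γ(φ, c), c)`, `Gam_symm`), which is therefore 0. -/

set_option autoImplicit false

namespace KI

open Complex Metric Set Filter Topology Manifold ContDiff MeasureTheory
open KB (V DR wirt levi rho Sesq lap lapC dz)

variable {n : ℕ} {X : Type} [MetricSpace X] [ChartedSpace (V n) X]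
  {G : OpenPartialHomeomorph X (V n) → V n → V n → V n → ℂ}

theorem GE3_line (hG : IsHermMetric G) {e : OpenPartialHomeomorph X (V n)}
    (he : e ∈ atlas (V n) X) {y p : V n} {h : ℝ} (hz : y + h • p ∈ e.target) (c d : V n) :
    HasDerivAt (fun s : ℝ => (G e (y + s • p) c d).re)
      ((G e (y + h • p) (Gam G e (y + h • p) p c) d).re
        + (G e (y + h • p) c (Gam G e (y + h • p) p d)).re) h := by
  have h1 : DifferentiableAt ℝ (fun z => hR G e z c d) (y + h • p) := by
    have h2 : ContDiffOn ℝ ∞ (fun z => G e z c d) e.target := hG.smooth e he c d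
    have h3 : DifferentiableAt ℝ (fun z => G e z c d) (y + h • p) :=
      ((h2.contDiffAt (e.open_target.mem_nhds hz)).differentiableAt (by simp))
    exact (Complex.reCLM.differentiableAt).comp (y + h • p) h3
  have h4 : HasDerivAt (fun s : ℝ => y + s • p) p h := by
    have := (hasDerivAt_id h).smul_const p
    simpa using this.const_add y
  have h5 := h1.hasFDerivAt.comp_hasDerivAt h h4
  have h6 := G_deriv hG he hz p c d
  unfold DR at h6
  rw [h6] at h5
  exact h5

theorem GE3_hasDeriv (hG : IsHermMetric G) {e : OpenPartialHomeomorph X (V n)}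
    (he : e ∈ atlas (V n) X) {y p v q : V n} {h : ℝ} (hz : y + h • p ∈ e.target) :
    HasDerivAt (fun s : ℝ => (G e (y + s • p) (v + s • q) (v + s • q)).re)
      (2 * (G e (y + h • p) (q + Gam G e (y + h • p) p (v + h • q)) (v + h • q)).re) h := by
  obtain ⟨w, hw⟩ : ∃ w, w = v + h • q := ⟨_, rfl⟩
  have l1 := GE3_line hG he hz w w
  have l2 := GE3_line hG he hz q w
  have l3 := GE3_line hG he hz w q
  have l4 := GE3_line hG he hz q q
  have l5 : HasDerivAt (fun s : ℝ => s - h) 1 h := (hasDerivAt_id h).sub_const h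
  have l6 := (l1.add (l5.mul (l2.add l3))).add ((l5.mul l5).mul l4)
  have hev : (fun s : ℝ => (G e (y + s • p) (v + s • q) (v + s • q)).re) =ᶠ[𝓝 h]
      (fun s : ℝ => (G e (y + s • p) w w).re + (s - h) * ((G e (y + s • p) q w).re
        + (G e (y + s • p) w q).re) + (s - h) * (s - h) * (G e (y + s • p) q q).re) := by
    have hc : ContinuousAt (fun s : ℝ => y + s • p) h := by fun_prop
    filter_upwards [hc.preimage_mem_nhds (e.open_target.mem_nhds hz)] with s hs
    have hS := G_sesq hG he hs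
    have e1 : v + s • q = w + ((s - h : ℝ) : ℂ) • q := by
      rw [Complex.coe_smul, hw, sub_smul]
      abel
    rw [e1, hS.expand_add]
    simp only [Complex.add_re, Complex.conj_ofReal, Complex.re_ofReal_mul, mul_assoc]
    ring
  have hS := G_sesq hG he hz
  have l7 := l6.congr_of_eventuallyEq hev
  refine l7.congr_deriv ?_
  rw [← hw]
  rw [hS.add, Complex.add_re, hS.re_symm (Gam G e (y + h • p) p w) w]
  simp only [Pi.add_apply, Pi.mul_apply, sub_self, zero_mul, mul_zero, add_zero, one_mul]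
  rw [hS.re_symm q w]
  ring

theorem GE3_gam (hG : IsHermMetric G) {e : OpenPartialHomeomorph X (V n)}
    (he : e ∈ atlas (V n) X) {y : V n} (hy : y ∈ e.target) (v c : V n) :
    Gam G e y v c = ∑ i, v i • ∑ j, c j • Gam G e y (KB.bv i) (KB.bv j) := by
  let L : V n →ₗ[ℂ] V n :=
    { toFun := fun a => Gam G e y a c
      map_add' := fun a a' => Gam_add_left hG he hy a a' c
      map_smul' := fun t a => Gam_smul_left hG he hy t a c }
  have h1 : L v = ∑ i, v i • L (KB.bv i) := by
    conv_lhs => rw [KB.sum_bv v]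
    rw [map_sum]
    simp only [map_smul]
  refine h1.trans (Finset.sum_congr rfl fun i _ => ?_)
  congr 1
  let L' : V n →ₗ[ℂ] V n :=
    { toFun := fun a => Gam G e y (KB.bv i) a
      map_add' := fun a a' => Gam_add_right hG he hy _ a a'
      map_smul' := fun t a => Gam_smul_right hG he hy t _ a }
  have h2 : L' c = ∑ j, c j • L' (KB.bv j) := by
    conv_lhs => rw [KB.sum_bv c]
    rw [map_sum]
    simp only [map_smul]
  exact h2

theorem GE3_cont (hG : IsHermMetric G) {e : OpenPartialHomeomorph X (V n)}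
    (he : e ∈ atlas (V n) X) :
    ContinuousOn (fun x : V n × V n × V n × V n =>
      2 * (G e x.1 (x.2.2.1 + Gam G e x.1 x.2.1 x.2.2.2) x.2.2.2).re)
      (e.target ×ˢ (univ : Set (V n × V n × V n))) := by
  have hfst : ContinuousOn (fun x : V n × V n × V n × V n => x.1)
      (e.target ×ˢ (univ : Set (V n × V n × V n))) := continuous_fst.continuousOn
  have hgam : ContinuousOn (fun x : V n × V n × V n × V n => Gam G e x.1 x.2.1 x.2.2.2)
      (e.target ×ˢ (univ : Set (V n × V n × V n))) := by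
    have h2 : ContinuousOn (fun x : V n × V n × V n × V n =>
        ∑ i, x.2.1 i • ∑ j, x.2.2.2 j • Gam G e x.1 (KB.bv i) (KB.bv j))
        (e.target ×ˢ (univ : Set (V n × V n × V n))) := by
      refine continuousOn_finsetSum _ fun i _ => ContinuousOn.fun_smul ?_
        (continuousOn_finsetSum _ fun j _ => ContinuousOn.fun_smul ?_ ?_)
      · exact ((EuclideanSpace.proj i : V n →L[ℂ] ℂ).continuous.comp
          (continuous_fst.comp continuous_snd)).continuousOn
      · exact ((EuclideanSpace.proj j : V n →L[ℂ] ℂ).continuous.comp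
          (continuous_snd.comp (continuous_snd.comp continuous_snd))).continuousOn
      · exact (Gam_smooth hG he (KB.bv i) (KB.bv j)).continuousOn.comp hfst fun z hz => hz.1
    exact h2.congr fun z hz => GE3_gam hG he hz.1 z.2.1 z.2.2.2
  have h1 := KB.Sesq.continuousOn (S := e.target ×ˢ (univ : Set (V n × V n × V n)))
    (A := fun x : V n × V n × V n × V n => G e x.1)
    (a := fun x => x.2.2.1 + Gam G e x.1 x.2.1 x.2.2.2) (b := fun x => x.2.2.2)
    (fun z hz => G_sesq hG he hz.1)
    (fun v w => (hG.smooth e he v w).continuousOn.comp hfst fun z hz => hz.1)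
    ((continuous_fst.comp (continuous_snd.comp continuous_snd)).continuousOn.add hgam)
    (continuous_snd.comp (continuous_snd.comp continuous_snd)).continuousOn
  exact (Complex.continuous_re.comp_continuousOn h1).const_smul (2 : ℝ) |>.congr
    (fun x _ => by simp)

theorem GE3_meas {a b : ℝ} {Φ : ℝ × V n → ℝ}
    (hΦ : ContinuousOn Φ (Icc a b ×ˢ univ)) {q : ℝ → V n} (hq : Measurable q) :
    AEStronglyMeasurable (fun t => Φ (t, q t)) (volume.restrict (Ioc a b)) := by
  have hS : MeasurableSet (Icc a b ×ˢ (univ : Set (V n))) := measurableSet_Icc.prod MeasurableSet.univ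
  have hmq : Measurable (fun t => (t, q t)) := measurable_id.prodMk hq
  have h1 : AEStronglyMeasurable Φ
      ((Measure.map (fun t => (t, q t)) (volume.restrict (Ioc a b))).restrict
        (Icc a b ×ˢ (univ : Set (V n)))) := hΦ.aestronglyMeasurable hS
  have h2 : (Measure.map (fun t => (t, q t)) (volume.restrict (Ioc a b))).restrict
        (Icc a b ×ˢ (univ : Set (V n))) =
      Measure.map (fun t => (t, q t)) (volume.restrict (Ioc a b)) := by
    rw [Measure.restrict_map hmq hS]
    congr 1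
    rw [Measure.restrict_restrict (hmq hS)]
    congr 1
    ext t
    simp only [mem_inter_iff, mem_preimage, mem_prod, mem_univ, and_true, mem_Icc, mem_Ioc]
    constructor
    · exact fun h => h.2
    · exact fun h => ⟨⟨h.1.le, h.2⟩, h⟩
  rw [h2] at h1
  exact h1.comp_measurable hmq

theorem energy_one [IsManifold 𝓘(ℂ, V n) ω X] (ctx : Ctx G) {σ : ℝ → X} {ℓ : ℝ}
    (hσ : IsMGeod σ ℓ) {a b : ℝ} (ha : 0 ≤ a) (hab : a < b) (hb : b ≤ ℓ)
    {e : OpenPartialHomeomorph X (V n)} (he : e ∈ atlas (V n) X)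
    (hmem : ∀ t ∈ Icc a b, σ t ∈ e.source) :
    ∀ᵐ t ∂volume, t ∈ Ioo a b →
      (G e (e (σ t)) (deriv (fun t => e (σ t)) t) (deriv (fun t => e (σ t)) t)).re = 1 := by
  obtain ⟨K, hK⟩ := mg_lip ctx hσ ha hab hb he hmem
  have hyt : ∀ t ∈ Icc a b, e (σ t) ∈ e.target := fun t ht => e.map_source (hmem t ht)
  have hen := energy_lip ctx he hab hK hyt
  have hint := GE2_int ctx.herm he hab hK hyt
  rw [e.left_inv (hmem a (left_mem_Icc.2 hab.le)), e.left_inv (hmem b (right_mem_Icc.2 hab.le)),
    hσ a ⟨ha, by linarith⟩ b ⟨by linarith, hb⟩] at hen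
  obtain ⟨F, hF⟩ : ∃ F : ℝ → ℝ, F = fun t =>
    (G e (e (σ t)) (deriv (fun t => e (σ t)) t) (deriv (fun t => e (σ t)) t)).re := ⟨_, rfl⟩
  rw [← hF] at hen hint
  have hsp : ∀ᵐ t ∂volume, t ∈ Ioo a b → F t ≤ 1 := by
    filter_upwards [mg_speed ctx hσ ha hab hb he hmem] with t ht hti
    rw [hF]
    exact (ht hti).2
  have hba : 0 < b - a := by linarith
  have hE : b - a ≤ ∫ t in a..b, F t := by
    rw [abs_sub_comm, abs_of_pos hba, sq] at hen
    exact le_of_mul_le_mul_left hen hba
  have hnn : 0 ≤ᵐ[volume.restrict (Ioc a b)] fun t => 1 - F t := by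
    rw [← restrict_Ioo_eq_restrict_Ioc]
    rw [Filter.EventuallyLE, ae_restrict_iff' measurableSet_Ioo]
    filter_upwards [hsp] with t ht hti
    have := ht hti
    change 0 ≤ 1 - F t
    linarith
  have hi : IntervalIntegrable (fun t => 1 - F t) volume a b := intervalIntegrable_const.sub hint
  have hz : ∫ t in a..b, (1 - F t) = 0 := by
    apply le_antisymm
    · rw [intervalIntegral.integral_sub intervalIntegrable_const hint,
        intervalIntegral.integral_const]
      simp only [smul_eq_mul, mul_one]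
      linarith
    · apply intervalIntegral.integral_nonneg_of_ae_restrict hab.le
      rw [← restrict_Ioo_eq_restrict_Ioc] at hnn
      rw [← restrict_Ioo_eq_restrict_Icc]
      exact hnn
  have h3 := (intervalIntegral.integral_eq_zero_iff_of_le_of_nonneg_ae hab.le hnn hi).1 hz
  rw [← restrict_Ioo_eq_restrict_Ioc, Filter.EventuallyEq, ae_restrict_iff' measurableSet_Ioo] at h3
  filter_upwards [h3] with t ht hti
  have h4 := ht hti
  simp only [Pi.zero_apply] at h4
  rw [hF] at h4
  simp only at h4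
  linarith

theorem weak_geod [IsManifold 𝓘(ℂ, V n) ω X] (ctx : Ctx G) {σ : ℝ → X} {ℓ : ℝ}
    (hσ : IsMGeod σ ℓ) {a b : ℝ} (ha : 0 ≤ a) (hab : a < b) (hb : b ≤ ℓ)
    {e : OpenPartialHomeomorph X (V n)} (he : e ∈ atlas (V n) X)
    (hmem : ∀ t ∈ Icc a b, σ t ∈ e.source) {φ : ℝ → V n} (hφ : ContDiff ℝ ∞ φ)
    (hφs : tsupport φ ⊆ Ioo a b) :
    ∫ t in a..b, (G e (e (σ t)) (deriv φ t + Gam G e (e (σ t)) (deriv (fun t => e (σ t)) t) (φ t))
      (deriv (fun t => e (σ t)) t)).re = 0 := by
  obtain ⟨K, hK⟩ := mg_lip ctx hσ ha hab hb he hmem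
  have hyt : ∀ t ∈ Icc a b, e (σ t) ∈ e.target := fun t ht => e.map_source (hmem t ht)
  have hsymm_a : e.symm (e (σ a)) = σ a := e.left_inv (hmem a (left_mem_Icc.2 hab.le))
  have hsymm_b : e.symm (e (σ b)) = σ b := e.left_inv (hmem b (right_mem_Icc.2 hab.le))
  have hspeed := mg_speed ctx hσ ha hab hb he hmem
  obtain ⟨y, hy⟩ : ∃ y : ℝ → V n, y = fun t => e (σ t) := ⟨_, rfl⟩
  have hyd : ∀ t, e (σ t) = y t := fun t => by rw [hy]
  simp only [hyd] at hyt hsymm_a hsymm_b hspeed ⊢
  rw [← hy] at hK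
  change ∀ᵐ t ∂volume, t ∈ Ioo a b → DifferentiableAt ℝ y t ∧
      (G e (y t) (deriv y t) (deriv y t)).re ≤ 1 at hspeed
  change ∫ t in a..b, (G e (y t) (deriv φ t + Gam G e (y t) (deriv y t) (φ t))
      (deriv y t)).re = 0
  have hG := ctx.herm
  have hba : 0 < b - a := by linarith
  have hφa : φ a = 0 := image_eq_zero_of_notMem_tsupport (fun h => lt_irrefl _ (hφs h).1)
  have hφb : φ b = 0 := image_eq_zero_of_notMem_tsupport (fun h => lt_irrefl _ (hφs h).2)
  have hφcs : HasCompactSupport φ :=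
    (isCompact_Icc (a := a) (b := b)).of_isClosed_subset (isClosed_tsupport φ)
      (hφs.trans Ioo_subset_Icc_self)
  have hφc : Continuous φ := hφ.continuous
  have hφd : Continuous (deriv φ) := hφ.continuous_deriv (by simp)
  have hyc : ContinuousOn y (Icc a b) := hK.continuousOn
  -- compact neighbourhood
  have hcomp : IsCompact (y '' Icc a b) := isCompact_Icc.image_of_continuousOn hyc
  obtain ⟨δ₁, hδ₁, hthick⟩ := hcomp.exists_cthickening_subset_open e.open_target
    (image_subset_iff.2 hyt)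
  obtain ⟨B, hB⟩ := hφcs.exists_bound_of_continuous hφc
  obtain ⟨B', hB'⟩ := (isCompact_Icc (a := a) (b := b)).exists_bound_of_continuousOn
    hφd.continuousOn
  have hB0 : 0 ≤ B := (norm_nonneg _).trans (hB 0)
  have hB'0 : 0 ≤ B' := (norm_nonneg _).trans (hB' a (left_mem_Icc.2 hab.le))
  obtain ⟨δ, hδ⟩ : ∃ δ, δ = min 1 (δ₁ / (B + 1)) := ⟨_, rfl⟩
  have hδ0 : 0 < δ := by rw [hδ]; exact lt_min one_pos (by positivity)
  have hδ1 : δ ≤ 1 := by rw [hδ]; exact min_le_left _ _
  have hδB : δ * B ≤ δ₁ := by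
    have h1 : δ ≤ δ₁ / (B + 1) := by rw [hδ]; exact min_le_right _ _
    rw [le_div_iff₀ (by linarith)] at h1
    nlinarith
  have hmemK : ∀ h : ℝ, |h| < δ → ∀ t ∈ Icc a b,
      y t + h • φ t ∈ cthickening δ₁ (y '' Icc a b) := by
    intro h hh t ht
    refine mem_cthickening_of_dist_le _ (y t) δ₁ _ (mem_image_of_mem _ ht) ?_
    rw [dist_eq_norm, add_sub_cancel_left, norm_smul, Real.norm_eq_abs]
    calc |h| * ‖φ t‖ ≤ δ * B := mul_le_mul hh.le (hB t) (norm_nonneg _) hδ0.le
      _ ≤ δ₁ := hδB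
  have hmemT : ∀ h : ℝ, |h| < δ → ∀ t ∈ Icc a b, y t + h • φ t ∈ e.target :=
    fun h hh t ht => hthick (hmemK h hh t ht)
  have hKc : IsCompact (cthickening δ₁ (y '' Icc a b)) := hcomp.cthickening
  -- Lipschitz
  have hwl : ∀ h : ℝ, ∃ K' : NNReal, LipschitzOnWith K' (fun t => y t + h • φ t) (Icc a b) := by
    intro h
    have h1 : ContDiff ℝ 1 (fun t => h • φ t) := (hφ.of_le (by simp)).const_smul h
    have h2 : HasCompactSupport (fun t => h • φ t) := hφcs.smul_left (f := fun _ => h)
    obtain ⟨C, hC⟩ := h1.lipschitzWith_of_hasCompactSupport h2 (by simp)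
    exact ⟨_, hK.add hC.lipschitzOnWith⟩
  -- derivative of w
  have hdw : ∀ t, DifferentiableAt ℝ y t → ∀ h : ℝ,
      deriv (fun t => y t + h • φ t) t = deriv y t + h • deriv φ t := by
    intro t ht h
    have h1 : HasDerivAt φ (deriv φ t) t := (hφ.differentiable (by simp) t).hasDerivAt
    exact (ht.hasDerivAt.add (h1.const_smul h)).deriv
  obtain ⟨F, hF⟩ : ∃ F : ℝ → ℝ → ℝ, F = fun h t => (G e (y t + h • φ t)
    (deriv (fun t => y t + h • φ t) t) (deriv (fun t => y t + h • φ t) t)).re := ⟨_, rfl⟩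
  obtain ⟨F', hF'⟩ : ∃ F' : ℝ → ℝ → ℝ, F' = fun h t => 2 * (G e (y t + h • φ t)
    (deriv φ t + Gam G e (y t + h • φ t) (φ t) (deriv y t + h • deriv φ t))
    (deriv y t + h • deriv φ t)).re := ⟨_, rfl⟩
  have hFint : ∀ h : ℝ, |h| < δ → IntervalIntegrable (F h) volume a b := by
    intro h hh
    obtain ⟨K', hK'⟩ := hwl h
    have := GE2_int hG he hab hK' (hmemT h hh)
    rw [hF]
    exact this
  have hE : ∀ h : ℝ, |h| < δ → b - a ≤ ∫ t in a..b, F h t := by
    intro h hh
    obtain ⟨K', hK'⟩ := hwl h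
    have h1 := energy_lip ctx he hab hK' (hmemT h hh)
    simp only [hφa, hφb, smul_zero, add_zero] at h1
    rw [hsymm_a, hsymm_b, hσ a ⟨ha, by linarith⟩ b ⟨by linarith, hb⟩, abs_sub_comm,
      abs_of_pos hba, sq] at h1
    rw [hF]
    exact le_of_mul_le_mul_left h1 hba
  have hE0 : ∫ t in a..b, F 0 t ≤ b - a := by
    have h1 : ∫ t in a..b, F 0 t ≤ ∫ _t in a..b, (1 : ℝ) := by
      refine intervalIntegral.integral_mono_ae_restrict hab.le (hFint 0 (by simpa using hδ0))
        intervalIntegrable_const ?_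
      rw [← restrict_Ioo_eq_restrict_Icc, Filter.EventuallyLE, ae_restrict_iff' measurableSet_Ioo]
      filter_upwards [hspeed] with t ht hti
      rw [hF]
      simp only [zero_smul, add_zero]
      exact (ht hti).2
    simpa using h1
  -- bound
  obtain ⟨C, hC⟩ := (hKc.prod ((isCompact_closedBall (0 : V n) B).prod
    ((isCompact_closedBall (0 : V n) B').prod
      (isCompact_closedBall (0 : V n) (K + B'))))).exists_bound_of_continuousOn
    ((GE3_cont hG he).mono (prod_mono hthick (subset_univ _)))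
  have hae : ∀ᵐ t ∂(volume : Measure ℝ), t ∈ uIoc a b → t ∈ Ioo a b ∧ DifferentiableAt ℝ y t := by
    have h4 : ∀ᵐ t : ℝ ∂volume, t ≠ b := by
      rw [ae_iff]
      simp
    filter_upwards [hspeed, h4] with t ht htb hti
    rw [uIoc_of_le hab.le] at hti
    have hI : t ∈ Ioo a b := ⟨hti.1, lt_of_le_of_ne hti.2 htb⟩
    exact ⟨hI, (ht hI).1⟩
  have hmain := intervalIntegral.hasDerivAt_integral_of_dominated_loc_of_deriv_le
    (μ := volume) (a := a) (b := b) (F := F) (F' := F') (x₀ := (0 : ℝ)) (s := ball (0 : ℝ) δ)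
    (bound := fun _ => C) (ball_mem_nhds _ hδ0)
    (by
      filter_upwards [ball_mem_nhds (0 : ℝ) hδ0] with h hh
      rw [mem_ball_zero_iff, Real.norm_eq_abs] at hh
      exact (hFint h hh).def'.aestronglyMeasurable)
    (hFint 0 (by simpa using hδ0))
    (by
      rw [uIoc_of_le hab.le, hF']
      simp only [zero_smul, add_zero]
      have hcc : ContinuousOn (fun x : ℝ × V n => (y x.1, φ x.1, deriv φ x.1, x.2))
          (Icc a b ×ˢ univ) := by
        refine ContinuousOn.prodMk (hyc.comp continuous_fst.continuousOn fun z hz => hz.1) ?_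
        exact ((hφc.comp continuous_fst).prodMk
          ((hφd.comp continuous_fst).prodMk continuous_snd)).continuousOn
      have h1 := (GE3_cont hG he).comp hcc (fun x hx => ⟨hyt _ hx.1, mem_univ _⟩)
      exact GE3_meas h1 (measurable_deriv y))
    (by
      filter_upwards [hae] with t ht hti h hh
      obtain ⟨hI, hd⟩ := ht hti
      rw [mem_ball_zero_iff, Real.norm_eq_abs] at hh
      have hIc := Ioo_subset_Icc_self hI
      rw [hF']
      refine hC (y t + h • φ t, φ t, deriv φ t, deriv y t + h • deriv φ t)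
        ⟨hmemK h hh t hIc, ?_, ?_, ?_⟩
      · simpa using hB t
      · simpa using hB' t hIc
      · rw [mem_closedBall_zero_iff]
        have h1 : ‖deriv y t‖ ≤ K :=
          norm_deriv_le_of_lipschitzOn (Icc_mem_nhds hI.1 hI.2) hK
        have h2 : ‖h • deriv φ t‖ ≤ B' := by
          rw [norm_smul, Real.norm_eq_abs]
          calc |h| * ‖deriv φ t‖ ≤ 1 * B' :=
                mul_le_mul (hh.le.trans hδ1) (hB' t hIc) (norm_nonneg _) zero_le_one
            _ = B' := one_mul _
        exact (norm_add_le _ _).trans (add_le_add h1 h2))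
    intervalIntegrable_const
    (by
      filter_upwards [hae] with t ht hti h hh
      obtain ⟨hI, hd⟩ := ht hti
      rw [mem_ball_zero_iff, Real.norm_eq_abs] at hh
      have hIc := Ioo_subset_Icc_self hI
      have h1 := GE3_hasDeriv hG he (y := y t) (p := φ t) (v := deriv y t) (q := deriv φ t)
        (hmemT h hh t hIc)
      rw [hF, hF']
      simp only [hdw t hd]
      exact h1)
  have hmin : IsLocalMin (fun h => ∫ t in a..b, F h t) 0 := by
    filter_upwards [ball_mem_nhds (0 : ℝ) hδ0] with h hh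
    rw [mem_ball_zero_iff, Real.norm_eq_abs] at hh
    exact hE0.trans (hE h hh)
  have hzero := hmin.hasDerivAt_eq_zero hmain.2
  have hfin : ∫ t in a..b, F' 0 t = 2 * ∫ t in a..b,
      (G e (y t) (deriv φ t + Gam G e (y t) (deriv y t) (φ t)) (deriv y t)).re := by
    rw [← intervalIntegral.integral_const_mul]
    apply intervalIntegral.integral_congr
    intro t ht
    rw [uIcc_of_le hab.le] at ht
    rw [hF']
    simp only [zero_smul, add_zero]
    rw [Gam_symm hG ctx.kaehler he (hyt t ht) (φ t) (deriv y t)]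
  rw [hfin] at hzero
  linarith

end KI
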