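import Mathlib

/-! # GE4: the lemma of du Bois-Reymond (Mathlib only)

PROOF. `M t = ∫_a^t m` is absolutely continuous; integration by parts
(`AbsolutelyContinuousOnInterval.integral_mul_deriv_eq_deriv_mul` or
`intervalIntegral.integral_mul_deriv_eq_deriv_mul`-type lemma):
`∫ ϕ m = - ∫ ϕ' M` for `ϕ` smooth with support in `(a, b)`. So `∫ ϕ' (P - M) = 0`. Let `Q = P - M` and let `χ`
be a fixed bump function with support in `(a, b)`, `∫ χ = 1`, `c₀ = ∫ χ Q`. For every smooth `ψ` with compact
support in `(a, b)`, `ψ - (∫ψ) χ` has integral 0, so it is `ϕ'` with `ϕ t = ∫_a^t (ψ - (∫ψ) χ)` smooth with compact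
support in `(a, b)`. Hence `∫ ψ (Q - c₀) = 0` for all such `ψ`, and `Q = c₀` a.e. on `(a, b)`
(`IsOpen.ae_eq_zero_of_integral_contDiff_smul_eq_zero`). -/

set_option autoImplicit false

namespace KI

open Set Filter Topology MeasureTheory ContDiff

theorem GE4_key {a b : ℝ} (_hab : a < b) {P m : ℝ → ℝ}
    (hP : IntervalIntegrable P volume a b) (hm : IntervalIntegrable m volume a b)
    (h : ∀ ϕ : ℝ → ℝ, ContDiff ℝ ∞ ϕ → tsupport ϕ ⊆ Ioo a b →
      ∫ t in a..b, (deriv ϕ t * P t + ϕ t * m t) = 0) (ϕ : ℝ → ℝ) (hϕ : ContDiff ℝ ∞ ϕ)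
    (hs : tsupport ϕ ⊆ Ioo a b) :
    ∫ t in a..b, deriv ϕ t * (P t - ∫ s in a..t, m s) = 0 := by
  set M : ℝ → ℝ := fun t => ∫ s in a..t, m s with hM
  have hMac : AbsolutelyContinuousOnInterval M a b :=
    hm.absolutelyContinuousOnInterval_intervalIntegral (by simp)
  have hϕa : ϕ a = 0 := image_eq_zero_of_notMem_tsupport (fun h => lt_irrefl _ (hs h).1)
  have hϕb : ϕ b = 0 := image_eq_zero_of_notMem_tsupport (fun h => lt_irrefl _ (hs h).2)
  have hac : AbsolutelyContinuousOnInterval ϕ a b :=
    (hϕ.contDiffOn.of_le (by exact_mod_cast le_top)).absolutelyContinuousOnInterval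
  have h1 := AbsolutelyContinuousOnInterval.integral_deriv_mul_eq_sub hac hMac
  have h2 : ∫ x in a..b, (deriv ϕ x * M x + ϕ x * deriv M x)
      = ∫ x in a..b, (deriv ϕ x * M x + ϕ x * m x) := by
    apply intervalIntegral.integral_congr_ae
    filter_upwards [hm.ae_hasDerivAt_integral] with x hx hx2
    rw [(hx (uIoc_subset_uIcc hx2) a left_mem_uIcc).deriv]
  have h3 := h ϕ hϕ hs
  have hdc : Continuous (deriv ϕ) := hϕ.continuous_deriv (by exact_mod_cast le_top)
  have hϕc : Continuous ϕ := hϕ.continuous
  have hMi : IntervalIntegrable M volume a b := hMac.continuousOn.intervalIntegrable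
  have i1 : IntervalIntegrable (fun t => deriv ϕ t * P t + ϕ t * m t) volume a b :=
    (hP.continuousOn_mul hdc.continuousOn).add (hm.continuousOn_mul hϕc.continuousOn)
  have i2 : IntervalIntegrable (fun t => deriv ϕ t * M t + ϕ t * m t) volume a b :=
    (hMi.continuousOn_mul hdc.continuousOn).add (hm.continuousOn_mul hϕc.continuousOn)
  have h4 : ∫ t in a..b, deriv ϕ t * (P t - M t)
      = ∫ t in a..b, ((deriv ϕ t * P t + ϕ t * m t) - (deriv ϕ t * M t + ϕ t * m t)) := by
    apply intervalIntegral.integral_congr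
    intro t _
    ring
  rw [h4, intervalIntegral.integral_sub i1 i2, h3, ← h2, h1, hϕa, hϕb]
  simp

theorem GE4_bump {a b : ℝ} (hab : a < b) : ∃ χ : ℝ → ℝ, ContDiff ℝ ∞ χ ∧
    HasCompactSupport χ ∧ tsupport χ ⊆ Ioo a b ∧ (∫ t in a..b, χ t = 1) ∧
    (tsupport χ).Nonempty := by
  let f : ContDiffBump ((a + b) / 2 : ℝ) :=
    { rIn := (b - a) / 8
      rOut := (b - a) / 4
      rIn_pos := by linarith
      rIn_lt_rOut := by linarith }
  have hts : tsupport (f.normed volume) ⊆ Ioo a b := by
    rw [f.tsupport_normed_eq]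
    intro x hx
    rw [Real.closedBall_eq_Icc] at hx
    change x ∈ Icc ((a + b) / 2 - (b - a) / 4) ((a + b) / 2 + (b - a) / 4) at hx
    constructor
    · linarith [hx.1]
    · linarith [hx.2]
  refine ⟨f.normed volume, f.contDiff_normed, f.hasCompactSupport_normed, hts, ?_, ?_⟩
  · rw [intervalIntegral.integral_eq_integral_of_support_subset]
    · exact f.integral_normed
    · exact (subset_tsupport _).trans (hts.trans Ioo_subset_Ioc_self)
  · rw [f.tsupport_normed_eq]
    exact ⟨_, Metric.mem_closedBall_self f.rOut_pos.le⟩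

theorem GE4_prim {a b : ℝ} (_hab : a < b) {g : ℝ → ℝ} (hg : ContDiff ℝ ∞ g) {K : Set ℝ}
    (hK : IsCompact K) (hKne : K.Nonempty) (hKs : K ⊆ Ioo a b) (hgK : ∀ s, s ∉ K → g s = 0)
    (hint : ∫ t in a..b, g t = 0) : ∃ ϕ : ℝ → ℝ, ContDiff ℝ ∞ ϕ ∧ tsupport ϕ ⊆ Ioo a b ∧
    ∀ t, deriv ϕ t = g t := by
  obtain ⟨a', ha'K, ha'⟩ := hK.exists_isLeast hKne
  obtain ⟨b', hb'K, hb'⟩ := hK.exists_isGreatest hKne
  have ha1 := (hKs ha'K).1
  have hb1 := (hKs hb'K).2
  have hgc : Continuous g := hg.continuous
  have hd : ∀ t, HasDerivAt (fun t => ∫ s in a..t, g s) (g t) t := fun t =>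
    intervalIntegral.integral_hasDerivAt_right (hgc.intervalIntegrable _ _)
      hgc.stronglyMeasurable.stronglyMeasurableAtFilter hgc.continuousAt
  have hz1 : ∀ s, s < a' → g s = 0 := fun s hs => hgK s (fun h => absurd (ha' h) (not_le.2 hs))
  have hz2 : ∀ s, b' < s → g s = 0 := fun s hs => hgK s (fun h => absurd (hb' h) (not_le.2 hs))
  refine ⟨fun t => ∫ s in a..t, g s, ?_, ?_, fun t => (hd t).deriv⟩
  · rw [contDiff_infty_iff_deriv]
    refine ⟨fun t => (hd t).differentiableAt, ?_⟩
    have : deriv (fun t => ∫ s in a..t, g s) = g := funext fun t => (hd t).deriv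
    rw [this]
    exact hg
  · have hsup : Function.support (fun t => ∫ s in a..t, g s) ⊆ Icc a' b' := by
      intro t ht
      by_contra hc
      apply ht
      rw [mem_Icc, not_and_or, not_le, not_le] at hc
      rcases hc with hc | hc
      · change ∫ s in a..t, g s = 0
        rw [show (∫ s in a..t, g s) = ∫ s in a..t, (0 : ℝ) from ?_]
        · simp
        · apply intervalIntegral.integral_congr
          intro s hs
          apply hz1
          rcases le_total a t with h | h
          · rw [uIcc_of_le h] at hs; linarith [hs.2]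
          · rw [uIcc_of_ge h] at hs; linarith [hs.2]
      · change ∫ s in a..t, g s = 0
        rw [← intervalIntegral.integral_add_adjacent_intervals (b := b)
          (hgc.intervalIntegrable _ _) (hgc.intervalIntegrable _ _), hint, zero_add]
        rw [show (∫ s in b..t, g s) = ∫ s in b..t, (0 : ℝ) from ?_]
        · simp
        · apply intervalIntegral.integral_congr
          intro s hs
          apply hz2
          rcases le_total b t with h | h
          · rw [uIcc_of_le h] at hs; linarith [hs.1]
          · rw [uIcc_of_ge h] at hs; linarith [hs.1]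
    have hts : tsupport (fun t => ∫ s in a..t, g s) ⊆ Icc a' b' :=
      closure_minimal hsup isClosed_Icc
    exact hts.trans (fun x hx => ⟨lt_of_lt_of_le ha1 hx.1, lt_of_le_of_lt hx.2 hb1⟩)

theorem du_bois_reymond {a b : ℝ} (hab : a < b) {P m : ℝ → ℝ}
    (hP : IntervalIntegrable P volume a b) (hm : IntervalIntegrable m volume a b)
    (h : ∀ ϕ : ℝ → ℝ, ContDiff ℝ ∞ ϕ → tsupport ϕ ⊆ Ioo a b →
      ∫ t in a..b, (deriv ϕ t * P t + ϕ t * m t) = 0) :
    ∃ c₀ : ℝ, ∀ᵐ t ∂volume, t ∈ Ioo a b → P t = c₀ + ∫ s in a..t, m s := by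
  set M : ℝ → ℝ := fun t => ∫ s in a..t, m s with hM
  have key := GE4_key hab hP hm h
  have hMac : AbsolutelyContinuousOnInterval M a b :=
    hm.absolutelyContinuousOnInterval_intervalIntegral (by simp)
  have hMi : IntervalIntegrable M volume a b := hMac.continuousOn.intervalIntegrable
  obtain ⟨χ, hχ, hχc, hχs, hχ1, hχne⟩ := GE4_bump hab
  set Q : ℝ → ℝ := fun t => P t - M t with hQ
  have hQi : IntervalIntegrable Q volume a b := hP.sub hMi
  set c₀ := ∫ t in a..b, χ t * Q t with hc₀
  have hmain : ∀ᵐ t ∂volume, t ∈ Ioo a b → Q t - c₀ = 0 := by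
    apply isOpen_Ioo.ae_eq_zero_of_integral_contDiff_smul_eq_zero
    · have : IntervalIntegrable (fun t => Q t - c₀) volume a b :=
        hQi.sub intervalIntegrable_const
      rw [intervalIntegrable_iff_integrableOn_Ioo_of_le hab.le] at this
      exact this.locallyIntegrableOn
    · intro ψ hψ hψc hψs
      set I := ∫ t in a..b, ψ t with hI
      have hψcont : Continuous ψ := hψ.continuous
      have hχcont : Continuous χ := hχ.continuous
      have hgint : ∫ t in a..b, (ψ t - I * χ t) = 0 := by
        rw [intervalIntegral.integral_sub (hψcont.intervalIntegrable _ _)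
          ((hχcont.const_mul I).intervalIntegrable _ _),
          intervalIntegral.integral_const_mul, hχ1]
        ring
      obtain ⟨ϕ, hϕ, hϕs, hϕd⟩ := GE4_prim hab (g := fun t => ψ t - I * χ t)
        (hψ.sub (contDiff_const.mul hχ)) (hψc.isCompact.union hχc.isCompact)
        (hχne.mono subset_union_right) (union_subset hψs hχs) (by
          intro s hs
          rw [mem_union, not_or] at hs
          rw [image_eq_zero_of_notMem_tsupport hs.1, image_eq_zero_of_notMem_tsupport hs.2]
          ring) hgint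
      have hk := key ϕ hϕ hϕs
      change ∫ t in a..b, deriv ϕ t * Q t = 0 at hk
      have hk' : ∫ t in a..b, (ψ t - I * χ t) * Q t = 0 := by
        rw [← hk]
        apply intervalIntegral.integral_congr
        intro t _
        simp only
        rw [hϕd]
      have hsupp : ∫ x, ψ x • (Q x - c₀) = ∫ t in a..b, ψ t * (Q t - c₀) := by
        rw [intervalIntegral.integral_eq_integral_of_support_subset]
        · rfl
        · intro x hx
          have : ψ x ≠ 0 := fun h0 => hx (by simp [h0])
          exact Ioo_subset_Ioc_self (hψs (subset_tsupport _ this))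
      rw [hsupp]
      have e1 : ∫ t in a..b, ψ t * (Q t - c₀) = ∫ t in a..b, (((ψ t - I * χ t) * Q t
          + I * (χ t * Q t)) - c₀ * ψ t) := by
        apply intervalIntegral.integral_congr
        intro t _
        ring
      have j1 : IntervalIntegrable (fun t => (ψ t - I * χ t) * Q t) volume a b :=
        hQi.continuousOn_mul (hψcont.sub (hχcont.const_mul I)).continuousOn
      have j2 : IntervalIntegrable (fun t => I * (χ t * Q t)) volume a b :=
        (hQi.continuousOn_mul hχcont.continuousOn).const_mul I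
      have j3 : IntervalIntegrable (fun t => c₀ * ψ t) volume a b :=
        (hψcont.const_mul c₀).intervalIntegrable _ _
      rw [e1, intervalIntegral.integral_sub (j1.add j2) j3, intervalIntegral.integral_add j1 j2,
        hk', intervalIntegral.integral_const_mul, intervalIntegral.integral_const_mul,
        ← hc₀, ← hI]
      ring
  refine ⟨c₀, ?_⟩
  filter_upwards [hmain] with t ht hti
  have := ht hti
  simp only [hQ] at this
  linarith

end KI
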