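import Pool.Agent.H49.KI.Ctx

/-! # geodesics in a chart -/

set_option autoImplicit false

namespace KI

open Complex Metric Set Filter Topology Manifold ContDiff
open KB (V DR wirt levi rho Sesq lap lapC dz)

variable {n : ℕ} {X : Type} [MetricSpace X] [ChartedSpace (V n) X]
  {G : OpenPartialHomeomorph X (V n) → V n → V n → V n → ℂ}

/-- `y` is a unit speed geodesic in the chart `e`, on `[a, b]`, with velocity `p`. -/
structure IsGeodOn (G : OpenPartialHomeomorph X (V n) → V n → V n → V n → ℂ)
    (e : OpenPartialHomeomorph X (V n)) (y p : ℝ → V n) (a b : ℝ) : Prop where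
  mem : ∀ t ∈ Icc a b, y t ∈ e.target
  vel : ∀ t ∈ Icc a b, HasDerivWithinAt y (p t) (Icc a b) t
  acc : ∀ t ∈ Icc a b, HasDerivWithinAt p (-Gam G e (y t) (p t) (p t)) (Icc a b) t
  unit : ∀ t ∈ Icc a b, (G e (y t) (p t) (p t)).re = 1

end KI
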