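import Pool.Agent.H49.KI.GE3
import Pool.Agent.H49.KI.GE4
import Pool.Agent.H49.KI.Geod

/-! # GE5: metric geodesics are `C²` geodesics in charts

PROOF. `y = e ∘ σ`, `q = deriv y` (a.e.). For fixed `c ∈ V n` and a scalar test function `ϕ`, take `φ = ϕ c` in
`weak_geod`: `∫ (ϕ' P_c + ϕ m_c) = 0` with `P_c = (G e y c q).re`, `m_c = (G e y (Γ(q, c)) q).re` (bounded,
measurable). `du_bois_reymond`: `P_c = c₀(c) + ∫_a^t m_c` a.e. on `(a,b)`. The right side `R_c(t)` is continuous on
`[a,b]`. Let `p t` be the vector with `(G e (y t) c (p t)).re = R_c(t)` for `c` in the real basis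
`bv i, I • bv i` of `V n` (Riesz: `KB.riesz`, or solve the linear system with the Gram matrix: `p t` depends
continuously on `t ∈ [a,b]`, because the inverse of the Gram matrix and `R_c` are continuous). Then `p = q` a.e. on
`(a,b)`, and `y t = y a + ∫_a^t q = y a + ∫_a^t p` (`y` Lipschitz, `mg_lip`), so `y` has derivative `p` within
`[a,b]` at all points. Now `m_c = (G e y (Γ(p, c)) p).re` a.e. and this is continuous, so `R_c` is `C¹` with
derivative `(G e y (Γ(p,c)) p).re` within `[a,b]`; hence `p` is differentiable within `[a,b]` (inverse Gram matrix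
`C¹` along `y`), and differentiating `(G e (y t) c (p t)).re = R_c(t)`:
`h(Γ(p,c), p) + h(c, Γ(p,p)) + h(c, p') = h(Γ(p,c), p)` (`G_deriv`), so `h(c, p' + Γ(p,p)) = 0` for all `c`,
`p' = -Γ(p,p)`. Unit speed: `(G e y p p).re` is continuous and `= 1` a.e. (`energy_one`), so everywhere on
`[a,b]`. -/

set_option autoImplicit false

namespace KI

open Complex Metric Set Filter Topology Manifold ContDiff MeasureTheory
open KB (V DR wirt levi rho Sesq lap lapC dz)

variable {n : ℕ} {X : Type} [MetricSpace X] [ChartedSpace (V n) X]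
  {G : OpenPartialHomeomorph X (V n) → V n → V n → V n → ℂ}

/-! ### the Gram operator -/

/-- the linear map `v ↦ (B v (bv j))_j` -/
noncomputable def GE5_A (B : V n → V n → ℂ) : V n →L[ℝ] V n :=
  ∑ i, ∑ j, B (KB.bv i) (KB.bv j) •
    (((EuclideanSpace.proj i : V n →L[ℂ] ℂ).smulRight (KB.bv j : V n)).restrictScalars ℝ)

theorem GE5_A_apply {B : V n → V n → ℂ} (hB : Sesq B) (v : V n) (j : Fin n) :
    GE5_A B v j = B v (KB.bv j) := by
  have hs : ∀ f : Fin n → V n, (∑ i, f i) j = ∑ i, f i j := fun f =>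
    map_sum (EuclideanSpace.proj j : V n →L[ℂ] ℂ) f Finset.univ
  unfold GE5_A
  conv_rhs => rw [KB.sum_bv v, hB.sum_left]
  rw [_root_.sum_apply, hs]
  refine Finset.sum_congr rfl fun i _ => ?_
  rw [_root_.sum_apply, hs, hB.smul, Finset.sum_eq_single j]
  · simp [KB.bv, mul_comm]
  · intro k _ hk
    simp [KB.bv, hk.symm]
  · simp

theorem GE5_eq_zero {B : V n → V n → ℂ} (hB : Sesq B) (hp : ∀ a, a ≠ 0 → 0 < (B a a).re)
    {v : V n} (h : ∀ j, B v (KB.bv j) = 0) : v = 0 := by
  by_contra hv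
  have h1 := hp v hv
  have h2 : B v v = 0 := by
    conv_lhs => rw [KB.sum_bv v]
    rw [← KB.sum_bv v, hB.symm v v]
    have h3 : B v v = ∑ j, (starRingEnd ℂ) (v j) * B v (KB.bv j) := by
      conv_lhs => rw [show B v v = B v (∑ j, v j • (KB.bv j : V n)) by rw [← KB.sum_bv v]]
      rw [hB.sum_right]
      exact Finset.sum_congr rfl fun j _ => hB.smul_right _ _ _
    rw [h3]
    simp [h]
  rw [h2] at h1
  simp at h1

theorem GE5_A_unit {B : V n → V n → ℂ} (hB : Sesq B) (hp : ∀ a, a ≠ 0 → 0 < (B a a).re) :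
    IsUnit (GE5_A B) := by
  rw [ContinuousLinearMap.isUnit_iff_bijective]
  have hinj : Function.Injective (GE5_A B) := by
    rw [injective_iff_map_eq_zero]
    intro v hv
    apply GE5_eq_zero hB hp
    intro j
    rw [← GE5_A_apply hB, hv]
    simp
  exact ⟨hinj, (LinearMap.injective_iff_surjective (f := (GE5_A B).toLinearMap)).1 hinj⟩

theorem GE5_A_smooth (hG : IsHermMetric G) {e : OpenPartialHomeomorph X (V n)}
    (he : e ∈ atlas (V n) X) : ContDiffOn ℝ ∞ (fun z => GE5_A (G e z)) e.target := by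
  unfold GE5_A
  refine ContDiffOn.sum fun i _ => ContDiffOn.sum fun j _ => ?_
  exact (hG.smooth e he _ _).smul_const _

/-- metric compatibility, complex form -/
theorem GE5_fd (hG : IsHermMetric G) {e : OpenPartialHomeomorph X (V n)}
    (he : e ∈ atlas (V n) X) {y : V n} (hy : y ∈ e.target) (a v w : V n) :
    fderiv ℝ (fun z => G e z v w) y a =
      G e y (Gam G e y a v) w + G e y v (Gam G e y a w) := by
  have hs := G_sesq hG he hy
  have hre : ∀ v' : V n, (fderiv ℝ (fun z => G e z v' w) y a).re =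
      (G e y (Gam G e y a v') w + G e y v' (Gam G e y a w)).re := by
    intro v'
    have hd : DifferentiableAt ℝ (fun z => G e z v' w) y :=
      ((hG.smooth e he v' w).differentiableOn (by simp)).differentiableAt (e.open_target.mem_nhds hy)
    have h1 := (Complex.reCLM.hasFDerivAt (x := G e y v' w)).comp y hd.hasFDerivAt
    have h2 := G_deriv hG he hy a v' w
    unfold DR hR at h2
    have h3 : fderiv ℝ (fun z => (G e z v' w).re) y a = (fderiv ℝ (fun z => G e z v' w) y a).re := by
      have h4 : fderiv ℝ (fun z => (G e z v' w).re) y = _ := h1.fderiv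
      rw [h4]
      rfl
    rw [← h3, h2, Complex.add_re]
  apply Complex.ext
  · exact hre v
  · have h1 := hre ((-Complex.I) • v)
    have h2 : fderiv ℝ (fun z => G e z ((-Complex.I) • v) w) y a =
        (-Complex.I) * fderiv ℝ (fun z => G e z v w) y a := by
      have hd : DifferentiableAt ℝ (fun z => G e z v w) y :=
        ((hG.smooth e he v w).differentiableOn (by simp)).differentiableAt
          (e.open_target.mem_nhds hy)
      have h3 : (fun z => G e z ((-Complex.I) • v) w) =ᶠ[𝓝 y] fun z => (-Complex.I) * G e z v w := by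
        filter_upwards [e.open_target.mem_nhds hy] with z hz
        exact (G_sesq hG he hz).smul _ _ _
      rw [h3.fderiv_eq, fderiv_const_mul hd]
      rfl
    rw [h2, Gam_smul_right hG he hy, hs.smul, hs.smul] at h1
    simpa using h1

/-! ### integrals -/

theorem GE5_prim {E : Type} [NormedAddCommGroup E] [NormedSpace ℝ E] [CompleteSpace E]
    {f : ℝ → E} {a b : ℝ} (hab : a ≤ b) (hf : ContinuousOn f (Icc a b)) :
    ∀ t ∈ Icc a b, HasDerivWithinAt (fun t => ∫ s in a..t, f s) (f t) (Icc a b) t := by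
  intro t ht
  have hg : Continuous (IccExtend hab (fun x : Icc a b => f x)) :=
    (continuousOn_iff_continuous_domRestrict.1 hf).Icc_extend'
  have hgf : ∀ s ∈ Icc a b, IccExtend hab (fun x : Icc a b => f x) s = f s := by
    intro s hs
    rw [IccExtend_of_mem _ _ hs]
  have h1 := (hg.integral_hasStrictDerivAt a t).hasDerivAt.hasDerivWithinAt (s := Icc a b)
  rw [hgf t ht] at h1
  refine h1.congr (fun s hs => ?_) ?_
  · apply intervalIntegral.integral_congr
    intro r hr
    rw [uIcc_of_le hs.1] at hr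
    exact (hgf r ⟨hr.1, hr.2.trans hs.2⟩).symm
  · apply intervalIntegral.integral_congr
    intro r hr
    rw [uIcc_of_le ht.1] at hr
    exact (hgf r ⟨hr.1, hr.2.trans ht.2⟩).symm

theorem GE5_ii {a b : ℝ} (hab : a ≤ b) {Φ : ℝ × V n → ℝ}
    (hΦ : ContinuousOn Φ (Icc a b ×ˢ univ)) {q : ℝ → V n} (hq : Measurable q) {K : ℝ}
    (hK : ∀ᵐ t ∂volume, t ∈ Ioo a b → ‖q t‖ ≤ K) :
    IntervalIntegrable (fun t => Φ (t, q t)) volume a b := by
  rw [intervalIntegrable_iff_integrableOn_Ioo_of_le hab]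
  obtain ⟨C, hC⟩ := (isCompact_Icc.prod (isCompact_closedBall (0 : V n) K)).exists_bound_of_continuousOn
    (hΦ.mono (prod_mono_right (subset_univ _)))
  have hS : MeasurableSet (Icc a b ×ˢ (univ : Set (V n))) := measurableSet_Icc.prod MeasurableSet.univ
  have hmq : Measurable (fun t => (t, q t)) := measurable_id.prodMk hq
  have hmeas : AEStronglyMeasurable (fun t => Φ (t, q t)) (volume.restrict (Ioo a b)) := by
    have h1 : AEStronglyMeasurable Φ
        ((Measure.map (fun t => (t, q t)) (volume.restrict (Ioo a b))).restrict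
          (Icc a b ×ˢ (univ : Set (V n)))) := hΦ.aestronglyMeasurable hS
    have h2 : (Measure.map (fun t => (t, q t)) (volume.restrict (Ioo a b))).restrict
          (Icc a b ×ˢ (univ : Set (V n))) =
        Measure.map (fun t => (t, q t)) (volume.restrict (Ioo a b)) := by
      rw [Measure.restrict_map hmq hS]
      congr 1
      rw [Measure.restrict_restrict (hmq hS)]
      congr 1
      ext t
      simp only [mem_inter_iff, mem_preimage, mem_prod, mem_univ, and_true, mem_Icc, mem_Ioo]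
      constructor
      · exact fun h => h.2
      · exact fun h => ⟨⟨h.1.le, h.2.le⟩, h⟩
    rw [h2] at h1
    exact h1.comp_measurable hmq
  refine IntegrableOn.of_bound (by simp) hmeas C ?_
  rw [ae_restrict_iff' measurableSet_Ioo]
  filter_upwards [hK] with t ht htI
  exact hC (t, q t) ⟨⟨htI.1.le, htI.2.le⟩, by simpa using ht htI⟩

/-! ### continuity -/

theorem GE5_cont1 (hG : IsHermMetric G) {e : OpenPartialHomeomorph X (V n)}
    (he : e ∈ atlas (V n) X) {a b : ℝ} {y : ℝ → V n} (hy : ContinuousOn y (Icc a b))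
    (hyt : ∀ t ∈ Icc a b, y t ∈ e.target) (c : V n) :
    ContinuousOn (fun z : ℝ × V n => (G e (y z.1) c z.2).re) (Icc a b ×ˢ univ) := by
  have hfst : ContinuousOn (fun z : ℝ × V n => y z.1) (Icc a b ×ˢ univ) :=
    hy.comp continuous_fst.continuousOn fun z hz => hz.1
  have h1 := KB.Sesq.continuousOn (S := Icc a b ×ˢ (univ : Set (V n)))
    (A := fun z : ℝ × V n => G e (y z.1)) (a := fun _ => c) (b := fun z => z.2)
    (fun z hz => G_sesq hG he (hyt _ hz.1))
    (fun v w => (hG.smooth e he v w).continuousOn.comp hfst fun z hz => hyt _ hz.1)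
    continuousOn_const continuous_snd.continuousOn
  exact Complex.continuous_re.comp_continuousOn h1

theorem GE5_gam_sum (hG : IsHermMetric G) {e : OpenPartialHomeomorph X (V n)}
    (he : e ∈ atlas (V n) X) {y : V n} (hy : y ∈ e.target) (v c : V n) :
    Gam G e y v c = ∑ i, v i • Gam G e y (KB.bv i) c := by
  let L : V n →ₗ[ℂ] V n :=
    { toFun := fun a => Gam G e y a c
      map_add' := fun a a' => Gam_add_left hG he hy a a' c
      map_smul' := fun t a => Gam_smul_left hG he hy t a c }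
  have h1 : L v = ∑ i, v i • L (KB.bv i) := by
    conv_lhs => rw [KB.sum_bv v]
    rw [map_sum]
    simp only [map_smul]
  exact h1

theorem GE5_cont2 (hG : IsHermMetric G) {e : OpenPartialHomeomorph X (V n)}
    (he : e ∈ atlas (V n) X) {a b : ℝ} {y : ℝ → V n} (hy : ContinuousOn y (Icc a b))
    (hyt : ∀ t ∈ Icc a b, y t ∈ e.target) (c : V n) :
    ContinuousOn (fun z : ℝ × V n => (G e (y z.1) (Gam G e (y z.1) z.2 c) z.2).re)
      (Icc a b ×ˢ univ) := by
  have hfst : ContinuousOn (fun z : ℝ × V n => y z.1) (Icc a b ×ˢ univ) :=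
    hy.comp continuous_fst.continuousOn fun z hz => hz.1
  have hgam : ContinuousOn (fun z : ℝ × V n => Gam G e (y z.1) z.2 c) (Icc a b ×ˢ univ) := by
    have h2 : ContinuousOn (fun z : ℝ × V n => ∑ i, z.2 i • Gam G e (y z.1) (KB.bv i) c)
        (Icc a b ×ˢ univ) := by
      refine continuousOn_finsetSum _ fun i _ => ContinuousOn.fun_smul ?_ ?_
      · exact ((EuclideanSpace.proj i : V n →L[ℂ] ℂ).continuous.comp continuous_snd).continuousOn
      · exact (Gam_smooth hG he (KB.bv i) c).continuousOn.comp hfst fun z hz => hyt _ hz.1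
    exact h2.congr fun z hz => GE5_gam_sum hG he (hyt _ hz.1) z.2 c
  have h1 := KB.Sesq.continuousOn (S := Icc a b ×ˢ (univ : Set (V n)))
    (A := fun z : ℝ × V n => G e (y z.1)) (a := fun z => Gam G e (y z.1) z.2 c) (b := fun z => z.2)
    (fun z hz => G_sesq hG he (hyt _ hz.1))
    (fun v w => (hG.smooth e he v w).continuousOn.comp hfst fun z hz => hyt _ hz.1)
    hgam continuous_snd.continuousOn
  exact Complex.continuous_re.comp_continuousOn h1

theorem GE5_dbr [IsManifold 𝓘(ℂ, V n) ω X] (ctx : Ctx G) {σ : ℝ → X} {ℓ : ℝ}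
    (hσ : IsMGeod σ ℓ) {a b : ℝ} (ha : 0 ≤ a) (hab : a < b) (hb : b ≤ ℓ)
    {e : OpenPartialHomeomorph X (V n)} (he : e ∈ atlas (V n) X)
    (hmem : ∀ t ∈ Icc a b, σ t ∈ e.source) {y : ℝ → V n} (hy : y = fun t => e (σ t))
    {K : ℝ} (hqb : ∀ᵐ t ∂volume, t ∈ Ioo a b → ‖deriv y t‖ ≤ K) (hyc : ContinuousOn y (Icc a b))
    (c : V n) :
    ∃ c₀ : ℝ, ∀ᵐ t ∂volume, t ∈ Ioo a b → (G e (y t) c (deriv y t)).re =
      c₀ + ∫ s in a..t, (G e (y s) (Gam G e (y s) (deriv y s) c) (deriv y s)).re := by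
  have hG := ctx.herm
  have hyt : ∀ t ∈ Icc a b, y t ∈ e.target := by
    intro t ht
    rw [hy]
    exact e.map_source (hmem t ht)
  have hq : Measurable (deriv y) := measurable_deriv y
  refine du_bois_reymond hab (GE5_ii hab.le (GE5_cont1 hG he hyc hyt c) hq hqb)
    (GE5_ii hab.le (GE5_cont2 hG he hyc hyt c) hq hqb) fun ϕ hϕ hϕs => ?_
  have hφ : ContDiff ℝ ∞ (fun t => ϕ t • c) := hϕ.smul contDiff_const
  have hφs : tsupport (fun t => ϕ t • c) ⊆ Ioo a b :=
    (tsupport_smul_subset_left ϕ (fun _ => c)).trans hϕs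
  have h1 := weak_geod ctx hσ ha hab hb he hmem hφ hφs
  rw [← hy] at h1
  rw [← h1]
  apply intervalIntegral.integral_congr
  intro t ht
  rw [uIcc_of_le hab.le] at ht
  have hs := G_sesq hG he (hyt t ht)
  have h2 : deriv (fun t => ϕ t • c) t = deriv ϕ t • c :=
    ((hϕ.differentiable (by simp) t).hasDerivAt.smul_const c).deriv
  have hyt' : e (σ t) = y t := by rw [hy]
  simp only [hyt']
  rw [h2]
  have h3 : (deriv ϕ t • c : V n) = ((deriv ϕ t : ℝ) : ℂ) • c := (Complex.coe_smul _ _).symm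
  have h4 : (ϕ t • c : V n) = ((ϕ t : ℝ) : ℂ) • c := (Complex.coe_smul _ _).symm
  rw [h3, h4, Gam_smul_right hG he (hyt t ht), hs.add, hs.smul, hs.smul, Complex.add_re,
    Complex.re_ofReal_mul, Complex.re_ofReal_mul]

/-- metric geodesics are unit speed geodesics in charts -/
theorem mgeod_chart [IsManifold 𝓘(ℂ, V n) ω X] (ctx : Ctx G) {σ : ℝ → X} {ℓ : ℝ}
    (hσ : IsMGeod σ ℓ) {a b : ℝ} (ha : 0 ≤ a) (hab : a < b) (hb : b ≤ ℓ)
    {e : OpenPartialHomeomorph X (V n)} (he : e ∈ atlas (V n) X)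
    (hmem : ∀ t ∈ Icc a b, σ t ∈ e.source) :
    ∃ p : ℝ → V n, IsGeodOn G e (fun t => e (σ t)) p a b := by
  obtain ⟨y, hy⟩ : ∃ y : ℝ → V n, y = fun t => e (σ t) := ⟨_, rfl⟩
  rw [← hy]
  have hG := ctx.herm
  have hyt : ∀ t ∈ Icc a b, y t ∈ e.target := by
    intro t ht
    rw [hy]
    exact e.map_source (hmem t ht)
  obtain ⟨K, hK⟩ := mg_lip ctx hσ ha hab hb he hmem
  have hsp := mg_speed ctx hσ ha hab hb he hmem
  have hone := energy_one ctx hσ ha hab hb he hmem
  rw [← hy] at hK hsp hone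
  have hyc : ContinuousOn y (Icc a b) := hK.continuousOn
  have hq : Measurable (deriv y) := measurable_deriv y
  have hqb : ∀ᵐ t ∂volume, t ∈ Ioo a b → ‖deriv y t‖ ≤ (K : ℝ) :=
    ae_of_all _ fun t ht => norm_deriv_le_of_lipschitzOn (Icc_mem_nhds ht.1 ht.2) hK
  have hmi : ∀ c, IntervalIntegrable
      (fun t => (G e (y t) (Gam G e (y t) (deriv y t) c) (deriv y t)).re) volume a b :=
    fun c => GE5_ii hab.le (GE5_cont2 hG he hyc hyt c) hq hqb
  choose c₀ hc₀ using GE5_dbr ctx hσ ha hab hb he hmem hy hqb hyc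
  -- the right sides
  obtain ⟨R, hR⟩ : ∃ R : V n → ℝ → ℝ, R = fun c t => c₀ c +
      ∫ s in a..t, (G e (y s) (Gam G e (y s) (deriv y s) c) (deriv y s)).re := ⟨_, rfl⟩
  have hRq : ∀ c, ∀ᵐ t ∂volume, t ∈ Ioo a b → (G e (y t) c (deriv y t)).re = R c t := by
    intro c
    rw [hR]
    exact hc₀ c
  have hRc : ∀ c, ContinuousOn (R c) (Icc a b) := by
    intro c
    have h1 := intervalIntegral.continuousOn_primitive_interval' (hmi c) left_mem_uIcc
    rw [uIcc_of_le hab.le] at h1
    rw [hR]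
    exact continuousOn_const.add h1
  obtain ⟨β, hβ⟩ : ∃ β : ℝ → V n, β = fun t => ∑ j, ((R (KB.bv j) t : ℂ) +
      (R (Complex.I • KB.bv j) t : ℂ) * Complex.I) • (KB.bv j : V n) := ⟨_, rfl⟩
  have hco : ∀ (x : Fin n → ℂ) (j : Fin n), (∑ i, x i • (KB.bv i : V n)) j = x j := by
    intro x j
    have hs : ∀ f : Fin n → V n, (∑ i, f i) j = ∑ i, f i j := fun f =>
      map_sum (EuclideanSpace.proj j : V n →L[ℂ] ℂ) f Finset.univ
    rw [hs, Finset.sum_eq_single j]
    · simp [KB.bv]
    · intro k _ hk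
      simp [KB.bv, hk.symm]
    · simp
  have hβj : ∀ t j, β t j = (R (KB.bv j) t : ℂ) + (R (Complex.I • KB.bv j) t : ℂ) * Complex.I := by
    intro t j
    rw [hβ]
    exact hco _ j
  have hβc : ContinuousOn β (Icc a b) := by
    rw [hβ]
    refine continuousOn_finsetSum _ fun j _ => ContinuousOn.fun_smul ?_ continuousOn_const
    exact (Complex.continuous_ofReal.comp_continuousOn (hRc _)).add
      ((Complex.continuous_ofReal.comp_continuousOn (hRc _)).mul continuousOn_const)
  have hU : ∀ t ∈ Icc a b, IsUnit (GE5_A (G e (y t))) := fun t ht =>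
    GE5_A_unit (G_sesq hG he (hyt t ht)) (hG.pos e he _ (hyt t ht))
  obtain ⟨p, hp⟩ : ∃ p : ℝ → V n, p = fun t => Ring.inverse (GE5_A (G e (y t))) (β t) := ⟨_, rfl⟩
  have hAp : ∀ t ∈ Icc a b, GE5_A (G e (y t)) (p t) = β t := by
    intro t ht
    rw [hp]
    show (GE5_A (G e (y t)) * Ring.inverse (GE5_A (G e (y t)))) (β t) = β t
    rw [Ring.mul_inverse_cancel _ (hU t ht)]
    rfl
  have hGp : ∀ t ∈ Icc a b, ∀ j, G e (y t) (p t) (KB.bv j) =
      (R (KB.bv j) t : ℂ) + (R (Complex.I • KB.bv j) t : ℂ) * Complex.I := by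
    intro t ht j
    rw [← GE5_A_apply (G_sesq hG he (hyt t ht)), hAp t ht, hβj]
  -- `p` is the velocity almost everywhere
  have hpq : ∀ᵐ t ∂volume, t ∈ Ioo a b → p t = deriv y t := by
    have h1 : ∀ᵐ t ∂volume, ∀ j : Fin n, t ∈ Ioo a b →
        (G e (y t) (KB.bv j) (deriv y t)).re = R (KB.bv j) t :=
      ae_all_iff.2 fun j => hRq _
    have h2 : ∀ᵐ t ∂volume, ∀ j : Fin n, t ∈ Ioo a b →
        (G e (y t) (Complex.I • KB.bv j) (deriv y t)).re = R (Complex.I • KB.bv j) t :=
      ae_all_iff.2 fun j => hRq _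
    filter_upwards [h1, h2] with t h1 h2 ht
    have htI : t ∈ Icc a b := ⟨ht.1.le, ht.2.le⟩
    have hs := G_sesq hG he (hyt t htI)
    have h3 : p t - deriv y t = 0 := by
      apply GE5_eq_zero hs (hG.pos e he _ (hyt t htI))
      intro j
      rw [hs.sub_left, hGp t htI j, ← h1 j ht, ← h2 j ht, hs.smul, hs.symm (KB.bv j) (deriv y t)]
      apply Complex.ext <;> simp
    exact sub_eq_zero.1 h3
  have hpc : ContinuousOn p (Icc a b) := by
    rw [hp]
    have h1 : ContinuousOn (fun t => GE5_A (G e (y t))) (Icc a b) :=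
      (GE5_A_smooth hG he).continuousOn.comp hyc hyt
    have h2 : ContinuousOn (fun t => Ring.inverse (GE5_A (G e (y t)))) (Icc a b) := by
      intro t ht
      obtain ⟨u, hu⟩ := hU t ht
      have h3 : ContinuousAt Ring.inverse (GE5_A (G e (y t))) := by
        rw [← hu]
        exact NormedRing.inverse_continuousAt u
      exact ContinuousAt.comp_continuousWithinAt (f := fun t => GE5_A (G e (y t))) h3 (h1 t ht)
    exact h2.clm_apply hβc
  have hpq' : ∀ᵐ t ∂volume, t ∈ Icc a b → p t = deriv y t := by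
    have h1 : ∀ᵐ t : ℝ ∂volume, t ≠ a := Measure.ae_ne volume a
    have h2 : ∀ᵐ t : ℝ ∂volume, t ≠ b := Measure.ae_ne volume b
    filter_upwards [hpq, h1, h2] with t h3 h1 h2 ht
    exact h3 ⟨lt_of_le_of_ne ht.1 h1.symm, lt_of_le_of_ne ht.2 h2⟩
  -- velocity
  have hz := GE5_prim hab.le hpc
  have hvel : ∀ t ∈ Icc a b, HasDerivWithinAt y (p t) (Icc a b) t := by
    have hac1 : AbsolutelyContinuousOnInterval y a b := by
      apply LipschitzOnWith.absolutelyContinuousOnInterval (K := K)
      rw [uIcc_of_le hab.le]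
      exact hK
    obtain ⟨C, hC⟩ := isCompact_Icc.exists_bound_of_continuousOn hpc
    have hac2 : AbsolutelyContinuousOnInterval (fun t => ∫ s in a..t, p s) a b := by
      apply LipschitzOnWith.absolutelyContinuousOnInterval (K := Real.toNNReal C)
      rw [uIcc_of_le hab.le]
      refine (convex_Icc a b).lipschitzOnWith_of_nnnorm_hasDerivWithin_le hz fun t ht => ?_
      rw [← NNReal.coe_le_coe, coe_nnnorm]
      exact (hC t ht).trans (Real.le_coe_toNNReal C)
    have hae : ∀ᵐ t ∂volume, t ∈ uIcc a b →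
        HasDerivAt (fun t => y t - ∫ s in a..t, p s) 0 t := by
      have h1 : ∀ᵐ t : ℝ ∂volume, t ≠ a := Measure.ae_ne volume a
      have h2 : ∀ᵐ t : ℝ ∂volume, t ≠ b := Measure.ae_ne volume b
      filter_upwards [h1, h2, hsp, hpq] with t h1 h2 h3 h4 ht
      rw [uIcc_of_le hab.le] at ht
      have ht' : t ∈ Ioo a b := ⟨lt_of_le_of_ne ht.1 h1.symm, lt_of_le_of_ne ht.2 h2⟩
      have h5 := (h3 ht').1.hasDerivAt
      have h6 := (hz t ht).hasDerivAt (Icc_mem_nhds ht'.1 ht'.2)
      rw [h4 ht'] at h6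
      have h7 := h5.sub h6
      rw [sub_self] at h7
      exact h7
    obtain ⟨c, hc⟩ := (hac1.fun_sub hac2).const_of_ae_hasDerivAt_zero hae
    rw [uIcc_of_le hab.le] at hc
    intro t ht
    refine ((hz t ht).const_add c).congr (fun s hs => ?_) ?_
    · rw [← hc s hs]
      abel
    · rw [← hc t ht]
      abel
  -- the right sides are differentiable
  have hmc : ∀ c, ContinuousOn (fun t => (G e (y t) (Gam G e (y t) (p t) c) (p t)).re) (Icc a b) :=
    fun c => (GE5_cont2 hG he hyc hyt c).comp (continuousOn_id.prodMk hpc)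
      fun t ht => ⟨ht, mem_univ _⟩
  have hRd : ∀ c, ∀ t ∈ Icc a b,
      HasDerivWithinAt (R c) (G e (y t) (Gam G e (y t) (p t) c) (p t)).re (Icc a b) t := by
    intro c t ht
    have h1 := (GE5_prim hab.le (hmc c) t ht).const_add (c₀ c)
    have h2 : ∀ s ∈ Icc a b, R c s = c₀ c +
        ∫ r in a..s, (G e (y r) (Gam G e (y r) (p r) c) (p r)).re := by
      intro s hs
      rw [hR]
      simp only
      congr 1
      apply intervalIntegral.integral_congr_ae
      filter_upwards [hpq'] with r hr hr'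
      rw [uIoc_of_le hs.1] at hr'
      rw [hr ⟨hr'.1.le, hr'.2.trans hs.2⟩]
    exact h1.congr h2 (h2 t ht)
  have hβd : ∀ t ∈ Icc a b, HasDerivWithinAt β (∑ j,
      (((G e (y t) (Gam G e (y t) (p t) (KB.bv j)) (p t)).re : ℂ) +
      ((G e (y t) (Gam G e (y t) (p t) (Complex.I • KB.bv j)) (p t)).re : ℂ) * Complex.I) •
        (KB.bv j : V n)) (Icc a b) t := by
    intro t ht
    rw [hβ]
    refine HasDerivWithinAt.fun_sum fun j _ => ?_
    have h1 := (hRd (KB.bv j) t ht).ofReal_comp
    have h2 := (hRd (Complex.I • KB.bv j) t ht).ofReal_comp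
    exact (h1.add (h2.mul_const Complex.I)).smul_const (KB.bv j : V n)
  -- the acceleration
  have hacc : ∀ t ∈ Icc a b, HasDerivWithinAt p (-Gam G e (y t) (p t) (p t)) (Icc a b) t := by
    intro t ht
    have hs := G_sesq hG he (hyt t ht)
    have hA1 : HasFDerivAt (fun z => GE5_A (G e z)) (fderiv ℝ (fun z => GE5_A (G e z)) (y t)) (y t) :=
      (((GE5_A_smooth hG he).differentiableOn (by simp)).differentiableAt
        (e.open_target.mem_nhds (hyt t ht))).hasFDerivAt
    have hA2 : HasDerivWithinAt (fun t => GE5_A (G e (y t)))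
        (fderiv ℝ (fun z => GE5_A (G e z)) (y t) (p t)) (Icc a b) t :=
      hA1.comp_hasDerivWithinAt t (hvel t ht)
    obtain ⟨d, hd⟩ : ∃ d, HasDerivWithinAt p d (Icc a b) t := by
      have h3 : DifferentiableWithinAt ℝ (fun t => Ring.inverse (GE5_A (G e (y t)))) (Icc a b) t := by
        have h4 : DifferentiableAt ℝ Ring.inverse (GE5_A (G e (y t))) :=
          differentiableAt_inverse (hU t ht)
        exact h4.comp_differentiableWithinAt t hA2.differentiableWithinAt
      have h5 : DifferentiableWithinAt ℝ p (Icc a b) t := by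
        rw [hp]
        exact h3.clm_apply (hβd t ht).differentiableWithinAt
      exact ⟨_, h5.hasDerivWithinAt⟩
    have h6 := hA2.clm_apply hd
    have h7 : HasDerivWithinAt β (fderiv ℝ (fun z => GE5_A (G e z)) (y t) (p t) (p t) +
        GE5_A (G e (y t)) d) (Icc a b) t :=
      h6.congr (fun s hs => (hAp s hs).symm) (hAp t ht).symm
    have h8 := (uniqueDiffOn_Icc hab t ht).eq_deriv _ h7 (hβd t ht)
    have h9 : Gam G e (y t) (p t) (p t) + d = 0 := by
      apply GE5_eq_zero hs (hG.pos e he _ (hyt t ht))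
      intro j
      have h10 := congrArg (fun v : V n => v j) h8
      simp only [PiLp.add_apply] at h10
      rw [hco, GE5_A_apply hs] at h10
      have h11 : (fderiv ℝ (fun z => GE5_A (G e z)) (y t) (p t) (p t)) j =
          fderiv ℝ (fun z => G e z (p t) (KB.bv j)) (y t) (p t) := by
        have h12 : HasFDerivAt (fun z => GE5_A (G e z) (p t) j)
            (((EuclideanSpace.proj j : V n →L[ℂ] ℂ).restrictScalars ℝ).comp
              ((ContinuousLinearMap.apply ℝ (V n) (p t)).comp
                (fderiv ℝ (fun z => GE5_A (G e z)) (y t)))) (y t) :=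
          ((EuclideanSpace.proj j : V n →L[ℂ] ℂ).restrictScalars ℝ).hasFDerivAt.comp _
            ((ContinuousLinearMap.apply ℝ (V n) (p t)).hasFDerivAt.comp _ hA1)
        have h13 : (fun z => GE5_A (G e z) (p t) j) =ᶠ[𝓝 (y t)] fun z => G e z (p t) (KB.bv j) := by
          filter_upwards [e.open_target.mem_nhds (hyt t ht)] with z hz
          exact GE5_A_apply (G_sesq hG he hz) _ _
        rw [← h13.fderiv_eq, h12.fderiv]
        rfl
      rw [h11, GE5_fd hG he (hyt t ht)] at h10
      have h14 : (((G e (y t) (Gam G e (y t) (p t) (KB.bv j)) (p t)).re : ℂ) +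
          ((G e (y t) (Gam G e (y t) (p t) (Complex.I • KB.bv j)) (p t)).re : ℂ) * Complex.I) =
          G e (y t) (p t) (Gam G e (y t) (p t) (KB.bv j)) := by
        rw [Gam_smul_right hG he (hyt t ht), hs.smul,
          hs.symm (Gam G e (y t) (p t) (KB.bv j)) (p t)]
        apply Complex.ext <;> simp
      rw [h14] at h10
      rw [hs.add]
      linear_combination h10
    have h15 : d = -Gam G e (y t) (p t) (p t) := by
      rw [eq_neg_iff_add_eq_zero, add_comm]
      exact h9
    rw [← h15]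
    exact hd
  refine ⟨p, hyt, hvel, hacc, ?_⟩
  -- unit speed
  have h1 : ContinuousOn (fun t => (G e (y t) (p t) (p t)).re) (Icc a b) :=
    Complex.continuous_re.comp_continuousOn (KB.Sesq.continuousOn (S := Icc a b)
      (A := fun t => G e (y t)) (a := p) (b := p) (fun t ht => G_sesq hG he (hyt t ht))
      (fun v w => (hG.smooth e he v w).continuousOn.comp hyc hyt) hpc hpc)
  have h2 : (fun t => (G e (y t) (p t) (p t)).re) =ᵐ[volume.restrict (Icc a b)] fun _ => 1 := by
    rw [Filter.EventuallyEq, ae_restrict_iff' measurableSet_Icc]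
    have h3 : ∀ᵐ t : ℝ ∂volume, t ≠ a := Measure.ae_ne volume a
    have h4 : ∀ᵐ t : ℝ ∂volume, t ≠ b := Measure.ae_ne volume b
    filter_upwards [h3, h4, hone, hpq] with t h3 h4 h5 h6 ht
    have ht' : t ∈ Ioo a b := ⟨lt_of_le_of_ne ht.1 h3.symm, lt_of_le_of_ne ht.2 h4⟩
    rw [h6 ht', ← h5 ht', hy]
  exact Measure.eqOn_Icc_of_ae_eq volume hab.ne h2 h1 continuousOn_const

end KI
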