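import Mathlib

/-! # HRM, MGD: Hopf-Rinow for length spaces (Mathlib only)

`IsLen X`: approximate intermediate points exist.
(proper) Fix `p`, `S = {r | IsCompact (closedBall p r)}`; `0 ∈ S`, `S` is downward closed. Suppose it is not
everything; then it is bounded above; `R = sSup S`. (i) `closedBall p R` is compact: it is closed in a complete
space, and totally bounded: given `ε > 0`, `closedBall p (R - ε/4)` is compact (if `R - ε/4 < 0` treat the ball of
radius `ε/2` about `p` directly: `R < ε/4`), covered by finitely many balls of radius `ε/2`; every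
`y ∈ closedBall p R` is within `ε/2` of a point of `closedBall p (R - ε/4)` (`IsLen` between `p` and `y`, with
`t = dist p y - 3ε/8` or `t = 0`, and tolerance `ε/16`). (ii) `K = closedBall p R` compact, locally compact space:
there is `K'` compact with `K ⊆ interior K'` (`exists_compact_superset`), `δ > 0` with
`Metric.cthickening δ K ⊆ interior K'` (`IsCompact.exists_cthickening_subset_open`), and
`closedBall p (R + δ/2) ⊆ cthickening δ K` by `IsLen`, so it is compact (closed in `K'`): contradiction with
`R = sSup S`. (`ProperSpace` from compactness of all balls about `p`: `ProperSpace.of_isCompact_closedBall_of_le`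
or all points are treated in the same way.)
(geod) For `N ≥ 1` there is a chain `x = z_0, …, z_N = q` with `dist z_i z_{i+1} ≤ ℓ/N + 1/N^2` (iterate
`IsLen` with tiny tolerance, induction: keep `dist z_i q ≤ ℓ - i ℓ/N + i η`). Let `σ_N s = z_{⌊s N/ℓ⌋}` (`ℓ > 0`;
`min` with `N`); all points are in the compact set `closedBall x (ℓ + 1)`. Take a nonprincipal ultrafilter `𝒰` on
`ℕ` (`Filter.hyperfilter ℕ`) and `σ s = lim_𝒰 σ_N s` (`IsCompact.ultrafilter_le_nhds`). Then
`dist (σ s) (σ t) ≤ |s - t|`, `σ 0 = x`, `σ ℓ = q`, `dist x q = ℓ`, so equality holds. If `ℓ = 0`, constant. -/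

set_option autoImplicit false

namespace KI

open Metric Set Filter Topology

/-- approximate intermediate points exist -/
def IsLen (X : Type) [MetricSpace X] : Prop :=
  ∀ (x y : X) (t ε : ℝ), 0 ≤ t → t ≤ dist x y → 0 < ε →
    ∃ z, dist x z ≤ t + ε ∧ dist z y ≤ dist x y - t + ε

theorem proper_of_isLen {X : Type} [MetricSpace X] [CompleteSpace X] [LocallyCompactSpace X]
    (h : IsLen X) : ProperSpace X := by
  refine ⟨fun p r₁ => ?_⟩
  by_contra hr₁
  set S : Set ℝ := {r | IsCompact (closedBall p r)} with hS
  have hmono : ∀ r s, r ≤ s → s ∈ S → r ∈ S := by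
    intro r s hrs hs
    have hs' : IsCompact (closedBall p s) := hs
    exact hs'.of_isClosed_subset isClosed_closedBall (closedBall_subset_closedBall hrs)
  have h0 : (0 : ℝ) ∈ S := by
    change IsCompact (closedBall p 0)
    rw [closedBall_zero]
    exact isCompact_singleton
  have hbdd : BddAbove S := by
    refine ⟨r₁, fun s hs => ?_⟩
    by_contra hlt
    push Not at hlt
    exact hr₁ (hmono r₁ s hlt.le hs)
  set R := sSup S with hR
  have hR0 : 0 ≤ R := le_csSup hbdd h0
  -- compactness at R
  have hRS : R ∈ S := by
    change IsCompact (closedBall p R)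
    refine TotallyBounded.isCompact_of_isClosed ?_ isClosed_closedBall
    rw [Metric.totallyBounded_iff]
    intro ε hε
    have hr' : IsCompact (closedBall p (max 0 (R - ε / 4))) := by
      by_cases hc : R - ε / 4 ≤ 0
      · rw [max_eq_left hc]
        exact h0
      · push Not at hc
        rw [max_eq_right hc.le]
        obtain ⟨s, hs, hs2⟩ := exists_lt_of_lt_csSup ⟨0, h0⟩ (show R - ε / 4 < sSup S by linarith)
        exact hmono _ s hs2.le hs
    obtain ⟨t, ht, hcov⟩ := (Metric.totallyBounded_iff.1 hr'.totallyBounded) (ε / 2) (by linarith)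
    refine ⟨t, ht, fun y hy => ?_⟩
    have hz : ∃ z ∈ closedBall p (max 0 (R - ε / 4)), dist z y < ε / 2 := by
      rw [mem_closedBall, dist_comm] at hy
      by_cases hc : dist p y ≤ 3 * ε / 8
      · refine ⟨p, ?_, by linarith⟩
        rw [mem_closedBall, dist_self]
        exact le_max_left _ _
      · push Not at hc
        obtain ⟨z, hz1, hz2⟩ := h p y (dist p y - 3 * ε / 8) (ε / 16) (by linarith) (by linarith)
          (by linarith)
        refine ⟨z, ?_, by linarith⟩
        rw [mem_closedBall, dist_comm]
        exact le_max_of_le_right (by linarith)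
    obtain ⟨z, hz1, hz2⟩ := hz
    have hz3 := hcov hz1
    rw [mem_iUnion₂] at hz3 ⊢
    obtain ⟨w, hw, hzw⟩ := hz3
    refine ⟨w, hw, ?_⟩
    rw [mem_ball] at hzw ⊢
    have htri := dist_triangle y z w
    rw [dist_comm y z] at htri
    linarith
  have hK : IsCompact (closedBall p R) := hRS
  obtain ⟨K', hK', hKK'⟩ := exists_compact_superset hK
  obtain ⟨δ, hδ, hδK⟩ := hK.exists_cthickening_subset_open isOpen_interior hKK'
  have hsub : closedBall p (R + δ / 2) ⊆ cthickening δ (closedBall p R) := by
    intro y hy
    rw [mem_closedBall, dist_comm] at hy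
    by_cases hc : R ≤ δ / 4
    · refine mem_cthickening_of_dist_le y p δ _ (mem_closedBall_self hR0) ?_
      rw [dist_comm]
      linarith
    · push Not at hc
      by_cases hc2 : dist p y ≤ R
      · refine mem_cthickening_of_dist_le y y δ _ ?_ ?_
        · rw [mem_closedBall, dist_comm]; exact hc2
        · rw [dist_self]; exact hδ.le
      · push Not at hc2
        obtain ⟨z, hz1, hz2⟩ := h p y (R - δ / 4) (δ / 8) (by linarith) (by linarith)
          (by linarith)
        refine mem_cthickening_of_dist_le y z δ _ ?_ ?_
        · rw [mem_closedBall, dist_comm]; linarith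
        · rw [dist_comm]; linarith
  have hnew : R + δ / 2 ∈ S := by
    change IsCompact (closedBall p (R + δ / 2))
    exact hK'.of_isClosed_subset isClosed_closedBall ((hsub.trans hδK).trans interior_subset)
  have := le_csSup hbdd hnew
  linarith

end KI
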