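import Pool.Agent.H49.KI.HRM

/-! # MGD: metric geodesics exist in proper length spaces (see the header of HRM.lean, part (geod)) -/

set_option autoImplicit false

namespace KI

open Metric Set Filter Topology

/-- exact intermediate points -/
theorem MGD_exact {X : Type} [MetricSpace X] [ProperSpace X] (h : IsLen X) (x y : X) (t : ℝ)
    (ht : 0 ≤ t) (ht' : t ≤ dist x y) : ∃ z, dist x z = t ∧ dist z y = dist x y - t := by
  have hex : ∀ n : ℕ, ∃ z, dist x z ≤ t + 1 / ((n : ℝ) + 1) ∧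
      dist z y ≤ dist x y - t + 1 / ((n : ℝ) + 1) := fun n =>
    h x y t (1 / ((n : ℝ) + 1)) ht ht' (by positivity)
  choose z hz1 hz2 using hex
  have hK : IsCompact (closedBall x (t + 1)) := isCompact_closedBall x (t + 1)
  have hmem : ∀ n, z n ∈ closedBall x (t + 1) := by
    intro n
    rw [mem_closedBall, dist_comm]
    refine (hz1 n).trans ?_
    have : 1 / ((n : ℝ) + 1) ≤ 1 := by
      rw [div_le_one (by positivity)]
      have : (0 : ℝ) ≤ n := Nat.cast_nonneg n
      linarith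
    linarith
  obtain ⟨a, -, φ, hφ, hlim⟩ := hK.tendsto_subseq hmem
  have h0 : Tendsto (fun n : ℕ => 1 / (((φ n : ℕ) : ℝ) + 1)) atTop (𝓝 0) :=
    (tendsto_one_div_add_atTop_nhds_zero_nat (𝕜 := ℝ)).comp hφ.tendsto_atTop
  have h1 : dist x a ≤ t := by
    have e1 : Tendsto (fun n => dist x (z (φ n))) atTop (𝓝 (dist x a)) :=
      tendsto_const_nhds.dist hlim
    have e2 : Tendsto (fun n : ℕ => t + 1 / (((φ n : ℕ) : ℝ) + 1)) atTop (𝓝 (t + 0)) :=
      tendsto_const_nhds.add h0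
    rw [add_zero] at e2
    exact le_of_tendsto_of_tendsto' e1 e2 (fun n => hz1 (φ n))
  have h2 : dist a y ≤ dist x y - t := by
    have e1 : Tendsto (fun n => dist (z (φ n)) y) atTop (𝓝 (dist a y)) :=
      hlim.dist tendsto_const_nhds
    have e2 : Tendsto (fun n : ℕ => dist x y - t + 1 / (((φ n : ℕ) : ℝ) + 1)) atTop
        (𝓝 (dist x y - t + 0)) := tendsto_const_nhds.add h0
    rw [add_zero] at e2
    exact le_of_tendsto_of_tendsto' e1 e2 (fun n => hz2 (φ n))
  have h3 := dist_triangle x a y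
  exact ⟨a, by linarith, by linarith⟩

/-- the chain with `N` steps -/
theorem MGD_chain {X : Type} [MetricSpace X] [ProperSpace X] (h : IsLen X) (x q : X) (N : ℕ)
    (hN : 0 < N) : ∃ z : ℕ → X, z 0 = x ∧ z N = q ∧ ∀ i ≤ N, ∀ j ≤ N,
      dist (z i) (z j) = |(i : ℝ) - (j : ℝ)| * (dist x q / N) := by
  have hNr : (0 : ℝ) < N := by exact_mod_cast hN
  set η : ℝ := dist x q / N with hη
  have hη0 : 0 ≤ η := by positivity
  have hNη : N * η = dist x q := by rw [hη]; field_simp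
  have hex : ∀ a : X, ∃ z, η ≤ dist a q → dist a z = η ∧ dist z q = dist a q - η := by
    intro a
    by_cases hle : η ≤ dist a q
    · obtain ⟨z, hz⟩ := MGD_exact h a q η hη0 hle
      exact ⟨z, fun _ => hz⟩
    · exact ⟨a, fun hh => absurd hh hle⟩
  choose f hf using hex
  let z : ℕ → X := fun i => Nat.rec x (fun _ a => f a) i
  have hz0 : z 0 = x := rfl
  have hzs : ∀ i, z (i + 1) = f (z i) := fun i => rfl
  have hq : ∀ i ≤ N, dist (z i) q = dist x q - i * η := by
    intro i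
    induction i with
    | zero => intro _; rw [hz0]; simp
    | succ i ih =>
      intro hi
      have e1 := ih (by omega)
      have hle : η ≤ dist (z i) q := by
        rw [e1]
        have : ((i : ℝ) + 1) * η ≤ N * η := by
          apply mul_le_mul_of_nonneg_right _ hη0
          exact_mod_cast hi
        rw [hNη] at this
        linarith
      rw [hzs, (hf (z i) hle).2, e1]
      push_cast; ring
  have hstep : ∀ i, i + 1 ≤ N → dist (z i) (z (i + 1)) = η := by
    intro i hi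
    have e1 := hq i (by omega)
    have hle : η ≤ dist (z i) q := by
      rw [e1]
      have : ((i : ℝ) + 1) * η ≤ N * η := by
        apply mul_le_mul_of_nonneg_right _ hη0
        exact_mod_cast hi
      rw [hNη] at this
      linarith
    rw [hzs]
    exact (hf (z i) hle).1
  have hle : ∀ i k, i + k ≤ N → dist (z i) (z (i + k)) ≤ k * η := by
    intro i k
    induction k with
    | zero => intro _; simp
    | succ k ih =>
      intro hk
      have e1 := ih (by omega)
      have e2 := hstep (i + k) (by omega)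
      have e3 := dist_triangle (z i) (z (i + k)) (z (i + k + 1))
      rw [← add_assoc]
      push_cast
      linarith
  have hmain : ∀ i j, i ≤ j → j ≤ N → dist (z i) (z j) = ((j : ℝ) - i) * η := by
    intro i j hij hj
    obtain ⟨k, rfl⟩ := Nat.exists_eq_add_of_le hij
    have e1 := hle i k hj
    have e2 := hq i (by omega)
    have e3 := hq (i + k) hj
    have e4 := dist_triangle (z i) (z (i + k)) q
    push_cast at e3 ⊢
    have e5 : ((i : ℝ) + k - i) * η = k * η := by ring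
    rw [e5]
    have e6 : ((i : ℝ) + k) * η = i * η + k * η := by ring
    rw [e6] at e3
    linarith
  refine ⟨z, hz0, ?_, ?_⟩
  · have e1 := hq N le_rfl
    rw [hNη, sub_self] at e1
    exact dist_eq_zero.1 e1
  · intro i hi j hj
    rcases le_total i j with hij | hij
    · rw [hmain i j hij hj]
      have : (i : ℝ) ≤ j := by exact_mod_cast hij
      rw [abs_of_nonpos (by linarith)]
      ring
    · rw [dist_comm, hmain j i hij hi]
      have : (j : ℝ) ≤ i := by exact_mod_cast hij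
      rw [abs_of_nonneg (by linarith)]

theorem geod_of_isLen {X : Type} [MetricSpace X] [ProperSpace X] (h : IsLen X) (x q : X) :
    ∃ σ : ℝ → X, (∀ s ∈ Icc (0 : ℝ) (dist x q), ∀ t ∈ Icc (0 : ℝ) (dist x q),
      dist (σ s) (σ t) = |s - t|) ∧ σ 0 = x ∧ σ (dist x q) = q := by
  rcases (dist_nonneg (x := x) (y := q)).eq_or_lt with h0 | hpos
  · have hxq : x = q := dist_eq_zero.1 h0.symm
    refine ⟨fun _ => x, ?_, rfl, hxq⟩
    intro s hs t ht
    rw [← h0, Icc_self, mem_singleton_iff] at hs ht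
    rw [hs, ht]; simp
  · set ℓ : ℝ := dist x q with hℓ
    have hex : ∀ N : ℕ, ∃ z : ℕ → X, z 0 = x ∧ (0 < N → z N = q) ∧
        (0 < N → ∀ i ≤ N, ∀ j ≤ N, dist (z i) (z j) = |(i : ℝ) - (j : ℝ)| * (ℓ / N)) := by
      intro N
      by_cases hN : 0 < N
      · obtain ⟨z, hz0, hz1, hz2⟩ := MGD_chain h x q N hN
        exact ⟨z, hz0, fun _ => hz1, fun _ => hz2⟩
      · exact ⟨fun _ => x, rfl, fun hh => absurd hh hN, fun hh => absurd hh hN⟩
    choose z hz0 hz1 hz2 using hex
    let g : ℝ → ℕ → X := fun s N => z N ⌊s / ℓ * (N : ℝ)⌋₊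
    have hfl : ∀ s ∈ Icc (0 : ℝ) ℓ, ∀ N : ℕ, ⌊s / ℓ * (N : ℝ)⌋₊ ≤ N := by
      intro s hs N
      have : s / ℓ * (N : ℝ) ≤ N := by
        have h1 : s / ℓ ≤ 1 := (div_le_one hpos).2 hs.2
        have h2 : (0 : ℝ) ≤ N := Nat.cast_nonneg N
        nlinarith
      exact Nat.floor_le_of_le this
    have hfllim : ∀ s ∈ Icc (0 : ℝ) ℓ,
        Tendsto (fun N : ℕ => (⌊s / ℓ * (N : ℝ)⌋₊ : ℝ) / (N : ℝ)) atTop (𝓝 (s / ℓ)) := by
      intro s hs
      have h1 : 0 ≤ s / ℓ := div_nonneg hs.1 hpos.le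
      exact (tendsto_nat_floor_mul_div_atTop h1).comp tendsto_natCast_atTop_atTop
    have hdist : ∀ s ∈ Icc (0 : ℝ) ℓ, ∀ t ∈ Icc (0 : ℝ) ℓ,
        Tendsto (fun N : ℕ => dist (g s N) (g t N)) atTop (𝓝 |s - t|) := by
      intro s hs t ht
      have e1 : Tendsto (fun N : ℕ => |(⌊s / ℓ * (N : ℝ)⌋₊ : ℝ) / (N : ℝ)
          - (⌊t / ℓ * (N : ℝ)⌋₊ : ℝ) / (N : ℝ)| * ℓ) atTop (𝓝 (|s / ℓ - t / ℓ| * ℓ)) :=
        (((hfllim s hs).sub (hfllim t ht)).abs).mul_const ℓ
      have e2 : |s / ℓ - t / ℓ| * ℓ = |s - t| := by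
        rw [← sub_div, abs_div, abs_of_pos hpos, div_mul_cancel₀ _ hpos.ne']
      rw [e2] at e1
      refine e1.congr' ?_
      filter_upwards [eventually_gt_atTop 0] with N hN
      have hNr : (0 : ℝ) < N := by exact_mod_cast hN
      show _ = dist (z N ⌊s / ℓ * (N : ℝ)⌋₊) (z N ⌊t / ℓ * (N : ℝ)⌋₊)
      rw [hz2 N hN _ (hfl s hs N) _ (hfl t ht N), ← sub_div, abs_div, abs_of_pos hNr]
      ring
    have hK : IsCompact (closedBall x ℓ) := isCompact_closedBall x ℓ
    have hgK : ∀ s ∈ Icc (0 : ℝ) ℓ, ∀ N, g s N ∈ closedBall x ℓ := by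
      intro s hs N
      rw [mem_closedBall]
      rcases Nat.eq_zero_or_pos N with hN | hN
      · subst hN
        show dist (z 0 ⌊s / ℓ * ((0 : ℕ) : ℝ)⌋₊) x ≤ ℓ
        rw [Nat.cast_zero, mul_zero, Nat.floor_zero, hz0, dist_self]
        exact hpos.le
      · have hNr : (0 : ℝ) < N := by exact_mod_cast hN
        show dist (z N ⌊s / ℓ * (N : ℝ)⌋₊) x ≤ ℓ
        conv_lhs => rw [← hz0 N]
        rw [hz2 N hN _ (hfl s hs N) 0 (Nat.zero_le _), Nat.cast_zero, sub_zero,
          abs_of_nonneg (Nat.cast_nonneg _)]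
        have h3 : (⌊s / ℓ * (N : ℝ)⌋₊ : ℝ) ≤ N := by exact_mod_cast hfl s hs N
        calc (⌊s / ℓ * (N : ℝ)⌋₊ : ℝ) * (ℓ / N) ≤ N * (ℓ / N) :=
              mul_le_mul_of_nonneg_right h3 (by positivity)
          _ = ℓ := by field_simp
    let 𝒰 : Ultrafilter ℕ := hyperfilter ℕ
    have h𝒰 : (𝒰 : Filter ℕ) ≤ atTop := Nat.hyperfilter_le_atTop
    have hex2 : ∀ s : ℝ, ∃ y, s ∈ Icc (0 : ℝ) ℓ → Tendsto (g s) (𝒰 : Filter ℕ) (𝓝 y) := by
      intro s
      by_cases hs : s ∈ Icc (0 : ℝ) ℓ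
      · obtain ⟨y, -, hy⟩ := hK.ultrafilter_le_nhds' (𝒰.map (g s))
          (by
            rw [Ultrafilter.mem_map]
            exact Filter.univ_mem' (fun N => hgK s hs N))
        exact ⟨y, fun _ => hy⟩
      · exact ⟨x, fun hh => absurd hh hs⟩
    choose σ hσ using hex2
    have h0mem : (0 : ℝ) ∈ Icc (0 : ℝ) ℓ := ⟨le_rfl, hpos.le⟩
    have hℓmem : ℓ ∈ Icc (0 : ℝ) ℓ := ⟨hpos.le, le_rfl⟩
    refine ⟨σ, ?_, ?_, ?_⟩
    · intro s hs t ht
      exact tendsto_nhds_unique ((hσ s hs).dist (hσ t ht)) ((hdist s hs t ht).mono_left h𝒰)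
    · have e1 : Tendsto (g 0) (𝒰 : Filter ℕ) (𝓝 x) := by
        have : g 0 = fun _ => x := by
          funext N
          show z N ⌊0 / ℓ * (N : ℝ)⌋₊ = x
          rw [zero_div, zero_mul, Nat.floor_zero, hz0]
        rw [this]
        exact tendsto_const_nhds
      exact tendsto_nhds_unique (hσ 0 h0mem) e1
    · have e1 : Tendsto (g ℓ) (𝒰 : Filter ℕ) (𝓝 q) := by
        refine (tendsto_const_nhds (x := q)).congr' ?_
        refine h𝒰 ?_
        filter_upwards [eventually_gt_atTop 0] with N hN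
        show q = z N ⌊ℓ / ℓ * (N : ℝ)⌋₊
        rw [div_self hpos.ne', one_mul, Nat.floor_natCast, hz1 N hN]
      exact tendsto_nhds_unique (hσ ℓ hℓmem) e1

end KI
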