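import Pool.Agent.H49.KI.Ctx

/-! # MXP: maximum principle for four point means

PROOF. Suppose `A < u z₁`, `z₁ ∈ closedBall 0 1` (so `‖z₁‖ < 1` by `hA`). Choose `0 < δ < u z₁ - A` and
`w z = u z + δ * ‖z‖ ^ 2`. `w` is continuous on the compact closed ball, let `z` be a maximum point
(`IsCompact.exists_isMaxOn`). `w z ≥ w z₁ ≥ u z₁ > A + δ ≥ w` on the sphere, so `z ∈ ball 0 1`. For small
`ρ > 0` the four points `z ± ρ`, `z ± ρ I` are in the closed ball, so `avg4 w z ρ ≤ w z`. But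
`avg4 (fun z => ‖z‖ ^ 2) z ρ = ‖z‖ ^ 2 + ρ ^ 2` (`Complex.sq_norm`, `Complex.normSq_apply`), so
`avg4 w z ρ - w z = (avg4 u z ρ - u z) + δ ρ ^ 2 ≥ (δ - δ / 2) ρ ^ 2 > 0` (`h4` with `ε = δ / 2`;
`Filter.Eventually.and`, `.exists`). Contradiction. -/

set_option autoImplicit false

namespace KI

open Complex Metric Set Filter Topology

theorem MXP_avg (z : ℂ) (ρ : ℝ) : avg4 (fun z => Complex.normSq z) z ρ = Complex.normSq z + ρ ^ 2 := by
  simp only [avg4, Complex.normSq_apply, Complex.add_re, Complex.add_im, Complex.sub_re,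
    Complex.sub_im, Complex.mul_re, Complex.mul_im, Complex.ofReal_re, Complex.ofReal_im,
    Complex.I_re, Complex.I_im]
  ring

/-- maximum principle for four point means -/
theorem max_principle {u : ℂ → ℝ} (hu : ContinuousOn u (closedBall 0 1))
    (h4 : ∀ z ∈ ball (0 : ℂ) 1, ∀ ε > 0, ∀ᶠ ρ in 𝓝[>] (0 : ℝ), -ε * ρ ^ 2 ≤ avg4 u z ρ - u z)
    {A : ℝ} (hA : ∀ z ∈ sphere (0 : ℂ) 1, u z ≤ A) : ∀ z ∈ closedBall (0 : ℂ) 1, u z ≤ A := by
  intro z₁ hz₁
  by_contra hcon
  rw [not_le] at hcon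
  set δ : ℝ := (u z₁ - A) / 2 with hδ
  have hδ0 : 0 < δ := by rw [hδ]; linarith
  set w : ℂ → ℝ := fun z => u z + δ * Complex.normSq z with hw
  have hwc : ContinuousOn w (closedBall 0 1) :=
    hu.add (continuousOn_const.mul Complex.continuous_normSq.continuousOn)
  obtain ⟨z, hz, hmax⟩ := (isCompact_closedBall (0 : ℂ) 1).exists_isMaxOn ⟨z₁, hz₁⟩ hwc
  have h1 : w z₁ ≤ w z := hmax hz₁
  have h2 : u z₁ ≤ w z₁ := by
    have := mul_nonneg hδ0.le (Complex.normSq_nonneg z₁)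
    simp only [hw]
    linarith
  have hzb : z ∈ ball (0 : ℂ) 1 := by
    rw [mem_ball_zero_iff]
    refine lt_of_le_of_ne (by simpa using hz) ?_
    intro h
    have h3 := hA z (by simpa using h)
    have h4 : w z = u z + δ := by
      simp only [hw, Complex.normSq_eq_norm_sq, h]
      ring
    have h5 : A + δ < u z₁ := by rw [hδ]; linarith
    linarith
  obtain ⟨r, hr, hball⟩ := Metric.isOpen_iff.mp isOpen_ball z hzb
  have hev : ∀ᶠ ρ in 𝓝[>] (0 : ℝ), ρ < r := by
    have : ∀ᶠ ρ in 𝓝 (0 : ℝ), ρ < r := (tendsto_id.eventually_lt_const hr)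
    exact this.filter_mono nhdsWithin_le_nhds
  obtain ⟨ρ, ⟨hρ1, hρ2⟩, hρ3⟩ := (((h4 z hzb (δ / 2) (by positivity)).and hev).and
    self_mem_nhdsWithin).exists
  have hρ0 : 0 < ρ := hρ3
  have hpt : ∀ c : ℂ, ‖c‖ = 1 → w (z + ρ * c) ≤ w z := by
    intro c hc
    apply hmax
    apply ball_subset_closedBall
    apply hball
    rw [mem_ball, dist_eq_norm, add_sub_cancel_left, norm_mul, hc, mul_one, Complex.norm_real,
      Real.norm_of_nonneg hρ0.le]
    exact hρ2
  have e1 := hpt 1 (by simp)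
  have e2 := hpt Complex.I (by simp)
  have e3 := hpt (-1) (by simp)
  have e4 := hpt (-Complex.I) (by simp)
  rw [mul_one] at e1
  rw [mul_neg, mul_one, ← sub_eq_add_neg] at e3
  rw [mul_neg, ← sub_eq_add_neg] at e4
  have havg : avg4 w z ρ ≤ w z := by
    unfold avg4
    linarith
  have hsplit : avg4 w z ρ = avg4 u z ρ + δ * avg4 (fun z => Complex.normSq z) z ρ := by
    simp only [avg4, hw]
    ring
  rw [hsplit, MXP_avg] at havg
  have h6 : w z = u z + δ * Complex.normSq z := rfl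
  rw [h6] at havg
  have h7 : 0 < δ / 2 * ρ ^ 2 := by positivity
  nlinarith [hρ1]

end KI
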