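import Pool.Agent.H49.KI.Ctx

/-! # RAY: limits of metric geodesics along an ultrafilter

PROOF. Let `s ≥ 0`. For `j` large `s ≤ r j`, so `dist (c j s) p = dist (c j s) (c j 0) = s`, `c j s` is in the
compact set `closedBall p s` (`isCompact_closedBall`, `ProperSpace`). The ultrafilter `𝒰.map (fun j => c j s)`
contains `closedBall p s`, so it converges to a point (`IsCompact.ultrafilter_le_nhds`); `γ s` is this point
(`choose`; `γ s` arbitrary, e.g. `p`, for `s < 0`). `γ 0 = p` (`tendsto_nhds_unique`, constant sequence). For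
`s, t ≥ 0`: `dist (c j s) (c j t) = |s - t|` for large `j` and the left side tends to `dist (γ s) (γ t)` along `𝒰`
(`Tendsto.dist`, `tendsto_nhds_unique`, `Tendsto.congr'`; `𝒰` is `NeBot`). -/

set_option autoImplicit false

namespace KI

open Metric Set Filter Topology

theorem ray_limit {X : Type} [MetricSpace X] [ProperSpace X] {p : X} {c : ℕ → ℝ → X} {r : ℕ → ℝ}
    (hr : Tendsto r atTop atTop) (hc : ∀ j, IsMGeod (c j) (r j)) (h0 : ∀ j, c j 0 = p)
    (U : Ultrafilter ℕ) (hU : (U : Filter ℕ) ≤ atTop) :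
    ∃ γ : ℝ → X, γ 0 = p ∧ (∀ ℓ, IsMGeod γ ℓ) ∧
      ∀ s, 0 ≤ s → Tendsto (fun j => c j s) U (𝓝 (γ s)) := by
  have hex : ∀ s : ℝ, 0 ≤ s → ∃ x : X, Tendsto (fun j => c j s) U (𝓝 x) := by
    intro s hs
    have hev : ∀ᶠ j in (U : Filter ℕ), c j s ∈ closedBall p s := by
      have h1 : ∀ᶠ j in atTop, s ≤ r j := hr.eventually_ge_atTop s
      filter_upwards [hU h1] with j hj
      have h2 := hc j s ⟨hs, hj⟩ 0 ⟨le_rfl, hs.trans hj⟩
      rw [h0 j, sub_zero, abs_of_nonneg hs] at h2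
      rw [mem_closedBall, h2]
    obtain ⟨x, _, hx⟩ := (isCompact_closedBall p s).ultrafilter_le_nhds (U.map (fun j => c j s))
      (le_principal_iff.mpr hev)
    exact ⟨x, hx⟩
  have hne : Nonempty X := ⟨p⟩
  choose! γ hγ using hex
  refine ⟨γ, ?_, ?_, hγ⟩
  · have h1 := hγ 0 le_rfl
    simp only [h0] at h1
    exact (tendsto_nhds_unique h1 tendsto_const_nhds)
  · intro ℓ s hs t ht
    have h1 := (hγ s hs.1).dist (hγ t ht.1)
    have h2 : ∀ᶠ j in (U : Filter ℕ), dist (c j s) (c j t) = |s - t| := by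
      have h3 : ∀ᶠ j in atTop, max s t ≤ r j := hr.eventually_ge_atTop _
      filter_upwards [hU h3] with j hj
      exact hc j s ⟨hs.1, (le_max_left _ _).trans hj⟩ t ⟨ht.1, (le_max_right _ _).trans hj⟩
    exact tendsto_nhds_unique h1 (tendsto_const_nhds.congr' (h2.mono fun j hj => hj.symm))

end KI
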