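import Pool.Agent.H49.KI.RUP

/-! # RLO: sharp lower bound for lengths near a point

PROOF. Take `ρ₁, κ` from `rup_norm` (with `ε`), `N₀ a = Real.sqrt (G e (e x₀) a a).re ≥ κ' ‖a‖`
(`κ' = κ/(1+ε)`), and `ρ ≤ ρ₁/4` with `ρ < κ' ρ₁ / (4 (1+ε))`. Let `y ∈ ball (e x₀) ρ` and a chain of pieces
`(e_i, c_i)` from `e.symm y` to `x`, of total length `L < ρ`. Put `s_i = ∑_{j<i} len`. Claim (induction on
`i`): `x_i ∈ e.source`, `‖e x_i - e x₀‖ < ρ₁/2` and `N₀ (e x_i - y) ≤ (1+ε) s_i`. Step: let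
`σ t = (e_i).symm (c_i t)`, continuous `[0,1] → X`, `n t = Real.sqrt (G e_i (c_i t) (c_i' t) (c_i' t)).re`.
Consider the set `T` of `t ∈ [0,1]` such that for all `t' ∈ [0,t]`: `σ t' ∈ e.source`,
`e (σ t') ∈ closedBall (e x₀) (ρ₁/2)` and `N₀ (e (σ t') - y) ≤ (1+ε)(s_i + ∫_0^t' n)`. It contains `0`. It is
closed: the set `e.symm '' closedBall (e x₀) (ρ₁/2)` is compact, so closed (`T2Space`). It is open to the
right: at `t ∈ T`, `N₀ (e (σ t) - y) ≤ (1+ε) L`, so `‖e (σ t) - e x₀‖ < ρ + (1+ε)ρ/κ' < ρ₁/2`: near `t`, `σ`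
stays in `e.symm '' ball`, where `w t' = e (σ t')` is `C¹` (composition of the `C¹` map
`e ∘ e_i.symm`, analytic, with `c_i`), `w' = D(e ∘ e_i.symm) c_i'`, so
`(G e w w' w').re = n²` (`hG.compat`), hence `N₀ (w') ≤ (1+ε) n` and `N₀ (w t' - w t) ≤ (1+ε) ∫_t^t' n`
(`N₀` is a seminorm: norm of an integral; e.g. by Hahn-Banach/Riesz: `N₀ a = sup re G₀(a, b)` over
`N₀ b ≤ 1`, i.e. estimate `re G₀(w t' - w t, b) = ∫ re G₀(w', b) ≤ ∫ N₀ (w')` for `N₀ b ≤ 1`,
`KB.Sesq.cs`). `IsClosed.Icc_subset_of_forall_exists_gt`. See Pool/Agent/H49/KB/HRA.lean for the same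
argument in a simpler situation. -/

set_option autoImplicit false

namespace KI

open Complex Metric Set Filter Topology Manifold ContDiff
open KB (V DR wirt rho Sesq)

variable {n : ℕ} {X : Type} [TopologicalSpace X] [ChartedSpace (V n) X]
  {G : OpenPartialHomeomorph X (V n) → V n → V n → V n → ℂ}

/-- coordinate changes are holomorphic -/
theorem RLO_trans [IsManifold 𝓘(ℂ, V n) ω X] {e e' : OpenPartialHomeomorph X (V n)}
    (he : e ∈ atlas (V n) X) (he' : e' ∈ atlas (V n) X) {y : V n} (hy : y ∈ e.target)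
    (hy' : e.symm y ∈ e'.source) : DifferentiableAt ℂ (fun y => e' (e.symm y)) y := by
  have h := HasGroupoid.compatible (G := contDiffGroupoid ω 𝓘(ℂ, V n)) he he'
  have h1 := (mem_groupoid_of_pregroupoid.1 h).1
  have hsrc : y ∈ (e.symm.trans e').source := by
    rw [OpenPartialHomeomorph.trans_source]
    exact ⟨hy, hy'⟩
  have h2 : ContDiffOn ℂ ω (e.symm.trans e') (e.symm.trans e').source := by
    simpa [contDiffPregroupoid] using h1
  have h3 := (h2.differentiableOn (by simp)) y hsrc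
  exact h3.differentiableAt ((e.symm.trans e').open_source.mem_nhds hsrc)

/-- integral estimate for a `C¹` curve in the seminorm of a Hermitian form -/
theorem RLO_int {B : V n → V n → ℂ} (hB : Sesq B) (hnn : ∀ a, 0 ≤ (B a a).re)
    {w w' : ℝ → V n} {m : ℝ → ℝ} (hm : Continuous m) (hm0 : ∀ t, 0 ≤ m t) {a b : ℝ} (hab : a ≤ b)
    (hw : ContinuousOn w (Icc a b)) (hd : ∀ t ∈ Ico a b, HasDerivWithinAt w (w' t) (Ici t) t)
    (hle : ∀ t ∈ Ico a b, Real.sqrt (B (w' t) (w' t)).re ≤ m t) :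
    Real.sqrt (B (w b - w a) (w b - w a)).re ≤ ∫ t in a..b, m t := by
  obtain ⟨d, hdd⟩ : ∃ d, d = w b - w a := ⟨_, rfl⟩
  rw [← hdd]
  obtain ⟨L, hL⟩ : ∃ L : V n →ₗ[ℂ] ℂ, ∀ v, L v = B v d :=
    ⟨{ toFun := fun v => B v d
       map_add' := fun a b => hB.add a b d
       map_smul' := fun t a => by simp [hB.smul] }, fun _ => rfl⟩
  obtain ⟨Φ, hΦ⟩ : ∃ Φ : V n →L[ℝ] ℝ, ∀ v, Φ v = (B v d).re :=
    ⟨Complex.reCLM.comp ((LinearMap.toContinuousLinearMap L).restrictScalars ℝ), fun v => by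
      simp [hL]⟩
  obtain ⟨N, hN⟩ : ∃ N, N = Real.sqrt (B d d).re := ⟨_, rfl⟩
  have hN0 : 0 ≤ N := hN ▸ Real.sqrt_nonneg _
  have hNsq : N ^ 2 = (B d d).re := by
    rw [hN, Real.sq_sqrt (hnn d)]
  have hderB : ∀ t : ℝ, HasDerivAt (fun t => Φ (w a) + N * ∫ τ in a..t, m τ) (N * m t) t := by
    intro t
    have h1 : HasDerivAt (fun t => ∫ τ in a..t, m τ) (m t) t :=
      (hm.integral_hasStrictDerivAt a t).hasDerivAt
    exact (h1.const_mul N).const_add _
  have hmain := image_le_of_deriv_right_le_deriv_boundary (f := fun t => Φ (w t))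
    (f' := fun t => Φ (w' t)) (a := a) (b := b) (B := fun t => Φ (w a) + N * ∫ τ in a..t, m τ)
    (B' := fun t => N * m t) (Φ.continuous.comp_continuousOn hw)
    (fun t ht => Φ.hasFDerivAt.comp_hasDerivWithinAt t (hd t ht))
    (by simp)
    (fun t _ => (hderB t).continuousAt.continuousWithinAt)
    (fun t _ => (hderB t).hasDerivWithinAt)
    (by
      intro t ht
      simp only [hΦ]
      have h1 := hB.cs hnn (w' t) d
      have h2 : ‖B (w' t) d‖ ≤ Real.sqrt (B (w' t) (w' t)).re * N := by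
        rw [hN, ← Real.sqrt_mul (hnn _)]
        exact Real.le_sqrt_of_sq_le h1
      have h3 := hle t ht
      have h4 : (B (w' t) d).re ≤ ‖B (w' t) d‖ := Complex.re_le_norm _
      nlinarith)
  have h1 := hmain (show b ∈ Icc a b from ⟨hab, le_rfl⟩)
  have h2 : Φ (w b) - Φ (w a) = N ^ 2 := by
    rw [← map_sub, ← hdd, hΦ, hNsq]
  have hI : 0 ≤ ∫ τ in a..b, m τ := intervalIntegral.integral_nonneg hab fun t _ => hm0 t
  rw [← hN]
  by_contra hcon
  push Not at hcon
  have h3 : 0 < N := lt_of_le_of_lt hI hcon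
  nlinarith

/-- one piece -/
theorem RLO_piece [T2Space X] [IsManifold 𝓘(ℂ, V n) ω X] (hG : IsHermMetric G)
    {e : OpenPartialHomeomorph X (V n)} (he : e ∈ atlas (V n) X) {x₀ : X} (hx₀ : x₀ ∈ e.source)
    {ε : ℝ} (hε : 0 < ε) {ρ₁ κ : ℝ} (hκ : 0 < κ) (hball : closedBall (e x₀) ρ₁ ⊆ e.target)
    (hlow : ∀ a, κ * ‖a‖ ≤ Real.sqrt (G e (e x₀) a a).re)
    (hcmp : ∀ y ∈ closedBall (e x₀) ρ₁, ∀ a,
      Real.sqrt (G e (e x₀) a a).re ≤ (1 + ε) * Real.sqrt (G e y a a).re)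
    {ρ : ℝ} (hρ : κ * ρ + (1 + ε) * ρ < κ * ρ₁)
    {y : V n} (hy : y ∈ ball (e x₀) ρ) {f : OpenPartialHomeomorph X (V n)}
    (hf : f ∈ atlas (V n) X) {c : ℝ → V n} (hc : IsPiece f c) {s : ℝ}
    (h0 : f.symm (c 0) ∈ e.symm '' closedBall (e x₀) ρ₁)
    (h1 : Real.sqrt (G e (e x₀) (e (f.symm (c 0)) - y) (e (f.symm (c 0)) - y)).re ≤ (1 + ε) * s)
    (hs : s + len G f c < ρ) :
    f.symm (c 1) ∈ e.symm '' closedBall (e x₀) ρ₁ ∧
      Real.sqrt (G e (e x₀) (e (f.symm (c 1)) - y) (e (f.symm (c 1)) - y)).re ≤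
        (1 + ε) * (s + len G f c) := by
  obtain ⟨hc1, hct⟩ := hc
  have he0 : e x₀ ∈ e.target := e.map_source hx₀
  have hB : Sesq (G e (e x₀)) := herm_sesq hG he he0
  have hBnn : ∀ a, 0 ≤ (G e (e x₀) a a).re := by
    intro a
    by_cases ha : a = 0
    · rw [ha, hB.zero_left]
      simp
    · exact (hG.pos e he _ he0 a ha).le
  have hU : UniqueDiffOn ℝ (Icc (0:ℝ) 1) := uniqueDiffOn_Icc one_pos
  obtain ⟨dc, hdc⟩ : ∃ dc, dc = derivWithin c (Icc 0 1) := ⟨_, rfl⟩
  have hdcc : ContinuousOn dc (Icc 0 1) := by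
    rw [hdc]
    exact hc1.continuousOn_derivWithin hU le_rfl
  have hder : ∀ t ∈ Icc (0:ℝ) 1, HasDerivWithinAt c (dc t) (Icc 0 1) t := by
    intro t ht
    rw [hdc]
    exact ((hc1.differentiableOn one_ne_zero) t ht).hasDerivWithinAt
  have hn : ContinuousOn (fun t => Real.sqrt (G f (c t) (dc t) (dc t)).re) (Icc 0 1) := by
    apply Real.continuous_sqrt.comp_continuousOn
    apply Complex.continuous_re.comp_continuousOn
    exact KB.Sesq.continuousOn (fun t ht => herm_sesq hG hf (hct t ht))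
      (fun a b => ((hG.smooth f hf a b).continuousOn.comp hc1.continuousOn hct)) hdcc hdcc
  obtain ⟨m, hm0⟩ : ∃ m : ℝ → ℝ, m = fun t => Real.sqrt (G f (c (max 0 (min 1 t)))
    (dc (max 0 (min 1 t))) (dc (max 0 (min 1 t)))).re := ⟨_, rfl⟩
  have hmc : Continuous m := by
    rw [hm0]
    exact hn.comp_continuous (f := fun t : ℝ => max 0 (min 1 t)) (by fun_prop)
      (fun t => ⟨le_max_left _ _, max_le zero_le_one (min_le_left _ _)⟩)
  have hmeq : ∀ t ∈ Icc (0:ℝ) 1, m t = Real.sqrt (G f (c t) (dc t) (dc t)).re := by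
    intro t ht
    rw [hm0]
    simp only
    rw [min_eq_right ht.2, max_eq_right ht.1]
  have hmn : ∀ t, 0 ≤ m t := by
    intro t
    rw [hm0]
    exact Real.sqrt_nonneg _
  have hlen : len G f c = ∫ t in (0:ℝ)..1, m t := by
    unfold len
    rw [intervalIntegral.integral_of_le zero_le_one, intervalIntegral.integral_of_le zero_le_one,
      MeasureTheory.integral_Ioc_eq_integral_Ioo, MeasureTheory.integral_Ioc_eq_integral_Ioo]
    refine MeasureTheory.setIntegral_congr_fun measurableSet_Ioo fun t ht => ?_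
    have ht' : t ∈ Icc (0:ℝ) 1 := Ioo_subset_Icc_self ht
    have h1 : deriv c t = dc t := ((hder t ht').hasDerivAt (Icc_mem_nhds ht.1 ht.2)).deriv
    rw [h1, hmeq t ht']
  have hGle : ∀ t ∈ Icc (0:ℝ) 1, ∫ τ in (0:ℝ)..t, m τ ≤ len G f c := by
    intro t ht
    rw [hlen]
    exact intervalIntegral.integral_mono_interval le_rfl ht.1 ht.2
      (Filter.Eventually.of_forall hmn) (hmc.intervalIntegrable _ _)
  -- the curve in `X`
  obtain ⟨σ, hσ⟩ : ∃ σ : ℝ → X, σ = fun t => f.symm (c t) := ⟨_, rfl⟩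
  have hσc : ContinuousOn σ (Icc 0 1) := by
    rw [hσ]
    exact f.continuousOn_symm.comp hc1.continuousOn hct
  have hσ0 : σ 0 = f.symm (c 0) := by rw [hσ]
  have hσ1 : σ 1 = f.symm (c 1) := by rw [hσ]
  obtain ⟨K, hKdef⟩ : ∃ K : Set X, K = e.symm '' closedBall (e x₀) ρ₁ := ⟨_, rfl⟩
  have hKc : IsClosed K := by
    rw [hKdef]
    exact ((isCompact_closedBall _ _).image_of_continuousOn
      (e.continuousOn_symm.mono hball)).isClosed
  have hKs : K ⊆ e.source := by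
    rw [hKdef]
    rintro _ ⟨z, hz, rfl⟩
    exact e.map_target (hball hz)
  have hKe : ∀ z ∈ K, e z ∈ closedBall (e x₀) ρ₁ := by
    rw [hKdef]
    rintro _ ⟨z, hz, rfl⟩
    rw [e.right_inv (hball hz)]
    exact hz
  obtain ⟨Nn, hNn⟩ : ∃ Nn : V n → ℝ, Nn = fun a => Real.sqrt (G e (e x₀) a a).re := ⟨_, rfl⟩
  have hNnv : ∀ a, Nn a = Real.sqrt (G e (e x₀) a a).re := fun a => by rw [hNn]
  have hNc : Continuous Nn := by
    rw [hNn]
    apply Real.continuous_sqrt.comp
    apply Complex.continuous_re.comp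
    rw [← continuousOn_univ]
    exact KB.Sesq.continuousOn (A := fun _ => G e (e x₀)) (fun _ _ => hB)
      (fun a b => continuousOn_const) continuousOn_id continuousOn_id
  have hNtri : ∀ a b, Nn (a + b) ≤ Nn a + Nn b := by
    intro a b
    rw [hNnv, hNnv, hNnv]
    apply Real.sqrt_le_iff.2
    refine ⟨by positivity, ?_⟩
    have h1 := hB.cs hBnn a b
    have h2 : (G e (e x₀) a b).re ≤ Real.sqrt (G e (e x₀) a a).re * Real.sqrt (G e (e x₀) b b).re := by
      rw [← Real.sqrt_mul (hBnn _)]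
      exact (Complex.re_le_norm _).trans (Real.le_sqrt_of_sq_le h1)
    rw [add_sq, Real.sq_sqrt (hBnn _), Real.sq_sqrt (hBnn _), hB.add, hB.add_right, hB.add_right]
    simp only [Complex.add_re]
    rw [hB.re_symm a b]
    nlinarith
  obtain ⟨T, hT⟩ : ∃ T : Set ℝ, T = {t | t ∈ Icc (0:ℝ) 1 ∩ σ ⁻¹' K ∧
    Nn (e (σ t) - y) ≤ (1 + ε) * (s + ∫ τ in (0:ℝ)..t, m τ)} := ⟨_, rfl⟩
  have hIc : Continuous fun t : ℝ => ∫ τ in (0:ℝ)..t, m τ :=
    continuous_iff_continuousAt.2 fun t => (hmc.integral_hasStrictDerivAt 0 t).hasDerivAt.continuousAt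
  have hTcl : IsClosed T := by
    rw [hT]
    apply IsClosed.isClosed_le
    · exact hσc.preimage_isClosed_of_isClosed isClosed_Icc hKc
    · apply hNc.comp_continuousOn
      apply ContinuousOn.sub _ continuousOn_const
      exact e.continuousOn.comp (hσc.mono inter_subset_left) fun t ht => hKs ht.2
    · exact (continuous_const.mul (continuous_const.add hIc)).continuousOn
  have hall : Icc (0:ℝ) 1 ⊆ T := by
    apply IsClosed.Icc_subset_of_forall_exists_gt (hTcl.inter isClosed_Icc)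
    · rw [hT]
      refine ⟨⟨⟨le_rfl, zero_le_one⟩, ?_⟩, ?_⟩
      · rw [mem_preimage, hσ0, hKdef]
        exact h0
      · rw [intervalIntegral.integral_same, add_zero, hσ0, hNnv]
        exact h1
    · rintro t ⟨htT, ht⟩ z hz
      rw [hT] at htT
      obtain ⟨⟨ht01, htK⟩, htN⟩ := htT
      -- `e (σ t)` is in the open ball
      have hin : e (σ t) ∈ ball (e x₀) ρ₁ := by
        rw [mem_ball, dist_eq_norm]
        have h2 : ‖e (σ t) - e x₀‖ ≤ ‖e (σ t) - y‖ + ‖y - e x₀‖ := by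
          have : e (σ t) - e x₀ = (e (σ t) - y) + (y - e x₀) := by abel
          rw [this]
          exact norm_add_le _ _
        have h3 := hlow (e (σ t) - y)
        rw [← hNnv] at h3
        have h4 : ‖y - e x₀‖ < ρ := by
          rw [mem_ball, dist_eq_norm] at hy
          exact hy
        have h5 : Nn (e (σ t) - y) ≤ (1 + ε) * ρ := by
          refine htN.trans ?_
          apply mul_le_mul_of_nonneg_left _ (by linarith)
          linarith [hGle t ht01]
        nlinarith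
      have hopen : IsOpen (e.symm '' ball (e x₀) ρ₁) := by
        apply e.symm.isOpen_image_of_subset_source isOpen_ball
        exact ball_subset_closedBall.trans hball
      have hmemt : σ t ∈ e.symm '' ball (e x₀) ρ₁ :=
        ⟨e (σ t), hin, e.left_inv (hKs htK)⟩
      have hev : ∀ᶠ t' in 𝓝[Icc 0 1] t, σ t' ∈ e.symm '' ball (e x₀) ρ₁ :=
        (hσc t ht01) (hopen.mem_nhds hmemt)
      obtain ⟨δ, hδ, hδ'⟩ := Metric.mem_nhdsWithin_iff.1 hev
      obtain ⟨t', ht'⟩ : ∃ t', t' = min (min z 1) (t + δ / 2) := ⟨_, rfl⟩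
      have hzt : t < z := hz
      have htt' : t < t' := by
        rw [ht']
        exact lt_min (lt_min hzt ht.2) (by linarith)
      have ht'z : t' ≤ z := by rw [ht']; exact (min_le_left _ _).trans (min_le_left _ _)
      have ht'1 : t' ≤ 1 := by rw [ht']; exact (min_le_left _ _).trans (min_le_right _ _)
      have ht'δ : t' ≤ t + δ / 2 := by rw [ht']; exact min_le_right _ _
      have hsub : ∀ τ ∈ Icc t t', σ τ ∈ e.symm '' ball (e x₀) ρ₁ := by
        intro τ hτ
        apply hδ'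
        refine ⟨?_, ht01.1.trans hτ.1, hτ.2.trans ht'1⟩
        rw [mem_ball, Real.dist_eq, abs_of_nonneg (by linarith [hτ.1])]
        linarith [hτ.2]
      have hsubK : ∀ τ ∈ Icc t t', σ τ ∈ K := by
        intro τ hτ
        rw [hKdef]
        exact image_mono ball_subset_closedBall (hsub τ hτ)
      have h01 : ∀ τ ∈ Icc t t', τ ∈ Icc (0:ℝ) 1 := fun τ hτ =>
        ⟨ht01.1.trans hτ.1, hτ.2.trans ht'1⟩
      -- the derivative of `e ∘ σ`
      obtain ⟨D, hD⟩ : ∃ D : ℝ → V n, D = fun τ => fderiv ℂ (fun y => e (f.symm y)) (c τ) (dc τ) :=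
        ⟨_, rfl⟩
      have hwd : ∀ τ ∈ Icc t t', HasDerivWithinAt (fun τ => e (σ τ)) (D τ) (Icc 0 1) τ := by
        intro τ hτ
        have h2 : DifferentiableAt ℂ (fun y => e (f.symm y)) (c τ) := by
          apply RLO_trans hf he (hct τ (h01 τ hτ))
          have := hKs (hsubK τ hτ)
          rw [hσ] at this
          exact this
        have h3 := (h2.hasFDerivAt.restrictScalars ℝ).comp_hasDerivWithinAt τ (hder τ (h01 τ hτ))
        rw [hσ, hD]
        exact h3
      have hwn : ∀ τ ∈ Icc t t', Real.sqrt (G e (e (σ τ)) (D τ) (D τ)).re = m τ := by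
        intro τ hτ
        have hτ' := h01 τ hτ
        have h2 : f (f.symm (c τ)) = c τ := f.right_inv (hct τ hτ')
        have h3 := hG.compat f hf e he (f.symm (c τ)) ⟨f.map_target (hct τ hτ'), by
          have := hKs (hsubK τ hτ)
          rw [hσ] at this
          exact this⟩ (dc τ) (dc τ)
        rw [h2] at h3
        rw [hmeq τ hτ', h3, hσ, hD]
      have hint := RLO_int hB hBnn (w := fun τ => e (σ τ)) (w' := D) (m := fun τ => (1 + ε) * m τ)
        (continuous_const.mul hmc) (fun τ => mul_nonneg (by linarith) (hmn τ)) htt'.le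
        (by
          apply e.continuousOn.comp (hσc.mono fun τ hτ => h01 τ hτ)
          intro τ hτ
          exact hKs (hsubK τ hτ))
        (by
          intro τ hτ
          have h2 := hwd τ (Ico_subset_Icc_self hτ)
          refine h2.mono_of_mem_nhdsWithin ?_
          exact Icc_mem_nhdsGE_of_mem ⟨ht01.1.trans hτ.1, hτ.2.trans_le ht'1⟩)
        (by
          intro τ hτ
          have hτ' := Ico_subset_Icc_self hτ
          have h2 := hcmp (e (σ τ)) (hKe _ (hsubK τ hτ')) (D τ)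
          rw [hwn τ hτ'] at h2
          exact h2)
      rw [← hNnv, intervalIntegral.integral_const_mul] at hint
      refine ⟨t', ?_, htt', ht'z⟩
      rw [hT]
      refine ⟨⟨⟨ht01.1.trans htt'.le, ht'1⟩, hsubK t' ⟨htt'.le, le_rfl⟩⟩, ?_⟩
      have h2 : e (σ t') - y = (e (σ t) - y) + (e (σ t') - e (σ t)) := by abel
      have h3 := hNtri (e (σ t) - y) (e (σ t') - e (σ t))
      rw [← h2] at h3
      have h4 : ∫ τ in (0:ℝ)..t', m τ = (∫ τ in (0:ℝ)..t, m τ) + ∫ τ in t..t', m τ :=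
        (intervalIntegral.integral_add_adjacent_intervals (hmc.intervalIntegrable _ _)
          (hmc.intervalIntegrable _ _)).symm
      rw [h4]
      nlinarith
  have hfin := hall (show (1:ℝ) ∈ Icc (0:ℝ) 1 from ⟨zero_le_one, le_rfl⟩)
  rw [hT] at hfin
  obtain ⟨⟨_, hf1⟩, hf2⟩ := hfin
  rw [← hlen, hNnv, hσ1] at hf2
  rw [mem_preimage, hσ1, hKdef] at hf1
  exact ⟨hf1, hf2⟩

theorem reach_lower [T2Space X] [IsManifold 𝓘(ℂ, V n) ω X] (hG : IsHermMetric G)
    {e : OpenPartialHomeomorph X (V n)}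
    (he : e ∈ atlas (V n) X) {x₀ : X} (hx₀ : x₀ ∈ e.source) {ε : ℝ} (hε : 0 < ε) :
    ∃ ρ > 0, ball (e x₀) ρ ⊆ e.target ∧ ∀ y ∈ ball (e x₀) ρ, ∀ (x : X) (L : ℝ), L < ρ →
      Reach G (e.symm y) x L → x ∈ e.source ∧
        Real.sqrt (G e (e x₀) (e x - y) (e x - y)).re ≤ (1 + ε) * L := by
  obtain ⟨ρ₁, hρ₁, hball, κ, hκ, C, hC, hcmp⟩ := rup_norm hG he hx₀ hε
  have hden : 0 < κ + (1 + ε) := by linarith
  obtain ⟨ρ, hρdef⟩ : ∃ ρ, ρ = κ * ρ₁ / (2 * (κ + (1 + ε))) := ⟨_, rfl⟩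
  have hρ0 : 0 < ρ := by rw [hρdef]; positivity
  have hρ2 : (κ + (1 + ε)) * ρ = κ * ρ₁ / 2 := by
    rw [hρdef]
    field_simp
  have hρ : κ * ρ + (1 + ε) * ρ < κ * ρ₁ := by
    have : 0 < κ * ρ₁ := mul_pos hκ hρ₁
    linarith
  have hρ1 : ρ < ρ₁ := by
    have h1 : 0 < (1 + ε) * ρ := mul_pos (by linarith) hρ0
    have h2 : κ * ρ < κ * ρ₁ := by linarith
    exact lt_of_mul_lt_mul_left h2 hκ.le
  have hsub : ball (e x₀) ρ ⊆ closedBall (e x₀) ρ₁ :=
    ball_subset_closedBall.trans (closedBall_subset_closedBall hρ1.le)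
  refine ⟨ρ, hρ0, hsub.trans hball, ?_⟩
  rintro y hy x L hL ⟨k, xs, es, c, h0, hk, hp, hsum⟩
  have hB : Sesq (G e (e x₀)) := herm_sesq hG he (e.map_source hx₀)
  have hcen : e x₀ ∈ closedBall (e x₀) ρ₁ := mem_closedBall_self hρ₁.le
  have hind : ∀ i ≤ k, xs i ∈ e.symm '' closedBall (e x₀) ρ₁ ∧
      Real.sqrt (G e (e x₀) (e (xs i) - y) (e (xs i) - y)).re ≤
        (1 + ε) * ∑ j ∈ Finset.range i, len G (es j) (c j) := by
    intro i
    induction i with
    | zero =>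
      intro _
      rw [h0]
      refine ⟨⟨y, hsub hy, rfl⟩, ?_⟩
      rw [e.right_inv (hball (hsub hy)), sub_self, hB.zero_left]
      simp
    | succ i ih =>
      intro hi
      obtain ⟨h1, h2⟩ := ih (by omega)
      obtain ⟨hp1, hp2, hp3, hp4⟩ := hp i (by omega)
      rw [← hp3] at h1 h2
      rw [Finset.sum_range_succ, ← hp4]
      refine RLO_piece hG he hx₀ hε hκ hball (fun a => (hcmp _ hcen a).1)
        (fun y hy a => (hcmp y hy a).2.2.2) hρ hy hp1 hp2 h1 h2 ?_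
      rw [← Finset.sum_range_succ]
      refine lt_of_le_of_lt ?_ hL
      rw [← hsum]
      exact Finset.sum_le_sum_of_subset_of_nonneg (Finset.range_mono hi)
        fun j _ _ => len_nonneg (es j) (c j)
  obtain ⟨h1, h2⟩ := hind k le_rfl
  rw [hk] at h1 h2
  rw [hsum] at h2
  refine ⟨?_, h2⟩
  obtain ⟨z, hz, rfl⟩ := h1
  exact e.map_target (hball hz)

end KI
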