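import Pool.Agent.H49.KI.RLO

/-! # RMT: the length distance is a distance which induces the topology

PROOF. (conn) The relation `∃ L, Reach G p q L` is an equivalence relation (RPA) with open classes
(`reach_upper`), `X` is connected. (metric) `dist p q := sInf {L | Reach G p q L}`: nonnegative, symmetric,
triangle inequality from RPA. If `dist p q = 0`: by `reach_lower` at `x₀ = p`, `e = chartAt _ p`, `ε = 1`:
for `L` small `q ∈ e.source` and `N₀ (e q - e p) ≤ 2 L`, so `e q = e p`, `q = p` (injectivity on the source).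
Topology: a set `O` open for `tX`, `x₀ ∈ O`: by `reach_lower` there is `δ > 0` with `dist x₀ x < δ → x ∈ O`
(`x ∈ e.source`, `‖e x - e x₀‖` small, and `e.symm` is continuous: `x = e.symm (e x) ∈ O`). Conversely
`{x | dist x₀ x < δ}` is a `tX`-neighbourhood of `x₀` by `reach_upper`. Build the `MetricSpace` with
`MetricSpace.ofDistTopology`-type constructors: e.g. `PseudoMetricSpace.ofDistTopology` /
`MetricSpace.ofDistTopology dist h1 h2 h3 h4 h5` (it takes the `TopologicalSpace` instance and the proof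
that `IsOpen s ↔ ∀ x ∈ s, ∃ ε > 0, ∀ y, dist x y < ε → y ∈ s`), then the equality of topologies is `rfl`. -/

set_option autoImplicit false

namespace KI

open Complex Metric Set Filter Topology Manifold ContDiff
open KB (V DR wirt rho Sesq)

variable {n : ℕ} {X : Type} [tX : TopologicalSpace X] [ChartedSpace (V n) X]
  {G : OpenPartialHomeomorph X (V n) → V n → V n → V n → ℂ}

theorem RMT_nhds (hG : IsHermMetric G) (x₀ : X) {δ : ℝ} (hδ : 0 < δ) :
    ∀ᶠ x in 𝓝 x₀, ∃ L < δ, Reach G x₀ x L := by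
  have he := chart_mem_atlas (V n) x₀
  have hx₀ := mem_chart_source (V n) x₀
  generalize chartAt (V n) x₀ = e at he hx₀
  obtain ⟨ρ, hρ, -, hup⟩ := reach_upper hG he hx₀ (ε := 1) one_pos
  obtain ⟨ρ', hρ', -, κ, -, C, hC, hnorm⟩ := rup_norm hG he hx₀ (ε := 1) one_pos
  have hcont : ContinuousAt e x₀ := e.continuousAt hx₀
  have hr : 0 < min ρ (δ / (2 * C)) := lt_min hρ (by positivity)
  have h1 : ∀ᶠ x in 𝓝 x₀, e x ∈ ball (e x₀) (min ρ (δ / (2 * C))) :=
    hcont.eventually (ball_mem_nhds _ hr)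
  have h2 : ∀ᶠ x in 𝓝 x₀, x ∈ e.source := e.open_source.mem_nhds hx₀
  filter_upwards [h1, h2] with x hx hxs
  have hx1 : e x ∈ ball (e x₀) ρ := ball_subset_ball (min_le_left _ _) hx
  obtain ⟨L, hL, hR⟩ := hup (e x₀) (mem_ball_self hρ) (e x) hx1
  rw [e.left_inv hx₀, e.left_inv hxs] at hR
  refine ⟨L, lt_of_le_of_lt hL ?_, hR⟩
  have h3 := (hnorm (e x₀) (mem_closedBall_self hρ'.le) (e x - e x₀)).2.1
  have h4 : ‖e x - e x₀‖ < δ / (2 * C) := by
    rw [mem_ball, dist_eq_norm] at hx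
    exact hx.trans_le (min_le_right _ _)
  rw [lt_div_iff₀ (by positivity)] at h4
  nlinarith

theorem reach_exists [ConnectedSpace X] (hG : IsHermMetric G) (p q : X) :
    ∃ L, Reach G p q L := by
  have h1 : IsOpen {q : X | ∃ L, Reach G p q L} := by
    rw [isOpen_iff_mem_nhds]
    rintro q ⟨L, hL⟩
    filter_upwards [RMT_nhds hG q (δ := 1) one_pos] with x hx
    obtain ⟨L', -, hL'⟩ := hx
    exact ⟨L + L', hL.trans hL'⟩
  have h2 : IsOpen {q : X | ∃ L, Reach G p q L}ᶜ := by
    rw [isOpen_iff_mem_nhds]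
    intro q hq
    filter_upwards [RMT_nhds hG q (δ := 1) one_pos] with x hx
    obtain ⟨L', -, hL'⟩ := hx
    rintro ⟨L, hL⟩
    exact hq ⟨L + L', hL.trans (hL'.symm hG)⟩
  have h3 : IsClopen {q : X | ∃ L, Reach G p q L} := ⟨⟨h2⟩, h1⟩
  have h4 := h3.eq_univ ⟨p, 0, Reach.refl p⟩
  have h5 : q ∈ {q : X | ∃ L, Reach G p q L} := by rw [h4]; exact mem_univ _
  exact h5

/-- close points for the length distance are close in the chart -/
theorem RMT_close [T2Space X] [IsManifold 𝓘(ℂ, V n) ω X] (hG : IsHermMetric G)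
    {e : OpenPartialHomeomorph X (V n)} (he : e ∈ atlas (V n) X) {x₀ : X} (hx₀ : x₀ ∈ e.source)
    {r : ℝ} (hr : 0 < r) :
    ∃ δ > 0, ∀ (x : X) (L : ℝ), L < δ → Reach G x₀ x L → x ∈ e.source ∧ ‖e x - e x₀‖ < r := by
  obtain ⟨ρ, hρ, -, hlo⟩ := reach_lower hG he hx₀ (ε := 1) one_pos
  obtain ⟨ρ', hρ', -, κ, hκ, C, -, hnorm⟩ := rup_norm hG he hx₀ (ε := 1) one_pos
  refine ⟨min ρ (κ * r / 2), lt_min hρ (by positivity), fun x L hL hR => ?_⟩
  have hR' : Reach G (e.symm (e x₀)) x L := by rw [e.left_inv hx₀]; exact hR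
  obtain ⟨h1, h2⟩ := hlo (e x₀) (mem_ball_self hρ) x L (hL.trans_le (min_le_left _ _)) hR'
  refine ⟨h1, ?_⟩
  have h3 := (hnorm (e x₀) (mem_closedBall_self hρ'.le) (e x - e x₀)).1
  have h4 : L < κ * r / 2 := hL.trans_le (min_le_right _ _)
  have h5 : κ * ‖e x - e x₀‖ < κ * r := by linarith
  exact lt_of_mul_lt_mul_left h5 hκ.le

theorem exists_metric [T2Space X] [ConnectedSpace X] [IsManifold 𝓘(ℂ, V n) ω X]
    (hG : IsHermMetric G) :
    ∃ ms : MetricSpace X, ms.toPseudoMetricSpace.toUniformSpace.toTopologicalSpace = tX ∧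
      (∀ (p q : X) (L : ℝ), Reach G p q L → ms.dist p q ≤ L) ∧
      ∀ (p q : X) (ε : ℝ), 0 < ε → ∃ L < ms.dist p q + ε, Reach G p q L := by
  classical
  let d : X → X → ℝ := fun p q => sInf {L | Reach G p q L}
  have hne : ∀ p q : X, {L | Reach G p q L}.Nonempty := fun p q => reach_exists hG p q
  have hbd : ∀ p q : X, BddBelow {L | Reach G p q L} := fun p q => ⟨0, fun L hL => hL.nonneg⟩
  have hle : ∀ (p q : X) (L : ℝ), Reach G p q L → d p q ≤ L := fun p q L hL =>
    csInf_le (hbd p q) hL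
  have hex : ∀ (p q : X) (ε : ℝ), 0 < ε → ∃ L < d p q + ε, Reach G p q L := by
    intro p q ε hε
    obtain ⟨L, hL, hL'⟩ := exists_lt_of_csInf_lt (hne p q) (lt_add_of_pos_right (d p q) hε)
    exact ⟨L, hL', hL⟩
  have hlt : ∀ (p q : X) (ε : ℝ), d p q < ε → ∃ L < ε, Reach G p q L := by
    intro p q ε hε
    obtain ⟨L, hL, hL'⟩ := exists_lt_of_csInf_lt (hne p q) hε
    exact ⟨L, hL', hL⟩
  have hnn : ∀ p q, 0 ≤ d p q := fun p q => le_csInf (hne p q) fun L hL => hL.nonneg
  have hself : ∀ p : X, d p p = 0 := fun p => le_antisymm (hle p p 0 (Reach.refl p)) (hnn p p)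
  have hcomm : ∀ p q : X, d p q = d q p := by
    intro p q
    refine le_antisymm (le_csInf (hne q p) fun L hL => hle p q L (hL.symm hG))
      (le_csInf (hne p q) fun L hL => hle q p L (hL.symm hG))
  have htri : ∀ p q s : X, d p s ≤ d p q + d q s := by
    intro p q s
    refine le_of_forall_pos_le_add fun ε hε => ?_
    obtain ⟨L, hL, hR⟩ := hex p q (ε / 2) (by positivity)
    obtain ⟨L', hL', hR'⟩ := hex q s (ε / 2) (by positivity)
    have := hle p s (L + L') (hR.trans hR')
    linarith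
  have hzero : ∀ p q : X, d p q = 0 → p = q := by
    intro p q hpq
    have he := chart_mem_atlas (V n) p
    have hx₀ := mem_chart_source (V n) p
    generalize chartAt (V n) p = e at he hx₀
    have h1 : ∀ r : ℝ, 0 < r → q ∈ e.source ∧ ‖e q - e p‖ < r := by
      intro r hr
      obtain ⟨δ, hδ, h2⟩ := RMT_close hG he hx₀ hr
      obtain ⟨L, hL, hR⟩ := hlt p q δ (by rw [hpq]; exact hδ)
      exact h2 q L hL hR
    have h3 : ‖e q - e p‖ = 0 := by
      refine le_antisymm (le_of_forall_pos_le_add fun ε hε => ?_) (norm_nonneg _)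
      rw [zero_add]
      exact (h1 ε hε).2.le
    have h4 : e q = e p := by
      rw [norm_eq_zero, sub_eq_zero] at h3
      exact h3
    exact e.injOn hx₀ (h1 1 one_pos).1 h4.symm
  have htop : ∀ s : Set X, IsOpen s ↔ ∀ x ∈ s, ∃ ε > 0, ∀ y, d x y < ε → y ∈ s := by
    intro s
    constructor
    · intro hs x hx
      have he := chart_mem_atlas (V n) x
      have hx₀ := mem_chart_source (V n) x
      generalize chartAt (V n) x = e at he hx₀
      have h1 : ∀ᶠ z in 𝓝 (e x), e.symm z ∈ s := by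
        have h2 : ContinuousAt e.symm (e x) := e.symm.continuousAt (by
          show e x ∈ e.symm.source
          rw [e.symm_source]
          exact e.map_source hx₀)
        refine h2.eventually ?_
        rw [e.left_inv hx₀]
        exact hs.mem_nhds hx
      obtain ⟨r, hr, h2⟩ := Metric.eventually_nhds_iff.1 h1
      obtain ⟨δ, hδ, h3⟩ := RMT_close hG he hx₀ hr
      refine ⟨δ, hδ, fun y hy => ?_⟩
      obtain ⟨L, hL, hR⟩ := hlt x y δ hy
      obtain ⟨h4, h5⟩ := h3 y L hL hR
      have h6 := h2 (y := e y) (by rw [dist_eq_norm]; exact h5)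
      rwa [e.left_inv h4] at h6
    · intro hs
      rw [isOpen_iff_mem_nhds]
      intro x hx
      obtain ⟨δ, hδ, h1⟩ := hs x hx
      filter_upwards [RMT_nhds hG x hδ] with y hy
      obtain ⟨L, hL, hR⟩ := hy
      exact h1 y ((hle x y L hR).trans_lt hL)
  exact ⟨MetricSpace.ofDistTopology d hself hcomm htri htop hzero, rfl, hle, hex⟩

end KI
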