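import Pool.Agent.H49.KI.Defs
import Pool.Agent.H49.KB.SQ

/-! # RPA: piecewise C¹ paths in a complex manifold: elementary operations

Adapt Pool/Agent/H49/KB/RCH.lean (same structure, there for submanifolds of `ℂ^N`; here every piece lives
in a chart `e i`, which simplifies things: no tangent spaces). `herm_sesq`: `G e y` is `KB.Sesq`.
symm: reverse the order of the pieces and each piece (`c (1 - t)`); `G e y (-v) (-v) = G e y v v`.
seg: the piece `c t = y + (t:ℂ) • (y' - y)` in the chart `e` (segment in `e.target`). -/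

set_option autoImplicit false

namespace KI

open Complex Metric Set Filter Topology Manifold ContDiff
open KB (V DR wirt rho Sesq)

variable {n : ℕ} {X : Type} [TopologicalSpace X] [ChartedSpace (V n) X]
  {G : OpenPartialHomeomorph X (V n) → V n → V n → V n → ℂ}

theorem herm_sesq (hG : IsHermMetric G) {e : OpenPartialHomeomorph X (V n)}
    (he : e ∈ atlas (V n) X) {y : V n} (hy : y ∈ e.target) : Sesq (G e y) where
  add := hG.add e he y hy
  smul := hG.smul e he y hy
  symm := hG.symm e he y hy

theorem len_nonneg (e : OpenPartialHomeomorph X (V n)) (c : ℝ → V n) : 0 ≤ len G e c := by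
  unfold len
  apply intervalIntegral.integral_nonneg zero_le_one
  intro t _
  exact Real.sqrt_nonneg _

theorem Reach.nonneg {p q : X} {L : ℝ} (h : Reach G p q L) : 0 ≤ L := by
  obtain ⟨k, x, e, c, _, _, _, hL⟩ := h
  rw [← hL]
  exact Finset.sum_nonneg (fun i _ => len_nonneg _ _)

theorem Reach.refl (p : X) : Reach G p p 0 := by
  refine ⟨0, fun _ => p, fun _ => chartAt (V n) p, fun _ _ => 0, rfl, rfl, ?_, by simp⟩
  intro i hi
  exact absurd hi (Nat.not_lt_zero i)

theorem Reach.trans {p q s : X} {L L' : ℝ} (h : Reach G p q L) (h' : Reach G q s L') :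
    Reach G p s (L + L') := by
  obtain ⟨k, x, e, c, hx0, hxk, hc, hL⟩ := h
  obtain ⟨k', x', e', c', hx0', hxk', hc', hL'⟩ := h'
  refine ⟨k + k', fun i => if i < k then x i else x' (i - k),
    fun i => if i < k then e i else e' (i - k),
    fun i => if i < k then c i else c' (i - k), ?_, ?_, ?_, ?_⟩
  · by_cases hk : 0 < k
    · simp [hk, hx0]
    · have hk0 : k = 0 := by omega
      subst hk0
      simp only [lt_irrefl, if_false, Nat.sub_self]
      rw [hx0', ← hxk, hx0]
  · simp only [add_lt_iff_neg_left, Nat.not_lt_zero, if_false, Nat.add_sub_cancel_left]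
    exact hxk'
  · intro i hi
    by_cases hik : i < k
    · simp only [hik, if_true]
      by_cases hik' : i + 1 < k
      · simp only [hik', if_true]
        exact hc i hik
      · have : i + 1 = k := by omega
        simp only [hik', if_false]
        rw [this, Nat.sub_self, hx0', ← hxk, ← this]
        exact hc i hik
    · have h1 : ¬ (i + 1 < k) := by omega
      simp only [hik, h1, if_false]
      have h2 : i + 1 - k = i - k + 1 := by omega
      rw [h2]
      exact hc' (i - k) (by omega)
  · rw [Finset.sum_range_add, ← hL, ← hL']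
    congr 1
    · apply Finset.sum_congr rfl
      intro i hi
      simp [Finset.mem_range.mp hi]
    · apply Finset.sum_congr rfl
      intro i hi
      simp

theorem Reach.single {e : OpenPartialHomeomorph X (V n)} (he : e ∈ atlas (V n) X)
    {c : ℝ → V n} (h : IsPiece e c) :
    Reach G (e.symm (c 0)) (e.symm (c 1)) (len G e c) := by
  refine ⟨1, fun i => if i = 0 then e.symm (c 0) else e.symm (c 1), fun _ => e, fun _ => c,
    by simp, by simp, ?_, by simp⟩
  intro i hi
  have : i = 0 := by omega
  subst this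
  exact ⟨he, h, by simp, by simp⟩

private theorem RPA_rev_piece {e : OpenPartialHomeomorph X (V n)} {c : ℝ → V n} (h : IsPiece e c) :
    IsPiece e (fun t => c (1 - t)) := by
  obtain ⟨h1, h2⟩ := h
  refine ⟨?_, ?_⟩
  · apply h1.comp (contDiff_const.sub contDiff_id).contDiffOn
    intro t ht
    simp only [mem_Icc, id] at ht ⊢
    constructor <;> linarith [ht.1, ht.2]
  · intro t ht
    apply h2
    simp only [mem_Icc] at ht ⊢
    constructor <;> linarith [ht.1, ht.2]

private theorem RPA_rev_len (hG : IsHermMetric G) {e : OpenPartialHomeomorph X (V n)}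
    (he : e ∈ atlas (V n) X) {c : ℝ → V n} (h : IsPiece e c) :
    len G e (fun t => c (1 - t)) = len G e c := by
  unfold len
  have e1 : ∫ t in (0 : ℝ)..1, Real.sqrt (G e (c t) (deriv c t) (deriv c t)).re =
      ∫ t in (0 : ℝ)..1, Real.sqrt (G e (c (1 - t)) (deriv c (1 - t)) (deriv c (1 - t))).re := by
    have := intervalIntegral.integral_comp_sub_left (a := (0 : ℝ)) (b := 1)
      (fun t => Real.sqrt (G e (c t) (deriv c t) (deriv c t)).re) 1
    rw [this]
    norm_num
  rw [e1]
  apply intervalIntegral.integral_congr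
  intro t ht
  rw [uIcc_of_le zero_le_one] at ht
  have ht' : (1 - t) ∈ Icc (0 : ℝ) 1 := by
    constructor <;> linarith [ht.1, ht.2]
  have hd : deriv (fun s => c (1 - s)) t = - deriv c (1 - t) := by
    rw [deriv_comp_const_sub]
  have hs := herm_sesq hG he (h.2 _ ht')
  simp only
  rw [hd, hs.neg_left, hs.neg_right, neg_neg]

theorem Reach.symm (hG : IsHermMetric G) {p q : X} {L : ℝ} (h : Reach G p q L) :
    Reach G q p L := by
  obtain ⟨k, x, e, c, hx0, hxk, hc, hL⟩ := h
  refine ⟨k, fun i => x (k - i), fun i => e (k - 1 - i), fun i t => c (k - 1 - i) (1 - t),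
    ?_, ?_, ?_, ?_⟩
  · simpa using hxk
  · simpa using hx0
  · intro i hi
    obtain ⟨h1, h2, h3, h4⟩ := hc (k - 1 - i) (by omega)
    have e1 : k - 1 - i + 1 = k - i := by omega
    have e2 : k - 1 - i = k - (i + 1) := by omega
    refine ⟨h1, RPA_rev_piece h2, ?_, ?_⟩
    · simp only [sub_zero]
      rw [h4, e1]
    · simp only [sub_self]
      rw [h3, e2]
  · rw [← hL, ← Finset.sum_range_reflect (fun i => len G (e i) (c i))]
    apply Finset.sum_congr rfl
    intro i hi
    have hi' := Finset.mem_range.mp hi
    have h1 := hc (k - 1 - i) (by omega)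
    exact RPA_rev_len hG h1.1 h1.2.1

theorem reach_seg (hG : IsHermMetric G) {e : OpenPartialHomeomorph X (V n)}
    (he : e ∈ atlas (V n) X) {y w : V n} {C : ℝ}
    (hseg : ∀ t ∈ Icc (0 : ℝ) 1, y + (t : ℂ) • w ∈ e.target)
    (hC : ∀ t ∈ Icc (0 : ℝ) 1, Real.sqrt (G e (y + (t : ℂ) • w) w w).re ≤ C) :
    ∃ L ≤ C, Reach G (e.symm y) (e.symm (y + w)) L := by
  have hφ : ∀ t : ℝ, HasDerivAt (fun t : ℝ => y + (t : ℂ) • w) w t := by
    intro t
    have h1 : HasDerivAt (fun t : ℝ => (t : ℂ)) 1 t := Complex.ofRealCLM.hasDerivAt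
    have h2 := (h1.smul_const w).const_add y
    simpa using h2
  have hφs : ContDiff ℝ 1 (fun t : ℝ => y + (t : ℂ) • w) := by
    apply contDiff_const.add
    exact (Complex.ofRealCLM.contDiff).smul contDiff_const
  have hpiece : IsPiece e (fun t : ℝ => y + (t : ℂ) • w) := ⟨hφs.contDiffOn, hseg⟩
  have hR := Reach.single (G := G) he hpiece
  have e0 : y + ((0 : ℝ) : ℂ) • w = y := by simp
  have e1 : y + ((1 : ℝ) : ℂ) • w = y + w := by simp
  simp only [e0, e1] at hR
  refine ⟨_, ?_, hR⟩
  have hlen : len G e (fun t : ℝ => y + (t : ℂ) • w) =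
      ∫ t in (0 : ℝ)..1, Real.sqrt (G e (y + (t : ℂ) • w) w w).re := by
    unfold len
    apply intervalIntegral.integral_congr
    intro t _
    simp only
    rw [(hφ t).deriv]
  rw [hlen]
  have hcont : ContinuousOn (fun t : ℝ => Real.sqrt (G e (y + (t : ℂ) • w) w w).re) (Icc 0 1) := by
    have h1 : ContinuousOn (fun z => G e z w w) e.target := (hG.smooth e he w w).continuousOn
    have h2 : ContinuousOn (fun t : ℝ => G e (y + (t : ℂ) • w) w w) (Icc 0 1) :=
      h1.comp hφs.continuous.continuousOn hseg
    exact (Complex.continuous_re.comp_continuousOn h2).sqrt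
  have hint : IntervalIntegrable (fun t : ℝ => Real.sqrt (G e (y + (t : ℂ) • w) w w).re)
      MeasureTheory.volume 0 1 := by
    apply ContinuousOn.intervalIntegrable
    rwa [uIcc_of_le zero_le_one]
  have h3 := intervalIntegral.integral_mono_on (μ := MeasureTheory.volume) zero_le_one hint
    (intervalIntegrable_const (c := C)) hC
  simpa using h3

/-- length of an affine reparametrization of a `C¹` curve in a chart: if `c` is `C¹` on `[a, b]`
then `t ↦ c (a + t (b - a))` is a piece of length `∫_a^b |c'|` -/
theorem reach_interval (hG : IsHermMetric G) {e : OpenPartialHomeomorph X (V n)}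
    (he : e ∈ atlas (V n) X) {c : ℝ → V n} {a b : ℝ} (hab : a ≤ b)
    (hc : ContDiffOn ℝ 1 c (Icc a b)) (hct : ∀ t ∈ Icc a b, c t ∈ e.target) :
    Reach G (e.symm (c a)) (e.symm (c b))
      (∫ t in a..b, Real.sqrt (G e (c t) (deriv c t) (deriv c t)).re) := by
  have hba : 0 ≤ b - a := by linarith
  have hmap : ∀ t ∈ Icc (0 : ℝ) 1, a + (b - a) * t ∈ Icc a b := by
    intro t ht
    have h1 := mul_nonneg hba ht.1
    have h2 := mul_le_mul_of_nonneg_left ht.2 hba
    constructor <;> linarith
  have hpiece : IsPiece e (fun t : ℝ => c (a + (b - a) * t)) := by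
    refine ⟨?_, fun t ht => hct _ (hmap t ht)⟩
    have hs : ContDiff ℝ 1 (fun t : ℝ => a + (b - a) * t) :=
      contDiff_const.add (contDiff_const.mul contDiff_id)
    exact hc.comp hs.contDiffOn hmap
  have hR := Reach.single (G := G) he hpiece
  have e0 : a + (b - a) * 0 = a := by ring
  have e1 : a + (b - a) * 1 = b := by ring
  simp only [e0, e1] at hR
  have hlen : len G e (fun t : ℝ => c (a + (b - a) * t)) =
      ∫ t in a..b, Real.sqrt (G e (c t) (deriv c t) (deriv c t)).re := by
    have h1 := intervalIntegral.mul_integral_comp_add_mul (a := (0 : ℝ)) (b := 1)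
      (f := fun t => Real.sqrt (G e (c t) (deriv c t) (deriv c t)).re) (b - a) a
    rw [e0, e1] at h1
    rw [← h1, ← intervalIntegral.integral_const_mul]
    unfold len
    apply intervalIntegral.integral_congr
    intro t ht
    rw [uIcc_of_le zero_le_one] at ht
    simp only
    have hd : deriv (fun t : ℝ => c (a + (b - a) * t)) t = (b - a) • deriv c (a + (b - a) * t) := by
      have h2 := deriv_comp_mul_left (b - a) (fun s => c (a + s)) t
      rw [deriv_comp_const_add] at h2
      exact h2
    have hs := herm_sesq hG he (hct _ (hmap t ht))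
    have h3 : (b - a) • deriv c (a + (b - a) * t) =
        (((b - a : ℝ)) : ℂ) • deriv c (a + (b - a) * t) := (Complex.coe_smul _ _).symm
    rw [hd, h3, hs.smul_diag, Complex.norm_real, Real.norm_eq_abs, sq_abs,
      Real.sqrt_mul (sq_nonneg _), Real.sqrt_sq hba]
  rw [hlen] at hR
  exact hR

end KI
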