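import Pool.Agent.H49.KI.RPA

/-! # RSP: splitting a path at a given length

Adapt Pool/Agent/H49/KB/HRB.lean (`Reach.split`); the pieces are now in charts, `reach_interval` (RPA)
gives the two halves of the piece which is cut. -/

set_option autoImplicit false

namespace KI

open Complex Metric Set Filter Topology Manifold ContDiff
open KB (V DR wirt rho Sesq)

variable {n : ℕ} {X : Type} [TopologicalSpace X] [ChartedSpace (V n) X]
  {G : OpenPartialHomeomorph X (V n) → V n → V n → V n → ℂ}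

/-- the speed of a piece, a continuous function on `[0,1]` -/
theorem RSP_speed (hG : IsHermMetric G) {e : OpenPartialHomeomorph X (V n)}
    (he : e ∈ atlas (V n) X) {c : ℝ → V n} (hc : IsPiece e c) :
    ∃ ν : ℝ → ℝ, ContinuousOn ν (Icc 0 1) ∧
      ∀ t ∈ Ioo (0 : ℝ) 1, ν t = Real.sqrt (G e (c t) (deriv c t) (deriv c t)).re := by
  obtain ⟨h1, h2⟩ := hc
  have hu : UniqueDiffOn ℝ (Icc (0 : ℝ) 1) := uniqueDiffOn_Icc zero_lt_one
  have hdc : ContinuousOn (derivWithin c (Icc 0 1)) (Icc 0 1) :=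
    h1.continuousOn_derivWithin hu le_rfl
  refine ⟨fun t => Real.sqrt (G e (c t) (derivWithin c (Icc 0 1) t)
    (derivWithin c (Icc 0 1) t)).re, ?_, fun t ht => ?_⟩
  · have h3 : ContinuousOn (fun t => KB.mform (fun i j => G e (c t) (KB.bv i) (KB.bv j))
        (derivWithin c (Icc 0 1) t) (derivWithin c (Icc 0 1) t)) (Icc 0 1) := by
      have h4 : ∀ i j, ContinuousOn (fun t => G e (c t) (KB.bv i) (KB.bv j)) (Icc 0 1) :=
        fun i j => (hG.smooth e he (KB.bv i) (KB.bv j)).continuousOn.comp h1.continuousOn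
          (fun t ht => h2 t ht)
      have h5 : ∀ i, ContinuousOn (fun t => (derivWithin c (Icc 0 1) t) i) (Icc 0 1) :=
        fun i => (PiLp.continuous_apply 2 (fun _ => ℂ) i).comp_continuousOn hdc
      unfold KB.mform
      refine continuousOn_finsetSum _ fun i _ => continuousOn_finsetSum _ fun j _ => ?_
      have h6 : ContinuousOn (fun t => (starRingEnd ℂ) ((derivWithin c (Icc 0 1) t) j))
          (Icc 0 1) := Complex.continuous_conj.comp_continuousOn (h5 j)
      exact ((h4 i j).mul (h5 i)).mul h6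
    have h7 : ContinuousOn (fun t => (G e (c t) (derivWithin c (Icc 0 1) t)
        (derivWithin c (Icc 0 1) t)).re) (Icc 0 1) := by
      refine Complex.continuous_re.comp_continuousOn (h3.congr fun t ht => ?_)
      exact (herm_sesq hG he (h2 t ht)).expand _ _
    exact Real.continuous_sqrt.comp_continuousOn h7
  · change Real.sqrt (G e (c t) (derivWithin c (Icc 0 1) t) (derivWithin c (Icc 0 1) t)).re = _
    rw [derivWithin_of_mem_nhds (Icc_mem_nhds ht.1 ht.2)]

theorem RSP_one (hG : IsHermMetric G) {e : OpenPartialHomeomorph X (V n)}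
    (he : e ∈ atlas (V n) X) {c : ℝ → V n} (hc : IsPiece e c) {a : ℝ} (ha : 0 ≤ a)
    (hal : a ≤ len G e c) :
    ∃ z, Reach G (e.symm (c 0)) z a ∧ Reach G z (e.symm (c 1)) (len G e c - a) := by
  obtain ⟨ν, hνc, hν⟩ := RSP_speed hG he hc
  have hI : ∀ s t : ℝ, 0 ≤ s → s ≤ t → t ≤ 1 →
      ∫ u in s..t, Real.sqrt (G e (c u) (deriv c u) (deriv c u)).re = ∫ u in s..t, ν u := by
    intro s t hs hst ht
    apply intervalIntegral.integral_congr_Ioo_of_le hst
    intro u hu
    exact (hν u ⟨lt_of_le_of_lt hs hu.1, lt_of_lt_of_le hu.2 ht⟩).symm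
  have hfull : len G e c = ∫ t in (0 : ℝ)..1, ν t := hI 0 1 le_rfl zero_le_one le_rfl
  have hint : ∀ a ∈ Icc (0 : ℝ) 1, ∀ b ∈ Icc (0 : ℝ) 1,
      IntervalIntegrable ν MeasureTheory.volume a b :=
    fun a ha b hb => (hνc.mono (uIcc_subset_Icc ha hb)).intervalIntegrable
  have hcont : ContinuousOn (fun s => ∫ t in (0 : ℝ)..s, ν t) (Icc 0 1) := by
    have h1 := intervalIntegral.continuousOn_primitive_interval' (μ := MeasureTheory.volume)
      (hint 0 (left_mem_Icc.2 zero_le_one) 1 (right_mem_Icc.2 zero_le_one)) left_mem_uIcc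
    rwa [uIcc_of_le zero_le_one] at h1
  have hmem : a ∈ Icc (∫ t in (0 : ℝ)..0, ν t) (∫ t in (0 : ℝ)..1, ν t) := by
    rw [intervalIntegral.integral_same, ← hfull]
    exact ⟨ha, hal⟩
  obtain ⟨t₀, ht₀, hta⟩ := intermediate_value_Icc zero_le_one hcont hmem
  change ∫ t in (0 : ℝ)..t₀, ν t = a at hta
  refine ⟨e.symm (c t₀), ?_, ?_⟩
  · have h1 := reach_interval hG he ht₀.1 (hc.1.mono (Icc_subset_Icc_right ht₀.2))
      (fun t ht => hc.2 t ⟨ht.1, ht.2.trans ht₀.2⟩)
    rwa [hI 0 t₀ le_rfl ht₀.1 ht₀.2, hta] at h1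
  · have h1 := reach_interval hG he ht₀.2 (hc.1.mono (Icc_subset_Icc_left ht₀.1))
      (fun t ht => hc.2 t ⟨ht₀.1.trans ht.1, ht.2⟩)
    have h3 : ∫ t in t₀..1, ν t = len G e c - a := by
      rw [hfull, ← hta, ← intervalIntegral.integral_add_adjacent_intervals
        (hint 0 (left_mem_Icc.2 zero_le_one) t₀ ht₀) (hint t₀ ht₀ 1 (right_mem_Icc.2 zero_le_one))]
      ring
    rwa [hI t₀ 1 ht₀.1 ht₀.2 le_rfl, h3] at h1

theorem RSP_chain (hG : IsHermMetric G) (k : ℕ) (x : ℕ → X)
    (e : ℕ → OpenPartialHomeomorph X (V n)) (c : ℕ → ℝ → V n)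
    (hc : ∀ i < k, e i ∈ atlas (V n) X ∧ IsPiece (e i) (c i) ∧ (e i).symm (c i 0) = x i ∧
      (e i).symm (c i 1) = x (i + 1)) (a : ℝ) (ha : 0 ≤ a)
    (haL : a ≤ ∑ i ∈ Finset.range k, len G (e i) (c i)) :
    ∃ y, Reach G (x 0) y a ∧
      Reach G y (x k) (∑ i ∈ Finset.range k, len G (e i) (c i) - a) := by
  induction k with
  | zero =>
    rw [Finset.sum_range_zero] at haL ⊢
    have h0 : a = 0 := le_antisymm haL ha
    rw [h0, sub_zero]
    exact ⟨x 0, Reach.refl _, Reach.refl _⟩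
  | succ k ih =>
    have hc' : ∀ i < k, e i ∈ atlas (V n) X ∧ IsPiece (e i) (c i) ∧ (e i).symm (c i 0) = x i ∧
      (e i).symm (c i 1) = x (i + 1) := fun i hi => hc i (by omega)
    obtain ⟨hk1, hk2, hk3, hk4⟩ := hc k (Nat.lt_succ_self k)
    rw [Finset.sum_range_succ] at haL ⊢
    rcases le_or_gt a (∑ i ∈ Finset.range k, len G (e i) (c i)) with h | h
    · obtain ⟨y, h1, h2⟩ := ih hc' h
      refine ⟨y, h1, ?_⟩
      have h5 := Reach.single (G := G) hk1 hk2
      rw [hk3, hk4] at h5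
      have h3 := h2.trans h5
      convert h3 using 1
      ring
    · obtain ⟨z, h1, h2⟩ := RSP_one hG hk1 hk2
        (a := a - ∑ i ∈ Finset.range k, len G (e i) (c i)) (by linarith) (by linarith)
      rw [hk3] at h1
      rw [hk4] at h2
      have h3 : Reach G (x 0) (x k) (∑ i ∈ Finset.range k, len G (e i) (c i)) :=
        ⟨k, x, e, c, rfl, rfl, hc', rfl⟩
      refine ⟨z, ?_, ?_⟩
      · have h4 := h3.trans h1
        convert h4 using 1
        ring
      · convert h2 using 1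
        ring

theorem Reach.split (hG : IsHermMetric G) {p q : X} {L a : ℝ}
    (h : Reach G p q L) (ha : 0 ≤ a) (haL : a ≤ L) :
    ∃ y, Reach G p y a ∧ Reach G y q (L - a) := by
  obtain ⟨k, x, e, c, rfl, rfl, hc, rfl⟩ := h
  exact RSP_chain hG k x e c hc a ha haL

end KI
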