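import Pool.Agent.H49.KI.Ctx
import Pool.Agent.H49.KI.RSP
import Pool.Agent.H49.KI.RLO
import Pool.Agent.H49.KI.MGD

/-! # RPR: consequences in the metric space `X`

PROOFS. (isLen) `ctx.reach x y ε'` gives `L < dist x y + ε'`; if `t ≤ L` split at `t` (`Reach.split`),
`dist ≤ L` (`ctx.dist_le`). (`t ≤ dist x y ≤ L`.)
(proper) `CompleteSpace X` from `Complete G` (`Metric.complete_of_cauchySeq_tendsto`; a Cauchy sequence for
`dist` satisfies the hypothesis by `ctx.reach`); `LocallyCompactSpace X`: `ChartedSpace.locallyCompactSpace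
(V n) X`. (exists_mgeod) from `geod_of_isLen`. (loc_upper) `reach_upper` and `ctx.dist_le`.
(loc_lower) `reach_lower` with a smaller radius: for `y, y'` in a ball of radius `ρ' ≤ ρ/8C` the distance
`dist (e.symm y) (e.symm y')` is `< ρ/2` (`loc_upper`), so for `η` small there is `L < dist + η < ρ` with
`Reach`, `N₀ (y' - y) ≤ (1+ε) L ≤ (1+ε)(dist + η)`; `η → 0`. (`e (e.symm y') = y'`.) -/

set_option autoImplicit false

namespace KI

open Complex Metric Set Filter Topology Manifold ContDiff MeasureTheory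
open KB (V DR wirt levi rho Sesq lap lapC dz)

variable {n : ℕ} {X : Type} [MetricSpace X] [ChartedSpace (V n) X]
  {G : OpenPartialHomeomorph X (V n) → V n → V n → V n → ℂ}

theorem isLen_of_ctx (ctx : Ctx G) : IsLen X := by
  intro x y t ε ht hty hε
  obtain ⟨L, hL, hr⟩ := ctx.reach x y ε hε
  have h1 : dist x y ≤ L := ctx.dist_le x y L hr
  obtain ⟨z, h2, h3⟩ := Reach.split ctx.herm hr ht (hty.trans h1)
  have h4 := ctx.dist_le x z _ h2
  have h5 := ctx.dist_le z y _ h3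
  exact ⟨z, by linarith, by linarith⟩

theorem proper_of_complete [IsManifold 𝓘(ℂ, V n) ω X] (ctx : Ctx G) (hc : Complete G) :
    ProperSpace X := by
  have h1 : CompleteSpace X := by
    refine Metric.complete_of_cauchySeq_tendsto fun u hu => hc u fun ε hε => ?_
    obtain ⟨m, hm⟩ := Metric.cauchySeq_iff.1 hu (ε / 2) (half_pos hε)
    refine ⟨m, fun k hk l hl => ?_⟩
    obtain ⟨L, hL, hr⟩ := ctx.reach (u k) (u l) (ε / 2) (half_pos hε)
    have h2 := hm k hk l hl
    exact ⟨L, by linarith, hr⟩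
  have h2 : LocallyCompactSpace X := ChartedSpace.locallyCompactSpace (V n) X
  exact proper_of_isLen (isLen_of_ctx ctx)

theorem exists_mgeod [ProperSpace X] (ctx : Ctx G) (x q : X) :
    ∃ σ : ℝ → X, IsMGeod σ (dist x q) ∧ σ 0 = x ∧ σ (dist x q) = q := by
  exact geod_of_isLen (isLen_of_ctx ctx) x q

theorem loc_upper [IsManifold 𝓘(ℂ, V n) ω X] (ctx : Ctx G)
    {e : OpenPartialHomeomorph X (V n)} (he : e ∈ atlas (V n) X) {x₀ : X} (hx₀ : x₀ ∈ e.source)
    {ε : ℝ} (hε : 0 < ε) :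
    ∃ ρ > 0, ball (e x₀) ρ ⊆ e.target ∧ ∀ y ∈ ball (e x₀) ρ, ∀ y' ∈ ball (e x₀) ρ,
      dist (e.symm y) (e.symm y') ≤
        (1 + ε) * Real.sqrt (G e (e x₀) (y' - y) (y' - y)).re := by
  obtain ⟨ρ, hρ, hsub, h⟩ := reach_upper ctx.herm he hx₀ hε
  refine ⟨ρ, hρ, hsub, fun y hy y' hy' => ?_⟩
  obtain ⟨L, hL, hr⟩ := h y hy y' hy'
  exact (ctx.dist_le _ _ L hr).trans hL

theorem loc_lower [IsManifold 𝓘(ℂ, V n) ω X] (ctx : Ctx G)
    {e : OpenPartialHomeomorph X (V n)} (he : e ∈ atlas (V n) X) {x₀ : X} (hx₀ : x₀ ∈ e.source)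
    {ε : ℝ} (hε : 0 < ε) :
    ∃ ρ > 0, ball (e x₀) ρ ⊆ e.target ∧ ∀ y ∈ ball (e x₀) ρ, ∀ y' ∈ ball (e x₀) ρ,
      Real.sqrt (G e (e x₀) (y' - y) (y' - y)).re ≤
        (1 + ε) * dist (e.symm y) (e.symm y') := by
  obtain ⟨ρ, hρ, hsub, h⟩ := reach_lower ctx.herm he hx₀ hε
  obtain ⟨ρ₂, hρ₂, -, h₂⟩ := loc_upper ctx he hx₀ one_pos
  obtain ⟨ρ₁, hρ₁, -, κ, -, C, hC, h₁⟩ := rup_norm ctx.herm he hx₀ one_pos
  have hC' : 0 < ρ / (16 * C) := by positivity
  refine ⟨min ρ (min ρ₂ (ρ / (16 * C))), by positivity,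
    (ball_subset_ball (min_le_left _ _)).trans hsub, fun y hy y' hy' => ?_⟩
  have hy1 : y ∈ ball (e x₀) ρ := ball_subset_ball (min_le_left _ _) hy
  have hy'1 : y' ∈ ball (e x₀) ρ := ball_subset_ball (min_le_left _ _) hy'
  have hy2 : y ∈ ball (e x₀) ρ₂ :=
    ball_subset_ball ((min_le_right _ _).trans (min_le_left _ _)) hy
  have hy'2 : y' ∈ ball (e x₀) ρ₂ :=
    ball_subset_ball ((min_le_right _ _).trans (min_le_left _ _)) hy'
  have hy3 : dist y (e x₀) < ρ / (16 * C) :=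
    lt_of_lt_of_le (mem_ball.1 hy) ((min_le_right _ _).trans (min_le_right _ _))
  have hy'3 : dist y' (e x₀) < ρ / (16 * C) :=
    lt_of_lt_of_le (mem_ball.1 hy') ((min_le_right _ _).trans (min_le_right _ _))
  have hnorm : ‖y' - y‖ ≤ 2 * (ρ / (16 * C)) := by
    rw [← dist_eq_norm]
    have := dist_triangle_right y' y (e x₀)
    linarith
  have hd : dist (e.symm y) (e.symm y') < ρ / 2 := by
    have h3 := h₂ y hy2 y' hy'2
    have h4 := (h₁ (e x₀) (mem_closedBall_self hρ₁.le) (y' - y)).2.1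
    have h5 : C * ‖y' - y‖ ≤ C * (2 * (ρ / (16 * C))) := mul_le_mul_of_nonneg_left hnorm hC.le
    have h6 : C * (2 * (ρ / (16 * C))) = ρ / 8 := by
      field_simp
      ring
    linarith
  have hes : e (e.symm y') = y' := e.right_inv (hsub hy'1)
  by_contra hcon
  push Not at hcon
  have hgap : 0 < (Real.sqrt (G e (e x₀) (y' - y) (y' - y)).re -
      (1 + ε) * dist (e.symm y) (e.symm y')) / (2 * (1 + ε)) := by
    apply div_pos
    · linarith
    · positivity
  obtain ⟨L, hL, hr⟩ := ctx.reach (e.symm y) (e.symm y')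
    (min (ρ / 4) ((Real.sqrt (G e (e x₀) (y' - y) (y' - y)).re -
      (1 + ε) * dist (e.symm y) (e.symm y')) / (2 * (1 + ε)))) (lt_min (by positivity) hgap)
  have hL1 : L < dist (e.symm y) (e.symm y') + ρ / 4 :=
    lt_of_lt_of_le hL (add_le_add_right (min_le_left _ _) _)
  have hL2 : L < dist (e.symm y) (e.symm y') +
      (Real.sqrt (G e (e x₀) (y' - y) (y' - y)).re -
      (1 + ε) * dist (e.symm y) (e.symm y')) / (2 * (1 + ε)) :=
    lt_of_lt_of_le hL (add_le_add_right (min_le_right _ _) _)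
  have h7 := (h y hy1 (e.symm y') L (by linarith) hr).2
  rw [hes] at h7
  have h8 : (1 + ε) * L < (1 + ε) * (dist (e.symm y) (e.symm y') +
      (Real.sqrt (G e (e x₀) (y' - y) (y' - y)).re -
      (1 + ε) * dist (e.symm y) (e.symm y')) / (2 * (1 + ε))) :=
    mul_lt_mul_of_pos_left hL2 (by positivity)
  have h9 : (1 + ε) * (dist (e.symm y) (e.symm y') +
      (Real.sqrt (G e (e x₀) (y' - y) (y' - y)).re -
      (1 + ε) * dist (e.symm y) (e.symm y')) / (2 * (1 + ε)))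
      = ((1 + ε) * dist (e.symm y) (e.symm y') +
        Real.sqrt (G e (e x₀) (y' - y) (y' - y)).re) / 2 := by
    have h10 : (1 + ε) ≠ 0 := by positivity
    field_simp
    ring
  linarith

end KI
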