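import Pool.Agent.H49.KI.RPA

/-! # RUP: sharp upper bound for lengths near a point

PROOF. `N₀ a = Real.sqrt (G e (e x₀) a a).re`. `(y, a) ↦ (G e y a a).re` is continuous on
`e.target ×ˢ univ` (`KB.Sesq.continuousOn` with `hG.smooth`). On the compact set
`closedBall (e x₀) ρ₁ ×ˢ sphere 0 1` it is uniformly continuous and positive, so for `ρ` small
`Real.sqrt (G e y a a).re ≤ (1 + ε) N₀ a` for `‖y - e x₀‖ < ρ` and all `a` (homogeneity,
`KB.Sesq.smul_diag`). Then `reach_seg` with `w = y' - y` (the ball is convex). `rup_norm`: both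
comparisons of norms near `x₀` (needed in RLO too). -/

set_option autoImplicit false

namespace KI

open Complex Metric Set Filter Topology Manifold ContDiff
open KB (V DR wirt rho Sesq)

variable {n : ℕ} {X : Type} [TopologicalSpace X] [ChartedSpace (V n) X]
  {G : OpenPartialHomeomorph X (V n) → V n → V n → V n → ℂ}

/-- homogeneity of the norm -/
theorem RUP_smul (hG : IsHermMetric G) {e : OpenPartialHomeomorph X (V n)}
    (he : e ∈ atlas (V n) X) {y : V n} (hy : y ∈ e.target) (t : ℂ) (a : V n) :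
    Real.sqrt (G e y (t • a) (t • a)).re = ‖t‖ * Real.sqrt (G e y a a).re := by
  rw [(herm_sesq hG he hy).smul_diag, Real.sqrt_mul (sq_nonneg _), Real.sqrt_sq (norm_nonneg _)]

theorem RUP_zero (hG : IsHermMetric G) {e : OpenPartialHomeomorph X (V n)}
    (he : e ∈ atlas (V n) X) {y : V n} (hy : y ∈ e.target) :
    Real.sqrt (G e y 0 0).re = 0 := by
  rw [(herm_sesq hG he hy).zero_left]
  simp

/-- joint continuity of the norm -/
theorem RUP_cont (hG : IsHermMetric G) {e : OpenPartialHomeomorph X (V n)}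
    (he : e ∈ atlas (V n) X) :
    ContinuousOn (fun p : V n × V n => Real.sqrt (G e p.1 p.2 p.2).re) (e.target ×ˢ univ) := by
  have h1 : ContinuousOn (fun p : V n × V n => G e p.1 p.2 p.2) (e.target ×ˢ univ) := by
    refine Sesq.continuousOn (A := fun p : V n × V n => G e p.1) (fun p hp => herm_sesq hG he hp.1) ?_
      continuous_snd.continuousOn continuous_snd.continuousOn
    intro a b
    have h2 := (hG.smooth e he a b).continuousOn
    exact h2.comp continuous_fst.continuousOn (fun p hp => hp.1)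
  exact Real.continuous_sqrt.comp_continuousOn (Complex.continuous_re.comp_continuousOn h1)

/-- near `x₀` the metric is close to the metric at `x₀`; and it is comparable to the Euclidean one -/
theorem rup_norm (hG : IsHermMetric G) {e : OpenPartialHomeomorph X (V n)}
    (he : e ∈ atlas (V n) X) {x₀ : X} (hx₀ : x₀ ∈ e.source) {ε : ℝ} (hε : 0 < ε) :
    ∃ ρ > 0, closedBall (e x₀) ρ ⊆ e.target ∧ ∃ κ > 0, ∃ C > 0, ∀ y ∈ closedBall (e x₀) ρ, ∀ a,
      κ * ‖a‖ ≤ Real.sqrt (G e y a a).re ∧ Real.sqrt (G e y a a).re ≤ C * ‖a‖ ∧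
      Real.sqrt (G e y a a).re ≤ (1 + ε) * Real.sqrt (G e (e x₀) a a).re ∧
      Real.sqrt (G e (e x₀) a a).re ≤ (1 + ε) * Real.sqrt (G e y a a).re := by
  have ht : e x₀ ∈ e.target := e.map_source hx₀
  obtain ⟨ρ₁, hρ₁, hsub⟩ := Metric.nhds_basis_closedBall.mem_iff.mp (e.open_target.mem_nhds ht)
  set K : Set (V n × V n) := closedBall (e x₀) ρ₁ ×ˢ sphere (0 : V n) 1 with hK
  have hKc : IsCompact K := (isCompact_closedBall _ _).prod (isCompact_sphere _ _)
  set F : V n × V n → ℝ := fun p => Real.sqrt (G e p.1 p.2 p.2).re with hF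
  have hFc : ContinuousOn F K := (RUP_cont hG he).mono (fun p hp => ⟨hsub hp.1, mem_univ _⟩)
  -- the bounds on the unit sphere
  have key : ∃ κ > 0, ∃ C > 0, ∀ p ∈ K, κ ≤ F p ∧ F p ≤ C := by
    rcases K.eq_empty_or_nonempty with hKe | hKn
    · refine ⟨1, one_pos, 1, one_pos, fun p hp => ?_⟩
      rw [hKe] at hp
      exact absurd hp (notMem_empty _)
    · obtain ⟨p₁, hp₁, hmin⟩ := hKc.exists_isMinOn hKn hFc
      obtain ⟨p₂, hp₂, hmax⟩ := hKc.exists_isMaxOn hKn hFc
      have hpos : 0 < F p₁ := by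
        refine Real.sqrt_pos.mpr (hG.pos e he _ (hsub hp₁.1) _ ?_)
        intro h0
        have := hp₁.2
        rw [mem_sphere_zero_iff_norm, h0, norm_zero] at this
        exact zero_ne_one this
      exact ⟨F p₁, hpos, F p₂, hpos.trans_le (isMinOn_iff.mp hmin p₂ hp₂),
        fun p hp => ⟨isMinOn_iff.mp hmin p hp, isMaxOn_iff.mp hmax p hp⟩⟩
  obtain ⟨κ, hκ, C, hC, hb⟩ := key
  -- uniform continuity
  have hu := hKc.uniformContinuousOn_of_continuous hFc
  rw [Metric.uniformContinuousOn_iff] at hu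
  obtain ⟨η, hη, hu'⟩ := hu (ε * κ) (by positivity)
  set ρ : ℝ := min ρ₁ (η / 2) with hρ
  have hρ0 : 0 < ρ := lt_min hρ₁ (by positivity)
  have hρ1 : ρ ≤ ρ₁ := min_le_left _ _
  have hρ2 : ρ < η := lt_of_le_of_lt (min_le_right _ _) (by linarith)
  have hsub' : closedBall (e x₀) ρ ⊆ e.target := (closedBall_subset_closedBall hρ1).trans hsub
  refine ⟨ρ, hρ0, hsub', κ, hκ, C, hC, ?_⟩
  intro y hy a
  have hyt : y ∈ e.target := hsub' hy
  rcases eq_or_ne a 0 with ha | ha
  · subst ha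
    rw [RUP_zero hG he hyt, RUP_zero hG he ht, norm_zero]
    simp
  have hna : 0 < ‖a‖ := norm_pos_iff.mpr ha
  set b : V n := ((‖a‖⁻¹ : ℝ) : ℂ) • a with hbdef
  have hb1 : ‖b‖ = 1 := by
    rw [hbdef, norm_smul, Complex.norm_real, Real.norm_eq_abs, abs_of_pos (inv_pos.mpr hna),
      inv_mul_cancel₀ hna.ne']
  have hab : a = ((‖a‖ : ℝ) : ℂ) • b := by
    rw [hbdef, smul_smul, ← Complex.ofReal_mul, mul_inv_cancel₀ hna.ne', Complex.ofReal_one, one_smul]
  have hbs : b ∈ sphere (0 : V n) 1 := mem_sphere_zero_iff_norm.mpr hb1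
  have e1 : Real.sqrt (G e y a a).re = ‖a‖ * F (y, b) := by
    conv_lhs => rw [hab]
    rw [RUP_smul hG he hyt, Complex.norm_real, Real.norm_eq_abs, abs_of_pos hna]
  have e2 : Real.sqrt (G e (e x₀) a a).re = ‖a‖ * F (e x₀, b) := by
    conv_lhs => rw [hab]
    rw [RUP_smul hG he ht, Complex.norm_real, Real.norm_eq_abs, abs_of_pos hna]
  have m1 : (y, b) ∈ K := ⟨closedBall_subset_closedBall hρ1 hy, hbs⟩
  have m2 : (e x₀, b) ∈ K := ⟨mem_closedBall_self hρ₁.le, hbs⟩
  have hd : dist (y, b) (e x₀, b) < η := by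
    rw [Prod.dist_eq, dist_self, max_eq_left dist_nonneg]
    exact lt_of_le_of_lt (mem_closedBall.mp hy) hρ2
  have hFd := hu' (y, b) m1 (e x₀, b) m2 hd
  rw [Real.dist_eq, abs_lt] at hFd
  have b1 := hb _ m1
  have b2 := hb _ m2
  rw [e1, e2]
  refine ⟨?_, ?_, ?_, ?_⟩
  · rw [mul_comm]
    exact mul_le_mul_of_nonneg_left b1.1 hna.le
  · rw [mul_comm C]
    exact mul_le_mul_of_nonneg_left b1.2 hna.le
  · rw [mul_left_comm]
    refine mul_le_mul_of_nonneg_left ?_ hna.le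
    have : ε * κ ≤ ε * F (e x₀, b) := mul_le_mul_of_nonneg_left b2.1 hε.le
    linarith [hFd.2]
  · rw [mul_left_comm]
    refine mul_le_mul_of_nonneg_left ?_ hna.le
    have : ε * κ ≤ ε * F (y, b) := mul_le_mul_of_nonneg_left b1.1 hε.le
    linarith [hFd.1]

theorem reach_upper (hG : IsHermMetric G) {e : OpenPartialHomeomorph X (V n)}
    (he : e ∈ atlas (V n) X) {x₀ : X} (hx₀ : x₀ ∈ e.source) {ε : ℝ} (hε : 0 < ε) :
    ∃ ρ > 0, ball (e x₀) ρ ⊆ e.target ∧ ∀ y ∈ ball (e x₀) ρ, ∀ y' ∈ ball (e x₀) ρ,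
      ∃ L ≤ (1 + ε) * Real.sqrt (G e (e x₀) (y' - y) (y' - y)).re,
        Reach G (e.symm y) (e.symm y') L := by
  obtain ⟨ρ, hρ, hsub, κ, hκ, C, hC, hb⟩ := rup_norm hG he hx₀ hε
  refine ⟨ρ, hρ, ball_subset_closedBall.trans hsub, ?_⟩
  intro y hy y' hy'
  have hseg : ∀ t ∈ Icc (0 : ℝ) 1, y + (t : ℂ) • (y' - y) ∈ ball (e x₀) ρ := by
    intro t ht
    have h1 := (convex_ball (e x₀) ρ).add_smul_sub_mem hy hy' ht
    rwa [Complex.coe_smul]
  obtain ⟨L, hL, hR⟩ := reach_seg hG he (y := y) (w := y' - y)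
    (C := (1 + ε) * Real.sqrt (G e (e x₀) (y' - y) (y' - y)).re)
    (fun t ht => hsub (ball_subset_closedBall (hseg t ht)))
    (fun t ht => (hb _ (ball_subset_closedBall (hseg t ht)) _).2.2.1)
  refine ⟨L, hL, ?_⟩
  have : y + (y' - y) = y' := by abel
  rwa [this] at hR

end KI
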