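import Pool.Agent.H49.KI.TopE
import Pool.Agent.H49.KI.Geod
import Pool.Agent.H49.KI.GE5
import Pool.Agent.H50.KI.Bco
import Pool.Agent.H50.KI.Bre

/-! # Block C: second variation, barriers for the distance function

`KI.barrier_complex` (Pool/Agent/H50/KI/Bco.lean), `KI.barrier_real` (Bre.lean). -/
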