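import Pool.Agent.H94.TH.FIN

/-! # Blocks F, G (helper94): holomorphic thickening of a disc

See /team-store/H49_KI_design.md, part (3). No metric `G` is needed. The proof is in
`Pool/Agent/H94/TH`. -/

set_option autoImplicit false

namespace KI

open Complex Metric Set Filter Topology Manifold ContDiff
open KB (V DR wirt levi rho Sesq lap lapC dz)

variable {n : ℕ} {X : Type} [MetricSpace X] [ChartedSpace (V n) X]

/-- every disc which is continuous on the closed disc and holomorphic inside has a thickening -/
theorem exists_thick [IsManifold 𝓘(ℂ, V n) ω X] {f : ℂ → X}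
    (hf : Hol n (closedBall (0 : ℂ) 1) f) :
    ∃ (r : ℝ) (Φ : ℂ → V n → X), Thick f r Φ :=
  TH.exists_thick hf

end KI
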