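import Pool.Agent.H49.KI.TopH
import Pool.Agent.H49.KI.TopG
import Pool.Agent.H50.KI.Big

/-! # Block I (helper50): moving a disc with uniform rates, the ordering argument

`KI.StrictPSH` (Pool/Agent/H50/KI/Psh.lean), `KI.move` (Mov.lean), `KI.big_disc` (Big.lean). -/
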