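import Pool.Agent.H49.KI.CNV
import Pool.Agent.H49.KI.TopC
import Pool.Agent.H49.KI.TopI

/-! # SPH: `-dist(·, q)` is strictly plurisubharmonic on a ball, uniformly for far points `q`

PROOF. `hP`: `K` compact, `SecPosOn G Kᶜ`; `K ⊆ closedBall p RK` (`IsCompact.isBounded`,
`Bornology.IsBounded.subset_closedBall`). `R₃ = max RK (max R₂ 0) + 1`,
`N = {x | R₃ ≤ dist p x ∧ dist p x ≤ R₃ + 1}`: compact (closed subset of `closedBall p (R₃ + 1)`), `N ⊆ Kᶜ`.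
`bkN_lower` (TopE) gives `k₀ > 0` with `k₀ |a|² |b|² ≤ bkN G e y a b` if `e.symm y ∈ N`. Take `k = k₀ / 16`,
`T₁ = R₂ + 8 / k₀ + 2 * (|R₂| + R₃ + 2)` (or any larger number). Let `T₁ ≤ dist p q`, `f z₀ ∈ closedBall p R₂`,
`ℓ = dist (f z₀) q ≥ T₁ - R₂ ≥ 8 / k₀`, `ℓ > 0`, `f z₀ ≠ q`. Hypothesis `hcross` of `barrier_complex`: for `σ` minimal
from `f z₀` to `q`, `g t = dist p (σ t)` is 1-Lipschitz on `[0, ℓ/2]`, `g 0 ≤ R₂ ≤ R₃`,
`g (ℓ/2) ≥ dist (σ 0) (σ (ℓ/2)) - dist p (σ 0) ≥ ℓ/2 - R₂ ≥ R₃ + 1`: `crossing` (CNV.lean) with `A = R₃`,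
`m = ℓ/2`. `barrier_complex` with `k₀` and `ε` (`hr`, `hf` as given): for small `ρ`
`avg4 (dist (f ·) q) z₀ ρ - ℓ ≤ ρ²/2 (vsq/ℓ - k₀/4 vsq + ε) ≤ ρ²/2 (-k₀/8 vsq + ε)`
(`0 ≤ vsq G f z₀`, to be proved from `ctx.herm.pos`, as `vsq_nonneg` in Final.lean; `1/ℓ ≤ k₀/8`), so
`avg4 (-dist) + ℓ ≥ ρ² (k₀/16 vsq - ε/2)`. (`avg4 (fun z => -u z) = -avg4 u`: unfold, ring.) -/

set_option autoImplicit false

namespace KI

open Complex Metric Set Filter Topology Manifold ContDiff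
open KB (V DR wirt levi rho Sesq lap lapC dz)

variable {n : ℕ} {X : Type} [MetricSpace X] [ChartedSpace (V n) X]
  {G : OpenPartialHomeomorph X (V n) → V n → V n → V n → ℂ}

theorem SPH_vsq_nonneg (ctx : Ctx G) (f : ℂ → X) (z : ℂ) : 0 ≤ vsq G f z := by
  have he := chart_mem_atlas (V n) (f z)
  have hy : chartAt (V n) (f z) (f z) ∈ (chartAt (V n) (f z)).target :=
    (chartAt (V n) (f z)).map_source (mem_chart_source (V n) (f z))
  by_cases h : deriv (fun w => chartAt (V n) (f z) (f w)) z = 0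
  · have h0 := ctx.herm.smul _ he _ hy 0 0 0
    unfold vsq
    rw [h]
    simp only [smul_zero, zero_mul] at h0
    rw [h0]
    simp
  · exact (ctx.herm.pos _ he _ hy _ h).le

theorem strict_psh [IsManifold 𝓘(ℂ, V n) ω X] [ProperSpace X] (ctx : Ctx G)
    (hS : SecNonneg G) (hP : ∃ K : Set X, IsCompact K ∧ SecPosOn G Kᶜ) (p : X) (R₂ : ℝ) :
    ∃ k > 0, ∃ T₁, ∀ q, T₁ ≤ dist p q →
      StrictPSH G (fun x => -dist x q) (closedBall p R₂) k := by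
  obtain ⟨K, hKc, hKP⟩ := hP
  obtain ⟨RK, hRK⟩ := hKc.isBounded.subset_closedBall p
  obtain ⟨R₃, hR₃⟩ : ∃ R₃ : ℝ, R₃ = max RK (max R₂ 0) + 1 := ⟨_, rfl⟩
  have hR₃K : RK < R₃ := by
    have := le_max_left RK (max R₂ 0)
    linarith
  have hR₃2 : R₂ ≤ R₃ := by
    have h1 := le_max_right RK (max R₂ 0)
    have h2 := le_max_left R₂ 0
    linarith
  have hR₃0 : 0 ≤ R₃ := by
    have h1 := le_max_right RK (max R₂ 0)
    have h2 := le_max_right R₂ 0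
    linarith
  obtain ⟨N, hN⟩ : ∃ N : Set X, N = {x | R₃ ≤ dist p x ∧ dist p x ≤ R₃ + 1} := ⟨_, rfl⟩
  have hNcl : IsClosed N := by
    rw [hN]
    have h1 : Continuous fun x : X => dist p x := continuous_const.dist continuous_id
    exact (isClosed_le continuous_const h1).inter (isClosed_le h1 continuous_const)
  have hNc : IsCompact N := by
    refine (isCompact_closedBall p (R₃ + 1)).of_isClosed_subset hNcl ?_
    intro x hx
    rw [hN] at hx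
    rw [mem_closedBall, dist_comm]
    exact hx.2
  have hNK : N ⊆ Kᶜ := by
    intro x hx hxK
    rw [hN] at hx
    have h1 := hRK hxK
    rw [mem_closedBall, dist_comm] at h1
    have h2 := hx.1
    linarith
  obtain ⟨k₀, hk₀, hlow⟩ := bkN_lower ctx.herm ctx.kaehler hS hNc hNK hKP
  have h8 : 0 < 8 / k₀ := by positivity
  refine ⟨k₀ / 16, by positivity, R₂ + 8 / k₀ + 2 * (|R₂| + R₃ + 2), ?_⟩
  intro q hq f z₀ r hr hf hz₀ ε hε
  rw [mem_closedBall, dist_comm] at hz₀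
  have habs : R₂ ≤ |R₂| := le_abs_self R₂
  have habs0 : 0 ≤ |R₂| := abs_nonneg R₂
  have htri := dist_triangle p (f z₀) q
  have hℓ : 8 / k₀ + 2 * (|R₂| + R₃ + 2) ≤ dist (f z₀) q := by linarith
  have hℓ8 : 8 / k₀ ≤ dist (f z₀) q := by linarith
  have hℓ2 : R₂ + R₃ + 1 ≤ dist (f z₀) q / 2 := by linarith
  have hℓ0 : 0 < dist (f z₀) q := lt_of_lt_of_le h8 hℓ8
  have hne : f z₀ ≠ q := dist_pos.1 hℓ0
  have hcross : ∀ σ : ℝ → X, IsMGeod σ (dist (f z₀) q) → σ 0 = f z₀ →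
      σ (dist (f z₀) q) = q →
      ∃ a b, 0 ≤ a ∧ a + 1 ≤ b ∧ b ≤ dist (f z₀) q / 2 ∧ ∀ t ∈ Icc a b, σ t ∈ N := by
    intro σ hσ h0 h1
    have hsub : ∀ s ∈ Icc (0 : ℝ) (dist (f z₀) q / 2), s ∈ Icc (0 : ℝ) (dist (f z₀) q) :=
      fun s hs => ⟨hs.1, by linarith [hs.2]⟩
    have hm : 0 ≤ dist (f z₀) q / 2 := by positivity
    obtain ⟨a, b, ha, hab, hb, ht⟩ := crossing (g := fun t => dist p (σ t)) (A := R₃) hm
      (fun s hs t ht => by
        have e1 := hσ s (hsub s hs) t (hsub t ht)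
        rw [← e1, dist_comm p (σ s), dist_comm p (σ t)]
        exact abs_dist_sub_le (σ s) (σ t) p)
      (by
        show dist p (σ 0) ≤ R₃
        rw [h0]
        linarith)
      (by
        show R₃ + 1 ≤ dist p (σ (dist (f z₀) q / 2))
        have e1 := hσ 0 ⟨le_refl _, hℓ0.le⟩ (dist (f z₀) q / 2) (hsub _ ⟨hm, le_refl _⟩)
        rw [h0, zero_sub, abs_neg, abs_of_nonneg hm] at e1
        have e2 := dist_triangle_left (f z₀) (σ (dist (f z₀) q / 2)) p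
        rw [e1] at e2
        linarith)
    refine ⟨a, b, ha, hab, hb, fun t ht' => ?_⟩
    rw [hN]
    exact ht t ht'
  have hbar := barrier_complex ctx hS hr hf hne hk₀.le hlow hcross hε
  have hv := SPH_vsq_nonneg ctx f z₀
  have hinv : vsq G f z₀ / dist (f z₀) q ≤ k₀ / 8 * vsq G f z₀ := by
    rw [div_le_iff₀ hℓ0]
    have e1 : 1 ≤ k₀ / 8 * dist (f z₀) q := by
      have := mul_le_mul_of_nonneg_left hℓ8 (show 0 ≤ k₀ / 8 by positivity)
      have e2 : k₀ / 8 * (8 / k₀) = 1 := by field_simp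
      linarith
    calc vsq G f z₀ = vsq G f z₀ * 1 := (mul_one _).symm
      _ ≤ vsq G f z₀ * (k₀ / 8 * dist (f z₀) q) := mul_le_mul_of_nonneg_left e1 hv
      _ = k₀ / 8 * vsq G f z₀ * dist (f z₀) q := by ring
  filter_upwards [hbar] with ρ hρ
  have e3 : avg4 (fun z => -dist (f z) q) z₀ ρ = -avg4 (fun z => dist (f z) q) z₀ ρ := by
    unfold avg4
    ring
  show (k₀ / 16 * vsq G f z₀ - ε) * ρ ^ 2 ≤
    avg4 (fun z => -dist (f z) q) z₀ ρ - -dist (f z₀) q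
  rw [e3]
  have hρ2 : 0 ≤ ρ ^ 2 := sq_nonneg ρ
  have e4 : ρ ^ 2 / 2 * (vsq G f z₀ / dist (f z₀) q - k₀ / 4 * vsq G f z₀ + ε)
      ≤ ρ ^ 2 / 2 * (k₀ / 8 * vsq G f z₀ - k₀ / 4 * vsq G f z₀ + ε) := by
    apply mul_le_mul_of_nonneg_left _ (by positivity)
    linarith
  have e5 : 0 ≤ ρ ^ 2 * ε := mul_nonneg hρ2 hε.le
  nlinarith

end KI
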