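import Pool.Agent.H49.KI.CNV
import Pool.Agent.H49.KI.RAY
import Pool.Agent.H49.KI.TopC

/-! # TRP: trapping points

PROOF. Suppose not: for all `R₁ ≥ R` and `T₀` there are `T ≥ T₀` and `x` with `R₁ ≤ dist p x ≤ R₁ + 1` and
`T - R ≤ dist x q` for all `q` with `dist p q = T`. For `j : ℕ` take `R₁ = max R 1 + j`, `B j = R₁ + 1`,
`T₀ = (j + 2) * B j`: get `T j`, `x j`; `r j = dist p (x j)`, `j + 1 ≤ r j ≤ B j`, `T j - r j ≥ (j + 1) * r j`. `choose`.
`c j`: minimal geodesic from `p` to `x j` (`exists_mgeod`; `IsMGeod (c j) (r j)`, `c j 0 = p`, `c j (r j) = x j`).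
`U = Ultrafilter.of atTop` (`Ultrafilter.of_le`), `γ` from `ray_limit` (`r → ∞`).
`q = γ (T j)`: `dist p q = dist (γ 0) (γ (T j)) = T j`. `φ s = dist (c j s) q` on `[0, r j]`:
`φ 0 = T j`, `φ (r j) = dist (x j) q ≥ T j - R`. For `s ∈ (0, r j)`:
`dist (c j s) q ≥ T j - s ≥ T j - r j > 0`, so `c j s ≠ q`, and `barrier_real` gives the hypothesis of
`almost_concave` with `M = 1 / (T j - r j)` (`1 / dist ≤ M`). With `a = 0`, `b = r j`, `s = 1` (`1 ≤ r j`):
`φ 1 ≥ ((r j - 1) * T j + (T j - R)) / r j - M / 2 * (r j - 1) ≥ T j - |R| / r j - 1 / (2 (j + 1))`.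
(`r j > 0`; if `r j = 1` this is fine too; `almost_concave` needs `0 < r j`.)
On the other hand `φ 1 ≤ dist (c j 1) (γ 1) + dist (γ 1) (γ (T j)) = dist (c j 1) (γ 1) + T j - 1`.
So `1 ≤ dist (c j 1) (γ 1) + |R| / r j + 1 / (2 (j + 1))` for all `j`; the right side tends to `0` along `U`
(`ray_limit`, `r → ∞`): `ge_of_tendsto` gives `1 ≤ 0`. Contradiction. -/

set_option autoImplicit false

namespace KI

open Complex Metric Set Filter Topology Manifold ContDiff
open KB (V DR wirt levi rho Sesq lap lapC dz)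

variable {n : ℕ} {X : Type} [MetricSpace X] [ChartedSpace (V n) X]
  {G : OpenPartialHomeomorph X (V n) → V n → V n → V n → ℂ}

theorem trap_points [IsManifold 𝓘(ℂ, V n) ω X] [ProperSpace X]
    (ctx : Ctx G) (hS : SecNonneg G) (p : X) (R : ℝ) :
    ∃ R₁ ≥ R, ∃ T₀, ∀ T ≥ T₀, ∀ x, R₁ ≤ dist p x → dist p x ≤ R₁ + 1 →
      ∃ q, dist p q = T ∧ dist x q < T - R := by
  by_contra hcon
  push Not at hcon
  have h1 : ∀ j : ℕ, ∃ T : ℝ, ∃ x : X, (j : ℝ) + 1 ≤ dist p x ∧
      ((j : ℝ) + 1) * dist p x ≤ T - dist p x ∧ ∀ q, dist p q = T → T - R ≤ dist x q := by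
    intro j
    have hj : (0 : ℝ) ≤ (j : ℝ) := Nat.cast_nonneg j
    obtain ⟨T, hT, x, hx1, hx2, hx3⟩ := hcon (max R 1 + j)
      (by linarith [le_max_left R 1]) (((j : ℝ) + 2) * (max R 1 + j + 1))
    have hm : (1 : ℝ) ≤ max R 1 := le_max_right R 1
    refine ⟨T, x, by linarith, ?_, hx3⟩
    have h2 : ((j : ℝ) + 2) * dist p x ≤ ((j : ℝ) + 2) * (max R 1 + j + 1) :=
      mul_le_mul_of_nonneg_left hx2 (by linarith)
    linarith
  choose T x hx1 hx2 hx3 using h1
  choose c hc h0 hcr using fun j : ℕ => exists_mgeod ctx p (x j)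
  have hr : Tendsto (fun j : ℕ => dist p (x j)) atTop atTop :=
    tendsto_atTop_mono hx1 (tendsto_natCast_atTop_atTop.atTop_add tendsto_const_nhds)
  obtain ⟨γ, hγ0, hγ, hlim⟩ := ray_limit hr hc h0 (Ultrafilter.of atTop)
    (Ultrafilter.of_le atTop)
  have key : ∀ j : ℕ, 1 ≤ dist (c j 1) (γ 1) + |R| / dist p (x j) + 1 / (2 * ((j : ℝ) + 1)) := by
    intro j
    have hj : (0 : ℝ) ≤ (j : ℝ) := Nat.cast_nonneg j
    have hx1j := hx1 j
    have hx2j := hx2 j
    have hx3j := hx3 j
    have hcj := hc j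
    have h0j := h0 j
    have hcrj := hcr j
    generalize hrd : dist p (x j) = r at *
    have hr1 : 1 ≤ r := by linarith
    have hr0 : 0 < r := by linarith
    have hTr : 0 < T j - r := lt_of_lt_of_le (by positivity) hx2j
    have hT1 : 1 ≤ T j := by linarith
    have hpq : dist p (γ (T j)) = T j := by
      have := hγ (T j) 0 ⟨le_refl _, by linarith⟩ (T j) ⟨by linarith, le_refl _⟩
      rw [hγ0, zero_sub, abs_neg, abs_of_nonneg (by linarith)] at this
      exact this
    have hlow : ∀ s ∈ Icc (0 : ℝ) r, T j - r ≤ dist (c j s) (γ (T j)) := by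
      intro s hs
      have h3 := hcj 0 ⟨le_refl _, hr0.le⟩ s hs
      rw [h0j, zero_sub, abs_neg, abs_of_nonneg hs.1] at h3
      have h4 := dist_triangle p (c j s) (γ (T j))
      linarith [hs.2]
    have hcont : ContinuousOn (fun s => dist (c j s) (γ (T j))) (Icc 0 r) := by
      have hL : LipschitzOnWith 1 (c j) (Icc 0 r) :=
        LipschitzOnWith.of_dist_le_mul (fun s hs t ht => by
          rw [hcj s hs t ht, Real.dist_eq]; simp)
      exact fun s hs => Filter.Tendsto.dist (hL.continuousOn s hs) tendsto_const_nhds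
    have hac := almost_concave (M := 1 / (T j - r)) hr0 hcont (by
      intro s hs ε hε
      have hge := hlow s ⟨hs.1.le, hs.2.le⟩
      have hne : c j s ≠ γ (T j) := by
        intro h
        rw [h, dist_self] at hge
        linarith
      filter_upwards [barrier_real ctx hS hcj hs hne hε] with h hh
      refine hh.trans (mul_le_mul_of_nonneg_right ?_ (sq_nonneg h))
      have := one_div_le_one_div_of_le hTr hge
      linarith) (s := 1) ⟨zero_le_one, hr1⟩
    have h5 : dist (c j 0) (γ (T j)) = T j := by rw [h0j, hpq]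
    have h6 : T j - R ≤ dist (c j r) (γ (T j)) := by
      rw [hcrj]; exact hx3j _ hpq
    have h7 : dist (c j 1) (γ (T j)) ≤ dist (c j 1) (γ 1) + (T j - 1) := by
      have h8 := dist_triangle (c j 1) (γ 1) (γ (T j))
      have h9 := hγ (T j) 1 ⟨zero_le_one, hT1⟩ (T j) ⟨by linarith, le_refl _⟩
      rw [abs_sub_comm, abs_of_nonneg (by linarith)] at h9
      linarith
    simp only [h5, sub_zero, mul_one, one_mul] at hac
    have h10 : ((r - 1) * T j + (T j - R)) / r ≤
        ((r - 1) * T j + dist (c j r) (γ (T j))) / r := by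
      apply div_le_div_of_nonneg_right _ hr0.le
      linarith
    have h11 : ((r - 1) * T j + (T j - R)) / r = T j - R / r := by
      field_simp
      ring
    have h12 : R / r ≤ |R| / r := div_le_div_of_nonneg_right (le_abs_self R) hr0.le
    have h13 : 1 / (T j - r) / 2 * (r - 1) ≤ 1 / (2 * ((j : ℝ) + 1)) := by
      have e1 : 1 / (T j - r) / 2 * (r - 1) = (r - 1) / (2 * (T j - r)) := by
        field_simp
      rw [e1, div_le_div_iff₀ (by positivity) (by positivity)]
      nlinarith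
    linarith
  have hD : Tendsto (fun j : ℕ => dist (c j 1) (γ 1) + |R| / dist p (x j) +
      1 / (2 * ((j : ℝ) + 1))) (Ultrafilter.of atTop : Ultrafilter ℕ) (𝓝 (0 + 0 + 0)) := by
    refine (Tendsto.add ?_ ?_).add ?_
    · have := (hlim 1 zero_le_one).dist (tendsto_const_nhds (x := γ 1))
      rwa [dist_self] at this
    · exact (tendsto_const_nhds.div_atTop hr).mono_left (Ultrafilter.of_le atTop)
    · have h14 : Tendsto (fun j : ℕ => 2 * ((j : ℝ) + 1)) atTop atTop :=
        (tendsto_natCast_atTop_atTop.atTop_add tendsto_const_nhds).const_mul_atTop two_pos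
      exact (tendsto_const_nhds.div_atTop h14).mono_left (Ultrafilter.of_le atTop)
  have h15 : (1 : ℝ) ≤ 0 + 0 + 0 := ge_of_tendsto' hD key
  norm_num at h15

end KI
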