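import Pool.Agent.H49.KI.RMT
import Pool.Agent.H49.KI.GE5

/-! # Blocks A, B (helper49): the distance, Hopf-Rinow, geodesics

Everything is in RMT.lean (`exists_metric`), RPR.lean (`proper_of_complete`, `exists_mgeod`, `loc_upper`,
`loc_lower`) and GE5.lean (`mgeod_chart`). -/
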