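import Pool.Agent.H49.KI.TopB
import Pool.Agent.H49.KI.TopI
import Pool.Agent.H49.KI.MXP
import Pool.Agent.H49.KI.TRP
import Pool.Agent.H49.KI.SPH

/-! # Block D (helper49): trapping and strict plurisubharmonicity of `-dist(·, q)`

Everything is in MXP.lean (`max_principle`), TRP.lean (`trap_points`), SPH.lean (`strict_psh`). -/
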