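import Pool.Agent.H49.KI.TopCH
import Pool.Agent.H50.KI.Ecf

/-! # Block E: curvature (files Pool/Agent/H50/KI/Eca.lean .. Ecf.lean) -/
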