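import Pool.Agent.H49.KI.TopE
import Pool.Agent.H50.KI.St1
import Pool.Agent.H50.KI.Int
import Pool.Agent.H50.KI.Dmt
import Pool.Agent.H50.KI.Llg

/-! # Block H (helper50): frames, step 1, interior estimate

`KI.step1'` (Pool/Agent/H50/KI/St1.lean), `KI.interior` (Int.lean), `KI.Bf_chart` (Fra.lean),
`KI.discMet_of_thick` (Dmt.lean), `KI.lap_log` (Llg.lean). -/
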